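import Pool.Agent.Singer.Cube.OmConv
import Pool.Agent.Singer.Subgr

/-!
# Singer, convex subcomplexes of the Davis complex: coordinates for a group which acts freely and cocompactly
-/

set_option autoImplicit false
set_option linter.unusedSectionVars false
set_option linter.unusedVariables false

namespace Singer
namespace Om

universe u

open Racg

section frame
variable {V : Type u} {G : SimpleGraph V} {Ω : Set (RACG G)} {H : Subgroup (RACG G)}

lemma Coc.on_mul (hC : Coc Ω H) {h : RACG G} (hh : h ∈ H) {w : RACG G} {S : Finset V} (hw : On Ω (w, S)) :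
    On Ω (h * w, S) := by
  refine ⟨hC.act h hh w hw.1, fun t ht => ?_⟩
  show h * w * gen G t ∈ Ω
  rw [mul_assoc]
  exact hC.act h hh _ (hw.2 t ht)

/-- the double cosets of a subgroup and a special subgroup, cells of the subcomplex -/
def odcSetoid (Ω : Set (RACG G)) (H : Subgroup (RACG G)) (S : Finset V) : Setoid {w : RACG G // On Ω (w, S)} where
  r x y := ∃ h ∈ H, ∃ u ∈ Racg.sub (G := G) (S : Set V), (y : RACG G) = h * x * u
  iseqv := by
    refine ⟨fun x => ⟨1, H.one_mem, 1, Subgroup.one_mem _, by simp⟩, ?_, ?_⟩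
    · rintro x y ⟨h, hh, u, hu, he⟩
      exact ⟨h⁻¹, H.inv_mem hh, u⁻¹, Subgroup.inv_mem _ hu, by rw [he]; group⟩
    · rintro x y z ⟨h, hh, u, hu, he⟩ ⟨h', hh', u', hu', he'⟩
      exact ⟨h' * h, H.mul_mem hh' hh, u * u', Subgroup.mul_mem _ hu hu', by rw [he', he]; group⟩

lemma finite_odc (hC : Coc Ω H) (S : Finset V) : Finite (Quotient (odcSetoid Ω H S)) := by
  obtain ⟨F, hF, hFw⟩ := hC.fin
  have : Finite {f : RACG G // f ∈ F ∧ On Ω (f, S)} := Set.Finite.subset hF fun f hf => hf.1
  refine Finite.of_surjective (α := {f : RACG G // f ∈ F ∧ On Ω (f, S)})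
    (fun f => Quotient.mk (odcSetoid Ω H S) ⟨f.1, f.2.2⟩) fun q => ?_
  induction q using Quotient.inductionOn with
  | h w =>
    obtain ⟨g, hg, f, hf, he⟩ := hFw w w.2.1
    have h1 : f = g⁻¹ * w := by rw [he, inv_mul_cancel_left]
    refine ⟨⟨f, hf, ?_⟩, Quotient.sound ⟨g, hg, 1, Subgroup.one_mem _, ?_⟩⟩
    · rw [h1]
      exact hC.on_mul (H.inv_mem hg) w.2
    · show (w : RACG G) = g * f * 1
      rw [mul_one, he]

theorem exists_oframe [Finite V] (hΩ : LC Ω) (hC : Coc Ω H) (h : Fr H) : Nonempty (OFrame Ω H) := by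
  classical
  have hfin : ∀ S : Finset V, Finite (Quotient (odcSetoid Ω H S)) := finite_odc hC
  let m : ∀ S : Finset V, G.IsClique S → H × Quotient (odcSetoid Ω H S) × Racg.sub (G := G) (S : Set V) →
      {w : RACG G // On Ω (w, S)} := fun S hS x =>
    ⟨(x.1 : RACG G) * (x.2.1.out : RACG G) * (x.2.2 : RACG G),
      (hΩ.on_mul hS x.2.2.2).2 (hC.on_mul x.1.2 x.2.1.out.2)⟩
  have hbij : ∀ (S : Finset V) (hS : G.IsClique S), Function.Bijective (m S hS) := by
    intro S hS
    constructor
    · rintro ⟨k, o, x⟩ ⟨k', o', x'⟩ he'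
      have he : (k : RACG G) * (o.out : RACG G) * (x : RACG G) = k' * (o'.out : RACG G) * (x' : RACG G) :=
        congrArg Subtype.val he'
      have ho : o = o' := by
        rw [← Quotient.out_eq o, ← Quotient.out_eq o']
        refine Quotient.sound ⟨(k' : RACG G)⁻¹ * k, H.mul_mem (H.inv_mem k'.2) k.2, (x : RACG G) * (x' : RACG G)⁻¹,
          Subgroup.mul_mem _ x.2 (Subgroup.inv_mem _ x'.2), ?_⟩
        have h1 : (k' : RACG G)⁻¹ * k * (o.out : RACG G) * ((x : RACG G) * (x' : RACG G)⁻¹) =
            (k' : RACG G)⁻¹ * (k * (o.out : RACG G) * x) * (x' : RACG G)⁻¹ := by group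
        rw [h1, he]
        group
      subst ho
      have hk : (k' : RACG G)⁻¹ * k = 1 := by
        refine h S hS (o.out : RACG G) _ (H.mul_mem (H.inv_mem k'.2) k.2) ?_
        have h1 : (o.out : RACG G)⁻¹ * ((k' : RACG G)⁻¹ * k) * (o.out : RACG G) = (x' : RACG G) * (x : RACG G)⁻¹ := by
          have h2 : (k : RACG G) * (o.out : RACG G) = k' * (o.out : RACG G) * x' * (x : RACG G)⁻¹ := by
            rw [← he]
            group
          have h3 : (o.out : RACG G)⁻¹ * ((k' : RACG G)⁻¹ * k) * (o.out : RACG G) =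
              (o.out : RACG G)⁻¹ * (k' : RACG G)⁻¹ * (k * (o.out : RACG G)) := by group
          rw [h3, h2]
          group
        rw [h1]
        exact Subgroup.mul_mem _ x'.2 (Subgroup.inv_mem _ x.2)
      have hk' : k' = k := Subtype.ext (inv_mul_eq_one.1 hk)
      subst hk'
      have hx : x = x' := Subtype.ext (mul_left_cancel he)
      rw [hx]
    · intro g
      obtain ⟨a, ha, b, hb, hab⟩ := Quotient.exact (Quotient.out_eq (Quotient.mk (odcSetoid Ω H S) g))
      exact ⟨(⟨a, ha⟩, Quotient.mk _ g, ⟨b, hb⟩), Subtype.ext hab.symm⟩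
  exact ⟨{
    O := fun S => Quotient (odcSetoid Ω H S)
    fin := fun S => by
      have := hfin S
      exact Fintype.ofFinite _
    t := fun S o => o.out
    e := fun S hS => Equiv.ofBijective _ (hbij S hS)
    e_apply := fun S hS k o u => rfl }⟩

end frame

end Om
end Singer
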