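import Pool.Agent.Singer.Cube.OmDavis
import Pool.Agent.Singer.ToFin

/-!
# Singer, convex subcomplexes of the Davis complex: duality

`isPD_of_osph` : a group which acts freely and cocompactly is a Poincare duality group, if the links are homology
spheres; `exists_ofinRes` : it has a finite resolution by finitely generated free modules.
-/

set_option autoImplicit false
set_option linter.unusedSectionVars false
set_option linter.unusedVariables false

namespace Singer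
namespace Om

universe u

open Racg

section pd
variable {V : Type u} [Fintype V] [DecidableEq V] {G : SimpleGraph V} {Ω : Set (RACG G)} {H : Subgroup (RACG G)}

/-- the cell as a chain -/
lemma OFrame.cel_mem (F : OFrame Ω H) (m : ℤ) {i : ℕ} {g : RACG G} {S : Finset V} (hS : G.IsClique S ∧ S.card = i)
    (hg : On Ω (g, S)) : cel m g S ∈ OC ℤ Ω Finset.univ i := by
  refine ⟨hS.2 ▸ Singer.cel_mem m g hS.1, ?_⟩
  rintro ⟨g', S'⟩ hx
  unfold cel at hx
  by_cases h : S' = S ∧ g⁻¹ * g' ∈ Racg.sub (G := G) (S : Set V)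
  · obtain ⟨rfl, h2⟩ := h
    have h3 := (F.on_right hS.1 h2 (g := g)).2 hg
    rwa [mul_inv_cancel_left] at h3
  · exact absurd (if_neg h) hx

/-- the cell as a chain -/
noncomputable def OFrame.celO (F : OFrame Ω H) (i : ℕ) (g : RACG G) {S : Finset V} (hS : G.IsClique S ∧ S.card = i)
    (hg : On Ω (g, S)) : OC ℤ Ω Finset.univ i :=
  ⟨cel 1 g S, F.cel_mem 1 hS hg⟩

lemma OFrame.celO_coe (F : OFrame Ω H) (i : ℕ) (g : RACG G) {S : Finset V} (hS : G.IsClique S ∧ S.card = i)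
    (hg : On Ω (g, S)) : (F.celO i g hS hg : RACG G × Finset V → ℤ) = cel 1 g S := rfl

lemma OFrame.psi_single (F : OFrame Ω H) {i : ℕ} (h : H) (j : F.J i) [DecidableEq (F.J i)] :
    F.psi i (MonoidAlgebra.single h (1 : ℤ) • Pi.single j 1) =
      F.celO i ((h : RACG G) * F.t j.1.1 j.2) j.1.2 ((F.on_left j.1.2.1 h).2 (F.on_t j.1.2.1 j.2)) := by
  apply Subtype.ext
  rw [F.celO_coe, F.psi_coe]
  funext ⟨g, S⟩
  by_cases hS : (G.IsClique S ∧ S.card = i) ∧ On Ω (g, S)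
  · rw [F.fn_apply _ hS.1 g hS.2, Pi.smul_apply, smul_eq_mul, coeff_single_smul]
    by_cases hc : S = j.1.1 ∧ ((h : RACG G) * F.t j.1.1 j.2)⁻¹ * g ∈ Racg.sub (G := G) (j.1.1 : Set V)
    · obtain ⟨rfl, hu⟩ := hc
      have h1 : g = (h : RACG G) * F.t j.1.1 j.2 * (((h : RACG G) * F.t j.1.1 j.2)⁻¹ * g) := by
        rw [mul_inv_cancel_left]
      generalize ((h : RACG G) * F.t j.1.1 j.2)⁻¹ * g = u at h1 hu
      subst h1
      rw [cel_eq hu, F.c_eq hS.1.1 h j.2 ⟨u, hu⟩ hS.2]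
      dsimp only
      rw [inv_mul_cancel]
      have h2 : (⟨⟨j.1.1, hS.1⟩, j.2⟩ : F.J i) = j := rfl
      rw [h2, Pi.single_eq_same, MonoidAlgebra.one_def, MonoidAlgebra.coeff_single, Finsupp.single_eq_same, mul_one]
    · rw [cel_zero hc]
      by_cases h3 : (⟨⟨S, hS.1⟩, (F.c hS.1.1 g hS.2).2.1⟩ : F.J i) = j
      · subst h3
        dsimp only at hc ⊢
        rw [Pi.single_eq_same, MonoidAlgebra.one_def, MonoidAlgebra.coeff_single]
        rw [Finsupp.single_eq_of_ne, mul_zero]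
        intro h4
        apply hc
        refine ⟨rfl, ?_⟩
        have h5 : h = (F.c hS.1.1 g hS.2).1 := inv_mul_eq_one.1 h4
        have h6 := F.c_spec hS.1.1 g hS.2
        rw [← h5] at h6
        have h7 : ((h : RACG G) * F.t S (F.c hS.1.1 g hS.2).2.1)⁻¹ * g = (F.c hS.1.1 g hS.2).2.2 := by
          rw [inv_mul_eq_iff_eq_mul]
          exact h6.symm
        rw [h7]
        exact (F.c hS.1.1 g hS.2).2.2.2
      · rw [Pi.single_eq_of_ne h3, MonoidAlgebra.coeff_zero, Finsupp.zero_apply, mul_zero]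
  · rw [F.fn_neg _ hS, cel_zero]
    rintro ⟨rfl, h2⟩
    refine hS ⟨j.1.2, ?_⟩
    have h3 := (F.on_right j.1.2.1 h2 (g := (h : RACG G) * F.t j.1.1 j.2)).2
      ((F.on_left j.1.2.1 h).2 (F.on_t j.1.2.1 j.2))
    rwa [mul_inv_cancel_left] at h3

lemma OFrame.celO_c (F : OFrame Ω H) {i : ℕ} (g : RACG G) {S : Finset V} (hS : G.IsClique S ∧ S.card = i)
    (hg : On Ω (g, S)) :
    F.celO i g hS hg = ((sgW G ((F.c hS.1 g hg).2.2 : RACG G) : ℤˣ) : ℤ) •
      F.celO i (((F.c hS.1 g hg).1 : RACG G) * F.t S (F.c hS.1 g hg).2.1) hS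
        ((F.on_left hS.1 _).2 (F.on_t hS.1 _)) := by
  have h6 := F.c_spec hS.1 g hg
  have hu := (F.c hS.1 g hg).2.2.2
  apply Subtype.ext
  rw [F.celO_coe, AddSubgroup.coe_zsmul, F.celO_coe]
  generalize ((F.c hS.1 g hg).2.2 : RACG G) = u at h6 hu
  generalize ((F.c hS.1 g hg).1 : RACG G) * F.t S (F.c hS.1 g hg).2.1 = k at h6
  subst h6
  funext ⟨g', S'⟩
  show cel 1 (k * u) S (g', S') = ((sgW G u : ℤˣ) : ℤ) * cel 1 k S (g', S')
  by_cases hc : S' = S ∧ k⁻¹ * g' ∈ Racg.sub (G := G) (S : Set V)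
  · obtain ⟨rfl, hu'⟩ := hc
    have h1 : g' = k * (k⁻¹ * g') := by rw [mul_inv_cancel_left]
    generalize k⁻¹ * g' = u' at h1 hu'
    subst h1
    rw [cel_eq hu']
    have h2 : k * u' = k * u * (u⁻¹ * u') := by group
    rw [h2, cel_eq (Subgroup.mul_mem _ (Subgroup.inv_mem _ hu) hu'), map_mul, map_inv, Units.val_mul, Int.units_inv_eq_self]
  · rw [cel_zero hc, mul_zero, cel_zero]
    rintro ⟨h1, h2⟩
    apply hc
    refine ⟨h1, ?_⟩
    have h3 : k⁻¹ * g' = u * ((k * u)⁻¹ * g') := by group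
    rw [h3]
    exact Subgroup.mul_mem _ hu h2

open Classical in
/-- linear maps to the group ring are finitely supported cochains -/
noncomputable def OFrame.th (F : OFrame Ω H) (i : ℕ) :
    ((F.J i → ZG H) →ₗ[ZG H] ZG H) ≃+ OC ℤ Ω Finset.univ i :=
  (homEquiv (F.J i)).trans ((AddEquiv.piCongrRight fun _ : F.J i => (star' : ZG H ≃+ ZG H)).trans (F.psi i))

open Classical in
lemma OFrame.th_eq (F : OFrame Ω H) {i : ℕ} (φ : (F.J i → ZG H) →ₗ[ZG H] ZG H) :
    F.th i φ = F.psi i fun j => star' (φ (Pi.single j 1)) := by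
  show F.psi i (fun j => star' (homEquiv (F.J i) φ j)) = _
  congr 1
  funext j
  rw [homEquiv_apply]

theorem OFrame.th_apply (F : OFrame Ω H) {i : ℕ} (φ : (F.J i → ZG H) →ₗ[ZG H] ZG H) (g : RACG G) {S : Finset V}
    (hS : G.IsClique S ∧ S.card = i) (hg : On Ω (g, S)) :
    (F.th i φ : RACG G × Finset V → ℤ) (g, S) = (φ ((F.psi i).symm (F.celO i g hS hg))).coeff 1 := by
  classical
  rw [F.th_eq, F.psi_coe, F.fn_apply _ hS g hg, coeff_star', F.celO_c g hS hg, map_zsmul, map_zsmul]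
  have h1 : (F.psi i).symm (F.celO i (((F.c hS.1 g hg).1 : RACG G) * F.t S (F.c hS.1 g hg).2.1) hS
        ((F.on_left hS.1 _).2 (F.on_t hS.1 _))) =
      MonoidAlgebra.single (F.c hS.1 g hg).1 (1 : ℤ) • Pi.single (⟨⟨S, hS⟩, (F.c hS.1 g hg).2.1⟩ : F.J i) 1 := by
    rw [AddEquiv.symm_apply_eq]
    exact (F.psi_single (F.c hS.1 g hg).1 (⟨⟨S, hS⟩, (F.c hS.1 g hg).2.1⟩ : F.J i)).symm
  rw [h1, LinearMap.map_smul, smul_eq_mul]
  show _ = ((sgW G ((F.c hS.1 g hg).2.2 : RACG G) : ℤˣ) : ℤ) *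
    (MonoidAlgebra.single (F.c hS.1 g hg).1 (1 : ℤ) *
      φ (Pi.single (⟨⟨S, hS⟩, (F.c hS.1 g hg).2.1⟩ : F.J i) 1)).coeff 1
  rw [coeff_single_smul, mul_one]

lemma oc_zero {M : Type*} [AddCommGroup M] {A : Finset V} {i : ℕ} {f : RACG G × Finset V → M} (hf : f ∈ OC M Ω A i)
    {S : Finset V} {g : RACG G} (h : ¬ ((G.IsClique S ∧ S.card = i) ∧ On Ω (g, S))) : f (g, S) = 0 := by
  by_contra h1
  exact h ⟨⟨(hf.1.2.1 (g, S) h1).2.2, (hf.1.2.1 (g, S) h1).2.1⟩, hf.2 (g, S) h1⟩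

theorem OFrame.th_dd (F : OFrame Ω H) (hΩ : LC Ω) (r : V → ℕ) {i : ℕ} (φ : (F.J i → ZG H) →ₗ[ZG H] ZG H) :
    (F.th (i + 1) (φ.comp (F.dd r i)) : RACG G × Finset V → ℤ) = ocod Ω r (F.th i φ : RACG G × Finset V → ℤ) := by
  classical
  funext ⟨g, T⟩
  by_cases hT : (G.IsClique T ∧ T.card = i + 1) ∧ On Ω (g, T)
  · obtain ⟨hT, hg⟩ := hT
    have hv : ∀ v ∈ T, G.IsClique (T.erase v) ∧ (T.erase v).card = i := fun v hv =>
      ⟨hT.1.subset (Finset.coe_subset.2 (Finset.erase_subset v T)), by rw [Finset.card_erase_of_mem hv, hT.2]; rfl⟩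
    have hsub : ∀ {g' : RACG G} (v : V), On Ω (g', T) → On Ω (g', T.erase v) := fun v h =>
      ⟨h.1, fun t ht => h.2 t (Finset.mem_of_mem_erase ht)⟩
    have hg1 : ∀ v, On Ω (g, T.erase v) := fun v => hsub v hg
    have hg2 : ∀ v ∈ T, On Ω (g * Racg.gen G v, T.erase v) := fun v hv =>
      hsub v ((F.on_right hT.1 (Racg.gen_mem_sub (Finset.mem_coe.2 hv))).2 hg)
    have h1 : F.dd r i ((F.psi (i + 1)).symm (F.celO (i + 1) g hT hg)) = ∑ v ∈ T.attach, sgz r v (T.erase v) •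
        ((F.psi i).symm (F.celO i g (hv v.1 v.2) (hg1 v.1)) -
          (F.psi i).symm (F.celO i (g * Racg.gen G v) (hv v.1 v.2) (hg2 v.1 v.2))) := by
      apply (F.psi i).injective
      rw [F.psi_dd, AddEquiv.apply_symm_apply, map_sum]
      apply Subtype.ext
      rw [ocD_coe, F.celO_coe, AD_cel _ _ hT.1]
      rw [AddSubgroup.val_finsetSum, ← Finset.sum_attach]
      refine Finset.sum_congr rfl fun v _ => ?_
      rw [map_zsmul, _root_.map_sub, AddEquiv.apply_symm_apply, AddEquiv.apply_symm_apply]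
      rfl
    rw [F.th_apply _ g hT hg, LinearMap.comp_apply, h1, map_sum]
    have h2 : ocod Ω r (F.th i φ : RACG G × Finset V → ℤ) (g, T) = ∑ v ∈ T, sgz r v (T.erase v) •
        ((F.th i φ : RACG G × Finset V → ℤ) (g, T.erase v) -
          (F.th i φ : RACG G × Finset V → ℤ) (g * Racg.gen G v, T.erase v)) :=
      (if_pos hg).trans (if_pos hT.1)
    rw [h2, MonoidAlgebra.coeff_sum, Finsupp.finsetSum_apply]
    refine Eq.trans ?_ (Finset.sum_attach T fun v => sgz r v (T.erase v) •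
        ((F.th i φ : RACG G × Finset V → ℤ) (g, T.erase v) -
          (F.th i φ : RACG G × Finset V → ℤ) (g * Racg.gen G v, T.erase v)))
    refine Finset.sum_congr rfl fun v _ => ?_
    rw [F.th_apply _ g (hv v.1 v.2) (hg1 v.1), F.th_apply _ (g * Racg.gen G v) (hv v.1 v.2) (hg2 v.1 v.2), map_zsmul,
      _root_.map_sub]
    rfl
  · rw [oc_zero (F.th (i + 1) _).2 hT, oc_zero (ocod_mem hΩ (F.th i φ).2) hT]

end pd

/-- the homological algebra: a resolution whose dual is the complex of finitely supported cochains -/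
theorem isPD_of_odual {V : Type u} [Fintype V] [DecidableEq V] {G : SimpleGraph V} {Ω : Set (RACG G)} (hΩ : LC Ω)
    {Γ : Type u} [Group Γ]
    (R : ProjRes Γ) (hfin : ∃ N, ∀ i, N < i → Subsingleton (R.P i)) {r : V → ℕ} (hr : Function.Injective r)
    (Θ : ∀ i, (R.P i →ₗ[ZG Γ] ZG Γ) ≃+ OC ℤ Ω Finset.univ i)
    (hΘ : ∀ i φ, (Θ (i + 1) (φ.comp (R.d i)) : RACG G × Finset V → ℤ) = ocod Ω r (Θ i φ : RACG G × Finset V → ℤ))
    {n : ℕ} {τ : Finset V} (h : OSph ℤ r Ω n τ) (h0 : cel (1 : ℤ) (1 : RACG G) τ ∈ OC ℤ Ω Finset.univ n) :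
    IsPD n Γ := by
  classical
  have hinj : ∀ i (φ ψ : R.P i →ₗ[ZG Γ] ZG Γ),
      (Θ i φ : RACG G × Finset V → ℤ) = (Θ i ψ : RACG G × Finset V → ℤ) → φ = ψ := fun i φ ψ hφ =>
    (Θ i).injective (Subtype.ext hφ)
  have hz : ∀ i, (Θ i 0 : RACG G × Finset V → ℤ) = 0 := fun i => by
    rw [map_zero]
    rfl
  -- cocycles and coboundaries
  have hZ : ∀ i (φ : R.P i →ₗ[ZG Γ] ZG Γ), φ ∈ R.Zn i ↔ ocod Ω r (Θ i φ : RACG G × Finset V → ℤ) = 0 := by
    intro i φ
    show φ.comp (R.d i) = 0 ↔ _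
    rw [← hΘ]
    constructor
    · intro h1
      rw [h1, hz]
    · intro h1
      exact hinj (i + 1) _ _ (by rw [h1, hz])
  have hB : ∀ i (φ : R.P i →ₗ[ZG Γ] ZG Γ), φ ∈ R.Bn i ↔ (Θ i φ : RACG G × Finset V → ℤ) ∈ OB ℤ Ω r i := by
    intro i φ
    cases i with
    | zero =>
      show φ = 0 ↔ (Θ 0 φ : RACG G × Finset V → ℤ) = 0
      constructor
      · intro h1
        rw [h1, hz]
      · intro h1
        exact hinj 0 _ _ (by rw [h1, hz])
    | succ i =>
      constructor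
      · rintro ⟨ψ, rfl⟩
        exact ⟨Θ i ψ, (Θ i ψ).2, (hΘ i ψ).symm⟩
      · rintro ⟨f, hf, hφ⟩
        refine ⟨(Θ i).symm ⟨f, hf⟩, hinj (i + 1) _ _ ?_⟩
        show (Θ (i + 1) (((Θ i).symm ⟨f, hf⟩).comp (R.d i)) : RACG G × Finset V → ℤ) = _
        rw [hΘ, AddEquiv.apply_symm_apply]
        exact hφ
  refine ⟨R, hfin, fun i hi => ?_, ?_⟩
  · -- other degrees
    refine ⟨fun a b => ?_⟩
    induction a using QuotientAddGroup.induction_on with
    | H a =>
      induction b using QuotientAddGroup.induction_on with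
      | H b =>
        rw [QuotientAddGroup.eq, AddSubgroup.mem_addSubgroupOf, hB]
        refine ohc_vanish hΩ hr h hi (Θ i _).2 ?_
        exact (hZ i _).1 (-a + b).2
  · -- the top degree
    have hm : ∀ m : ℤ, m • cel (1 : ℤ) (1 : RACG G) τ = cel m 1 τ := fun m => by
      funext x
      show m * cel 1 1 τ x = _
      unfold cel
      by_cases hx : x.2 = τ ∧ (1 : RACG G)⁻¹ * x.1 ∈ Racg.sub (G := G) (τ : Set V)
      · rw [if_pos hx, if_pos hx, smul_eq_mul, smul_eq_mul, mul_one, mul_comm]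
      · rw [if_neg hx, if_neg hx, mul_zero]
    have htop : ∀ φ : R.P n →ₗ[ZG Γ] ZG Γ, φ ∈ R.Zn n := by
      intro φ
      rw [hZ]
      have h1 := ocod_mem (r := r) hΩ (Θ n φ).2
      funext ⟨g, S⟩
      refine oc_zero h1 fun h2 => ?_
      have h3 := h.dim g S h2.1.1 h2.2
      omega
    let φ₀ : R.Zn n := ⟨(Θ n).symm ⟨_, h0⟩, htop _⟩
    have hφ₀ : ∀ m : ℤ, (Θ n ((m • φ₀ : R.Zn n) : R.P n →ₗ[ZG Γ] ZG Γ) : RACG G × Finset V → ℤ) = cel m 1 τ := by
      intro m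
      have h1 : ((m • φ₀ : R.Zn n) : R.P n →ₗ[ZG Γ] ZG Γ) = m • (Θ n).symm ⟨_, h0⟩ := rfl
      rw [h1, map_zsmul, AddEquiv.apply_symm_apply]
      exact hm m
    let ρ : ℤ →+ R.Hn n := (QuotientAddGroup.mk' _).comp (zmultiplesHom _ φ₀)
    have hρ : ∀ m, ρ m = QuotientAddGroup.mk (m • φ₀) := fun m => rfl
    refine ⟨(AddEquiv.ofBijective ρ ⟨?_, ?_⟩).symm⟩
    · rw [injective_iff_map_eq_zero]
      intro m hm0
      rw [hρ, QuotientAddGroup.eq_zero_iff, AddSubgroup.mem_addSubgroupOf, hB, hφ₀] at hm0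
      exact ohc_inj hΩ hr h hm0
    · intro a
      induction a using QuotientAddGroup.induction_on with
      | H a =>
        obtain ⟨m, hm1⟩ := ohc_gen hΩ hr h (Θ n (a : R.P n →ₗ[ZG Γ] ZG Γ)).2
        refine ⟨m, ?_⟩
        rw [hρ, QuotientAddGroup.eq, AddSubgroup.mem_addSubgroupOf, hB]
        have h1 : (Θ n ((-(m • φ₀) + a : R.Zn n) : R.P n →ₗ[ZG Γ] ZG Γ) : RACG G × Finset V → ℤ) =
            (Θ n (a : R.P n →ₗ[ZG Γ] ZG Γ) : RACG G × Finset V → ℤ) - cel m 1 τ := by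
          rw [← hφ₀ m, AddSubgroup.coe_add, AddSubgroup.coe_neg, neg_add_eq_sub, _root_.map_sub]
          rfl
        rw [h1]
        exact hm1

section pd2
variable {V : Type u} [Fintype V] [DecidableEq V] {G : SimpleGraph V} {Ω : Set (RACG G)} {H : Subgroup (RACG G)}
  {r : V → ℕ}

/-- **Duality**: a subgroup which acts freely and cocompactly on a convex subcomplex of the Davis complex whose links are
homology spheres is a Poincare duality group -/
theorem isPD_of_osph (hΩ : LC Ω) (F : OFrame Ω H) (hact : ∀ g ∈ H, ∀ w ∈ Ω, g * w ∈ Ω) (hr : Function.Injective r)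
    {n : ℕ} {τ : Finset V} (h : OSph ℤ r Ω n τ) : IsPD n H := by
  refine isPD_of_odual hΩ (opdRes hΩ F hr) ⟨Fintype.card V, fun i hi => ?_⟩ hr (fun i => F.th i)
    (fun i φ => F.th_dd hΩ r φ) h (F.cel_mem 1 ⟨h.clq, h.card⟩ h.on)
  have : IsEmpty (F.J i) := ⟨fun j => by
    have h1 := j.1.2.2
    have h2 := Finset.card_le_univ j.1.1
    omega⟩
  show Subsingleton (F.J i → ZG H)
  infer_instance

/-- a finite resolution by finitely generated free modules -/
theorem exists_ofinRes (hΩ : LC Ω) (F : OFrame Ω H) (hact : ∀ g ∈ H, ∀ w ∈ Ω, g * w ∈ Ω)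
    (hr : Function.Injective r) : ∃ R : FinRes H, ∀ i, Fintype.card V < i → IsEmpty (R.ι i) := by
  classical
  obtain ⟨R, hR⟩ := finRes_of_lin (Γ := H) (fun i => F.J i) (fun i => F.dd r i) F.ag (opdRes hΩ F hr).aug_smul
    (opdRes hΩ F hr).aug_surj (opdRes hΩ F hr).exact_zero (opdRes hΩ F hr).exact_succ
  refine ⟨R, fun i hi => hR i ⟨fun j => ?_⟩⟩
  have h1 := j.1.2.2
  have h2 := Finset.card_le_univ j.1.1
  omega

end pd2

end Om
end Singer
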