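import Pool.Agent.Singer.Cube.OmDefs
import Pool.Agent.Singer.Sphere

/-!
# Singer: convex subcomplexes of the Davis complex, from the links to the data of a homology manifold
-/

set_option autoImplicit false
set_option linter.unusedSectionVars false
set_option linter.unusedVariables false

namespace Singer
namespace Om

universe u

open Racg

section sph
variable {V : Type u} [Fintype V] [DecidableEq V] {G : SimpleGraph V} {Ω : Set (RACG G)} {n : ℕ}

/-- cells of the subcomplex at a vertex -/
theorem on_iff_dir {w : RACG G} (hw : w ∈ Ω) (S : Finset V) : On Ω (w, S) ↔ ∀ t ∈ S, t ∈ dir Ω w :=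
  ⟨fun h t ht => mem_dir.2 (h.2 t ht), fun h => ⟨hw, fun t ht => mem_dir.1 (h t ht)⟩⟩

/-- cliques of a full subgraph -/
theorem clique_map_res {A : Finset V} (S : Finset {v // v ∈ A}) :
    G.IsClique (S.map (Function.Embedding.subtype _) : Finset V) ↔ (res G A).IsClique S := by
  constructor
  · intro h x hx y hy hxy
    exact h (Finset.mem_coe.2 (Finset.mem_map.2 ⟨x, hx, rfl⟩)) (Finset.mem_coe.2 (Finset.mem_map.2 ⟨y, hy, rfl⟩))
      fun h1 => hxy (Subtype.ext h1)
  · intro h x hx y hy hxy
    obtain ⟨x, hx', rfl⟩ := Finset.mem_map.1 (Finset.mem_coe.1 hx)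
    obtain ⟨y, hy', rfl⟩ := Finset.mem_map.1 (Finset.mem_coe.1 hy)
    exact h (Finset.mem_coe.2 hx') (Finset.mem_coe.2 hy') fun h1 => hxy (congrArg _ h1)

theorem exists_osph (h : ∀ w ∈ Ω, GoodQ (fun n {V} [Fintype V] (G : SimpleGraph V) => QS.{u} n G) n (res G (dir Ω w)))
    (h1 : (1 : RACG G) ∈ Ω) {r : V → ℕ} (hr : Function.Injective r) : ∃ τ : Finset V, OSph ℤ r Ω n τ := by
  classical
  obtain ⟨τ, hτ⟩ := exists_facet (h 1 h1)
  have hs := hτ (fun v => r v) (hr.comp Subtype.val_injective)
  refine ⟨τ.map (Function.Embedding.subtype _), ?_, (clique_map_res τ).2 hs.clq, ?_, ?_, ?_, ?_⟩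
  · -- the complement of a cell
    intro w hw σ hσ hc hon
    have h2 := h w hw
    cases n with
    | zero =>
      have h3 : IsEmpty {v // v ∈ dir Ω w} := h2
      obtain ⟨x, hx⟩ := hσ
      exact h3.elim ⟨x, (on_iff_dir hw σ).1 hon x hx⟩
    | succ n =>
      rw [goodQ_succ_iff] at h2
      have h3 := (qs_iff.1 h2.1).2
      have hσ' : (σ.subtype (fun v => v ∈ dir Ω w)).map (Function.Embedding.subtype _) = σ := by
        rw [Finset.subtype_map]
        exact Finset.filter_true_of_mem fun x hx => (on_iff_dir hw σ).1 hon x hx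
      have hne : (σ.subtype (fun v => v ∈ dir Ω w)).Nonempty := by
        obtain ⟨x, hx⟩ := hσ
        exact ⟨⟨x, (on_iff_dir hw σ).1 hon x hx⟩, Finset.mem_subtype.2 hx⟩
      have hcl : (res G (dir Ω w)).IsClique (σ.subtype (fun v => v ∈ dir Ω w)) := by
        rw [← clique_map_res, hσ']
        exact hc
      have h4 := h3 _ hne hcl (fun v => r v) (hr.comp Subtype.val_injective)
      refine (acy_pull (r := r) (Function.Embedding.subtype _ : {v // v ∈ dir Ω w} ↪ V) ?_ ?_).1 h4
      · intro S
        change (res G (dir Ω w)).IsClique S ∧ Disjoint S (σ.subtype _) ↔ G.IsClique _ ∧ On Ω (w, _) ∧ Disjoint _ σ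
        rw [clique_map_res, on_iff_dir hw]
        constructor
        · rintro ⟨h5, h6⟩
          refine ⟨h5, ?_, ?_⟩
          · intro t ht
            obtain ⟨t, _, rfl⟩ := Finset.mem_map.1 ht
            exact t.2
          · rw [Finset.disjoint_left] at h6 ⊢
            intro t ht htσ
            obtain ⟨t, ht', rfl⟩ := Finset.mem_map.1 ht
            exact h6 ht' (Finset.mem_subtype.2 htσ)
        · rintro ⟨h5, _, h6⟩
          refine ⟨h5, ?_⟩
          rw [Finset.disjoint_left] at h6 ⊢
          intro t ht htσ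
          exact h6 (Finset.mem_map.2 ⟨t, ht, rfl⟩) (Finset.mem_subtype.1 htσ)
      · rintro S ⟨_, h5, _⟩ x hx
        exact ⟨⟨x, (on_iff_dir hw S).1 h5 x hx⟩, rfl⟩
  · rw [Finset.card_map]
    exact hs.card
  · rw [on_iff_dir h1]
    intro t ht
    obtain ⟨t, _, rfl⟩ := Finset.mem_map.1 ht
    exact t.2
  · -- the complement of the facet
    refine (acy_pull (r := r) (Function.Embedding.subtype _ : {v // v ∈ dir Ω 1} ↪ V) ?_ ?_).1 hs.fac
    · intro S
      constructor
      · rintro ⟨⟨h5, _⟩, h6⟩
        refine ⟨⟨(clique_map_res S).2 h5, (on_iff_dir h1 _).2 ?_⟩, fun h7 => h6 ?_⟩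
        · intro t ht
          obtain ⟨t, _, rfl⟩ := Finset.mem_map.1 ht
          exact t.2
        · exact Finset.map_injective _ h7
      · rintro ⟨⟨h5, _⟩, h6⟩
        refine ⟨⟨(clique_map_res S).1 h5, Finset.disjoint_empty_right _⟩, ?_⟩
        rintro rfl
        exact h6 rfl
    · rintro S ⟨⟨_, h5⟩, _⟩ x hx
      exact ⟨⟨x, (on_iff_dir h1 S).1 h5 x hx⟩, rfl⟩
  · -- the dimension
    intro w S hS hon
    have h2 : (res G (dir Ω w)).IsClique (S.subtype (fun v => v ∈ dir Ω w)) := by
      rw [← clique_map_res, Finset.subtype_map]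
      exact hS.subset (Finset.coe_subset.2 (Finset.filter_subset _ _))
    have h3 := dim_of_goodQ (h w hon.1) h2
    have h4 : (S.subtype (fun v => v ∈ dir Ω w)).card = S.card := by
      rw [← Finset.card_map (Function.Embedding.subtype _), Finset.subtype_map]
      congr 1
      exact Finset.filter_true_of_mem fun x hx => (on_iff_dir hon.1 S).1 hon x hx
    rw [← h4]
    exact h3

end sph

end Om
end Singer
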