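import Pool.Agent.Singer.Cube.OmVan
import Pool.Agent.Singer.Cube.OmPD
import Pool.Agent.Singer.Cube.OmFrame
import Pool.Agent.Singer.Cube.OmSph
import Pool.Agent.Singer.DualAsm
import Pool.Agent.Singer.Links

/-!
# Singer: groups acting on convex subcomplexes of the Davis complex: the conclusion
-/

set_option autoImplicit false
set_option linter.unusedSectionVars false
set_option linter.unusedVariables false

namespace Singer
namespace Om

universe u

open Racg

/-- **Main theorem** (library form) -/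
theorem concl {n : ℕ} {V : Type u} [Fintype V] {G : SimpleGraph V} {Ω : Set (RACG G)} (hΩ : LC Ω)
    (hlk : ∀ w ∈ Ω, ClsE SphQ.{u} n (Singer.res G (dir Ω w))) {H : Subgroup (RACG G)} (hC : Coc Ω H)
    (hinv : NoInv H) :
    IsPD n H ∧ (∃ R : FinRes H, ∃ N, ∀ i, N < i → IsEmpty (R.ι i)) ∧
      ∀ (R : FinRes H) (i : ℕ), 2 * i ≠ n → R.VanE i := by
  classical
  have hr : Function.Injective (rk : V → ℕ) := fun a b hab =>
    (Fintype.equivFin V).injective (Fin.ext hab)
  obtain ⟨F⟩ := exists_oframe hΩ hC hinv.fr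
  obtain ⟨τ, hτ⟩ := exists_osph (fun w hw => (hlk w hw).goodQ_QS) hΩ.one hr
  refine ⟨isPD_of_osph hΩ F hC.act hr hτ, ?_, fun R i hi => ?_⟩
  · obtain ⟨R, hR⟩ := exists_ofinRes hΩ F hC.act hr
    exact ⟨R, _, hR⟩
  · exact ovan hΩ hC (fun w hw => good_bet (good_of_clsE_sph (hlk w hw)) i hi) R

end Om
end Singer
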