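import Pool.Agent.Singer.Cube.OmDefs
import Pool.Agent.Singer.Subgr

/-!
# Singer: convex subcomplexes of the Davis complex: elementary properties

`LC.rd` : the descents of an element of `Ω` lead to elements of `Ω`; `LC.adj` : the directions are constant along the
edges of adjacent colours; `LC.on_mul` : the vertices of a cell; `LC.on_rd`; `LC.translate`.
-/

set_option autoImplicit false
set_option linter.unusedSectionVars false
set_option linter.unusedVariables false

namespace Singer
namespace Om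

universe u

open Racg

section conv
variable {V : Type u} {G : SimpleGraph V} {Ω : Set (RACG G)}

theorem LC.adj (hΩ : LC Ω) {w : RACG G} (hw : w ∈ Ω) {u v : V} (huv : G.Adj u v) (hv : w * gen G v ∈ Ω) :
    w * gen G v * gen G u ∈ Ω ↔ w * gen G u ∈ Ω := by
  constructor
  · intro h
    have h1 : w * gen G v * gen G v ∈ Ω := by rwa [mul_assoc, gen_mul_gen, mul_one]
    have h2 := hΩ.sq _ hv v u huv.symm h1 h
    rwa [mul_assoc w, gen_mul_gen, mul_one] at h2
  · exact fun h => hΩ.sq w hw v u huv.symm hv h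

/-- a path in `Ω` -/
def Path (Ω : Set (RACG G)) (l : List V) : Prop := ∀ m : List V, m <+: l → wd (G := G) m ∈ Ω

lemma Path.end {l : List V} (h : Path Ω l) : wd (G := G) l ∈ Ω := h l (List.prefix_refl l)

lemma Path.init {l : List V} {u : V} (h : Path Ω (l ++ [u])) : Path Ω l := fun m hm =>
  h m (hm.trans (List.prefix_append _ _))

lemma Path.snoc {l : List V} {u : V} (h : Path Ω l) (hu : wd l * gen G u ∈ Ω) : Path Ω (l ++ [u]) := by
  intro m hm
  rcases List.prefix_concat_iff.1 hm with h1 | h1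
  · rw [h1, wd_append, wd_cons, wd_nil, mul_one]
    exact hu
  · exact h m h1

/-- shortening of a path at a descent -/
lemma Path.short (hΩ : LC Ω) : ∀ (N : ℕ) (l : List V), l.length < N → Path Ω l → ∀ v, Rd v (wd (G := G) l) →
    ∃ l', Path Ω l' ∧ wd (G := G) l' = wd l * gen G v ∧ l'.length < l.length := by
  intro N
  induction N with
  | zero => exact fun l hl => absurd hl (Nat.not_lt_zero _)
  | succ N ih =>
    intro l hl hp v hv
    rcases List.eq_nil_or_concat l with rfl | ⟨l0, u, rfl⟩
    · exact absurd hv (by rw [wd_nil]; exact not_rd_one v)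
    · rw [List.concat_eq_append] at hl hp hv ⊢
      rw [List.length_append, List.length_singleton] at hl
      have hw : wd (G := G) (l0 ++ [u]) = wd l0 * gen G u := by rw [wd_append, wd_cons, wd_nil, mul_one]
      rw [hw] at hv ⊢
      have hend : wd l0 * gen G u ∈ Ω := hw ▸ hp.end
      by_cases huv : v = u
      · subst huv
        refine ⟨l0, hp.init, ?_, by simp⟩
        rw [mul_assoc, gen_mul_gen, mul_one]
      · by_cases hadj : G.Adj v u
        · obtain ⟨l1, h1, h2, h3⟩ := ih l0 (by omega) hp.init v ((rd_adj hadj _).1 hv)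
          have h4 : wd l1 * gen G u ∈ Ω := by
            rw [h2]
            exact hΩ.sq _ hp.init.end v u hadj (h2 ▸ h1.end) hend
          refine ⟨l1 ++ [u], h1.snoc h4, ?_, by simpa using h3⟩
          rw [wd_append, wd_cons, wd_nil, mul_one, h2, mul_assoc, mul_assoc, gen_comm hadj]
        · have hu : Rd u (wd (G := G) l0) := by
            by_contra h
            exact hadj (rd_clique huv hv ((rd_self u _).2 h))
          obtain ⟨l1, h1, h2, h3⟩ := ih l0 (by omega) hp.init u hu
          obtain ⟨l2, h4, h5, h6⟩ := ih l1 (by omega) h1 v (by rw [h2]; exact hv)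
          refine ⟨l2, h4, by rw [h5, h2], ?_⟩
          rw [List.length_append, List.length_singleton]
          omega

theorem LC.rd (hΩ : LC Ω) {w : RACG G} (hw : w ∈ Ω) {v : V} (hv : Rd v w) : w * gen G v ∈ Ω := by
  obtain ⟨l, rfl, hl⟩ := hΩ.conn w hw
  obtain ⟨l', h1, h2, -⟩ := Path.short hΩ (l.length + 1) l (Nat.lt_succ_self _) hl v hv
  rw [← h2]
  exact h1.end

lemma LC.on_gen (hΩ : LC Ω) {w : RACG G} {T : Finset V} (hT : G.IsClique T) {s : V} (hs : s ∈ T)
    (h : On Ω (w, T)) : On Ω (w * gen G s, T) := by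
  have hs' : w * gen G s ∈ Ω := h.2 s hs
  refine ⟨hs', fun t ht => ?_⟩
  by_cases hts : t = s
  · subst hts
    show w * gen G t * gen G t ∈ Ω
    rw [mul_assoc, gen_mul_gen, mul_one]
    exact h.1
  · exact (hΩ.adj h.1 (hT (Finset.mem_coe.2 ht) (Finset.mem_coe.2 hs) hts) hs').2 (h.2 t ht)

theorem LC.on_mul (hΩ : LC Ω) {w u : RACG G} {T : Finset V} (hT : G.IsClique T)
    (hu : u ∈ Racg.sub (G := G) (T : Set V)) : On Ω (w * u, T) ↔ On Ω (w, T) := by
  unfold Racg.sub at hu
  induction hu using Subgroup.closure_induction'' generalizing w with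
  | one => rw [mul_one]
  | mem x hx =>
    obtain ⟨s, hs, rfl⟩ := hx
    refine ⟨fun h => ?_, hΩ.on_gen hT (Finset.mem_coe.1 hs)⟩
    have h1 := hΩ.on_gen hT (Finset.mem_coe.1 hs) h
    rwa [mul_assoc, gen_mul_gen, mul_one] at h1
  | inv_mem x hx =>
    obtain ⟨s, hs, rfl⟩ := hx
    rw [gen_inv]
    refine ⟨fun h => ?_, hΩ.on_gen hT (Finset.mem_coe.1 hs)⟩
    have h1 := hΩ.on_gen hT (Finset.mem_coe.1 hs) h
    rwa [mul_assoc, gen_mul_gen, mul_one] at h1
  | mul x y hx hy ihx ihy => rw [← mul_assoc, ihy, ihx]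

theorem LC.on_rd (hΩ : LC Ω) {w : RACG G} (hw : w ∈ Ω) {T : Finset V} (hT : ∀ t ∈ T, Rd t w) : On Ω (w, T) :=
  ⟨hw, fun t ht => hΩ.rd hw (hT t ht)⟩

/-- change of the base point -/
theorem LC.translate (hΩ : LC Ω) {w : RACG G} (hw : w ∈ Ω) : LC {x | w * x ∈ Ω} where
  one := by simpa using hw
  conn x hx := by
    obtain ⟨l1, h1, h2⟩ := hΩ.conn w hw
    obtain ⟨l2, h3, h4⟩ := hΩ.conn (w * x) hx
    refine ⟨l1.reverse ++ l2, ?_, fun m hm => ?_⟩
    · rw [wd_append, wd_reverse, h1, h3, inv_mul_cancel_left]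
    · show w * wd m ∈ Ω
      rcases List.prefix_or_prefix_of_prefix hm (List.prefix_append l1.reverse l2) with h5 | ⟨m', rfl⟩
      · obtain ⟨m', hm'⟩ := h5
        have h6 : l1 = m'.reverse ++ m.reverse := by
          rw [← List.reverse_append, hm', List.reverse_reverse]
        have h7 : w * wd m = wd m'.reverse := by
          rw [← h1, h6, wd_append, wd_reverse m, inv_mul_cancel_right]
        rw [h7]
        exact h2 _ ⟨m.reverse, h6.symm⟩
      · rw [wd_append, wd_reverse, h1, mul_inv_cancel_left]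
        exact h4 _ ((List.prefix_append_right_inj _).1 hm)
  sq x hx u v huv hu hv := by
    have h1 := hΩ.sq (w * x) hx u v huv (by rw [mul_assoc]; exact hu) (by rw [mul_assoc]; exact hv)
    show w * (x * gen G u * gen G v) ∈ Ω
    rwa [← mul_assoc, ← mul_assoc]

end conv

end Om
end Singer
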