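import Pool.Agent.Singer.Cube.ChessStmt
import Pool.Agent.Singer.Bet
import Pool.Agent.Singer.FinBetti

/-!
# The Betti numbers of the Davis complex in elementary terms
-/

set_option autoImplicit false
set_option linter.unusedSectionVars false
set_option linter.unusedVariables false

open scoped ComplexConjugate InnerProductSpace
open Filter Topology

namespace SingerChess

open Singer

variable {V : Type*} [Fintype V] [DecidableEq V] {G : SimpleGraph V} {r : V → ℕ} {i : ℕ}

lemma isCh_iff (f : E (RACG G) (Finset V)) :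
    f ∈ Ch G (Racg.gen G) Finset.univ i ↔ IsCh G i fun T g => f (g, T) := by
  constructor
  · intro h
    exact ⟨fun T g hx => ⟨(h.1 (g, T) hx).2.2, (h.1 (g, T) hx).2.1⟩, fun T g v hv => h.2 g T v hv⟩
  · intro h
    exact ⟨fun x hx => ⟨Finset.subset_univ _, (h.supp x.2 x.1 hx).2, (h.supp x.2 x.1 hx).1⟩,
      fun g T v hv => h.anti T g v hv⟩

lemma D_bdy (f : E (RACG G) (Finset V)) (g : RACG G) (T : Finset V) :
    D r f (g, T) = bdy (G := G) r (fun T g => f (g, T)) T g := by
  rw [D_apply]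
  rfl

lemma mem_Cy_iff (f : E (RACG G) (Finset V)) :
    f ∈ Cy r G (Racg.gen G) Finset.univ i ↔ DCyc r G i fun T g => f (g, T) := by
  constructor
  · rintro ⟨h, h'⟩
    refine ⟨(isCh_iff f).1 h, fun T g => ?_⟩
    have h0 : D r f = 0 := h'
    rw [← D_bdy, h0]
    rfl
  · rintro ⟨h, h'⟩
    refine ⟨(isCh_iff f).2 h, ?_⟩
    show D r f = 0
    ext ⟨g, T⟩
    rw [D_bdy]
    exact h' T g

lemma mem_map_iff (f : E (RACG G) (Finset V)) :
    f ∈ (Ch G (Racg.gen G) Finset.univ (i + 1)).map
      ((D r : E (RACG G) (Finset V) →L[ℂ] E (RACG G) (Finset V)) : E (RACG G) (Finset V) →ₗ[ℂ] E (RACG G) (Finset V)) ↔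
      DBdy r G i fun T g => f (g, T) := by
  constructor
  · rintro ⟨y, hy, rfl⟩
    exact ⟨fun T g => y (g, T), sqS_of y, (isCh_iff y).1 hy, fun T g => D_bdy y g T⟩
  · rintro ⟨y, hy, h1, h2⟩
    refine ⟨rowE y hy, (isCh_iff _).2 h1, ?_⟩
    ext ⟨g, T⟩
    show D r (rowE y hy) (g, T) = f (g, T)
    rw [D_bdy]
    exact (h2 T g).symm

/-- the elementary Betti numbers are the Betti numbers of the library -/
theorem davisBetti_eq (hr : Function.Injective r) (G : SimpleGraph V) (i : ℕ) : davisBetti r G i = bet G i := by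
  rw [bet_eq_bn G hr]
  unfold davisBetti bn Bd
  rw [vdim_closure]
  unfold vdim
  refine Eq.trans (Finset.sum_congr rfl fun T _ => ?_) (Finset.sum_sub_distrib _ _)
  rw [sqDist_eq _ _ mem_map_iff T, sqDist_eq _ _ mem_Cy_iff T]
  exact sub_sub_sub_cancel_left _ _ _

end SingerChess
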