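import Pool.Agent.Singer.Cone

/-!
# Singer, special cube complexes: chains

`K` = the vertices of a compact special cube complex, `σ v` = the involution of `K` given by the edges of colour `v`
(`σ v k = k` if there is no edge of colour `v` at `k`), `dm v` = the set of the vertices with an edge of colour `v`
(`σ v k = k ∈ dm v`: a mirror).  `ChK`: chains, functions on `Γ × (K × Finset V)`.

* `sl k`, `ic k`: slices; `lf T`: the operator `T` on all slices; `mv a π f (g, (k, T)) = f (g a, (π k, T))`;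
* `ChK`, `CyK`, `BdK`, `bk`: chains, cycles, closure of the boundaries, Betti numbers.
-/

set_option autoImplicit false
set_option linter.unusedSectionVars false
set_option linter.unusedVariables false

open scoped ComplexConjugate InnerProductSpace
open Filter Topology

namespace Singer
namespace Cube

/-! ### slices -/

section slices
variable {Γ : Type*} [Group Γ] {K ι κ μ : Type*}

lemma slice_inj (k : K) : Function.Injective fun x : Γ × ι => (x.1, (k, x.2)) := by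
  rintro ⟨a, i⟩ ⟨b, j⟩ h
  simpa using h

/-- slice -/
noncomputable def sl (k : K) : E Γ (K × ι) →L[ℂ] E Γ ι := pull _ (slice_inj k)

/-- inclusion of a slice -/
noncomputable def ic (k : K) : E Γ ι →L[ℂ] E Γ (K × ι) := push _ (slice_inj k)

@[simp] lemma sl_apply (k : K) (f : E Γ (K × ι)) (x : Γ × ι) : sl k f x = f (x.1, (k, x.2)) := rfl

lemma ic_apply_self (k : K) (f : E Γ ι) (g : Γ) (i : ι) : (ic k f : E Γ (K × ι)) (g, (k, i)) = f (g, i) :=
  push_apply _ (slice_inj k) f (g, i)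

lemma ic_apply_ne {k k' : K} (h : k' ≠ k) (f : E Γ ι) (g : Γ) (i : ι) : (ic k f : E Γ (K × ι)) (g, (k', i)) = 0 := by
  apply push_apply_of_notMem
  rintro ⟨x, hx⟩
  exact h (congrArg (fun y : Γ × (K × ι) => y.2.1) hx).symm

lemma sl_ic_self (k : K) (f : E Γ ι) : sl k (ic k f : E Γ (K × ι)) = f := by
  ext x
  exact ic_apply_self k f x.1 x.2

lemma sl_ic_ne {k k' : K} (h : k' ≠ k) (f : E Γ ι) : sl k' (ic k f : E Γ (K × ι)) = 0 := by
  ext x
  exact ic_apply_ne h f x.1 x.2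

lemma sl_ext {f h : E Γ (K × ι)} (H : ∀ k, sl k f = sl k h) : f = h := by
  ext ⟨g, k, i⟩
  exact congrArg (fun u : E Γ ι => u (g, i)) (H k)

lemma equi_sl (k : K) : Equi (sl k : E Γ (K × ι) →L[ℂ] E Γ ι) := fun g f => by ext x; simp

lemma equi_ic (k : K) : Equi (ic k : E Γ ι →L[ℂ] E Γ (K × ι)) := fun g f => by
  apply sl_ext
  intro k'
  by_cases h : k' = k
  · subst h
    rw [sl_ic_self, equi_sl, sl_ic_self]
  · rw [sl_ic_ne h, equi_sl, sl_ic_ne h, map_zero]

lemma sl_cut (k : K) (S : Set Γ) (f : E Γ (K × ι)) : sl k (cut S f) = cut S (sl k f) := by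
  classical
  ext x
  rw [sl_apply, cut_apply, cut_apply]
  rfl

lemma ic_cut (k : K) (S : Set Γ) (f : E Γ ι) : ic k (cut S f) = cut S (ic k f : E Γ (K × ι)) := by
  apply sl_ext
  intro k'
  rw [sl_cut]
  by_cases h : k' = k
  · subst h
    rw [sl_ic_self, sl_ic_self]
  · rw [sl_ic_ne h, sl_ic_ne h, map_zero]

lemma sum_ic_sl [Fintype K] (f : E Γ (K × ι)) : ∑ k, ic k (sl k f) = f := by
  classical
  apply sl_ext
  intro k
  rw [map_sum, Finset.sum_eq_single k]
  · exact sl_ic_self k _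
  · intro k' _ h
    exact sl_ic_ne (Ne.symm h) _
  · intro h
    exact absurd (Finset.mem_univ k) h

variable [Fintype K]

/-- the operator `T` on all slices -/
noncomputable def lf (T : E Γ ι →L[ℂ] E Γ κ) : E Γ (K × ι) →L[ℂ] E Γ (K × κ) := ∑ k, (ic k).comp (T.comp (sl k))

@[simp] lemma sl_lf (T : E Γ ι →L[ℂ] E Γ κ) (k : K) (f : E Γ (K × ι)) : sl k (lf T f) = T (sl k f) := by
  classical
  unfold lf
  rw [sum_apply, map_sum, Finset.sum_eq_single k]
  · exact sl_ic_self k _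
  · intro k' _ h
    exact sl_ic_ne (Ne.symm h) _
  · intro h
    exact absurd (Finset.mem_univ k) h

lemma lf_apply (T : E Γ ι →L[ℂ] E Γ κ) (f : E Γ (K × ι)) (g : Γ) (k : K) (j : κ) :
    lf T f (g, (k, j)) = T (sl k f) (g, j) := by
  rw [← sl_lf]
  rfl

lemma equi_lf {T : E Γ ι →L[ℂ] E Γ κ} (hT : Equi T) : Equi (lf T : E Γ (K × ι) →L[ℂ] E Γ (K × κ)) := by
  intro g f
  apply sl_ext
  intro k
  rw [sl_lf, equi_sl, equi_sl, sl_lf, hT]

lemma lf_cut {T : E Γ ι →L[ℂ] E Γ κ} (hT : Hor T) (S : Set Γ) (f : E Γ (K × ι)) :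
    lf T (cut S f) = cut S (lf T f) := by
  apply sl_ext
  intro k
  rw [sl_lf, sl_cut, sl_cut, sl_lf, hT]

lemma lf_ic {T : E Γ ι →L[ℂ] E Γ κ} (k : K) (f : E Γ ι) : lf T (ic k f : E Γ (K × ι)) = ic k (T f) := by
  classical
  apply sl_ext
  intro k'
  rw [sl_lf]
  by_cases h : k' = k
  · subst h
    rw [sl_ic_self, sl_ic_self]
  · rw [sl_ic_ne h, sl_ic_ne h, map_zero]

end slices

/-! ### the moves -/

section moves
variable {Γ : Type*} [Group Γ] {K ι κ μ : Type*}

lemma mv_inj (a : Γ) (π : Equiv.Perm K) :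
    Function.Injective fun x : Γ × (K × ι) => (x.1 * a, (π x.2.1, x.2.2)) := by
  rintro ⟨g, k, i⟩ ⟨g', k', i'⟩ h
  simpa using h

/-- `mv a π f (g, (k, T)) = f (g a, (π k, T))` -/
noncomputable def mv (a : Γ) (π : Equiv.Perm K) : E Γ (K × ι) →L[ℂ] E Γ (K × ι) := pull _ (mv_inj a π)

@[simp] lemma mv_apply (a : Γ) (π : Equiv.Perm K) (f : E Γ (K × ι)) (x : Γ × (K × ι)) :
    mv a π f x = f (x.1 * a, (π x.2.1, x.2.2)) := rfl

lemma mv_mv (a b : Γ) (π τ : Equiv.Perm K) (f : E Γ (K × ι)) : mv a π (mv b τ f) = mv (a * b) (τ * π) f := by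
  ext x
  simp [mul_assoc]

@[simp] lemma mv_one_one (f : E Γ (K × ι)) : mv 1 1 f = f := by ext x; simp

lemma mv_one (a : Γ) (f : E Γ (K × ι)) : mv a 1 f = rt a f := by ext x; simp

lemma equi_mv (a : Γ) (π : Equiv.Perm K) : Equi (mv a π : E Γ (K × ι) →L[ℂ] E Γ (K × ι)) := fun g f => by
  ext x
  simp [mul_assoc]

lemma mv_cut (a : Γ) (π : Equiv.Perm K) (S : Set Γ) (f : E Γ (K × ι)) :
    mv a π (cut S f) = cut {x | x * a ∈ S} (mv a π f) := by
  classical
  ext x
  rw [mv_apply, cut_apply, cut_apply]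
  rfl

lemma sl_mv (a : Γ) (π : Equiv.Perm K) (k : K) (f : E Γ (K × ι)) : sl k (mv a π f) = rt a (sl (π k) f) := by
  ext x
  simp

lemma inner_mv_left {a : Γ} {π : Equiv.Perm K} (ha : a * a = 1) (hπ : π * π = 1) (f h : E Γ (K × ι)) :
    ⟪mv a π f, h⟫_ℂ = ⟪f, mv a π h⟫_ℂ := by
  have hπ' : ∀ k, π (π k) = k := fun k => by
    have := congrArg (fun τ : Equiv.Perm K => τ k) hπ
    simpa using this
  rw [inner_eq, inner_eq]
  have e : (fun x : Γ × (K × ι) => (x.1 * a, (π x.2.1, x.2.2))) =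
      ((Equiv.mulRight a).prodCongr (π.prodCongr (Equiv.refl ι)) : Γ × (K × ι) ≃ Γ × (K × ι)) := rfl
  rw [← ((Equiv.mulRight a).prodCongr (π.prodCongr (Equiv.refl ι)) : Γ × (K × ι) ≃ Γ × (K × ι)).tsum_eq]
  congr 1
  funext x
  simp [Prod.map, mul_assoc, ha, hπ']

end moves

end Cube
end Singer
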