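import Pool.Agent.Singer.Cube.Basic

/-!
# Singer, special cube complexes: the chain complex
-/

set_option autoImplicit false
set_option linter.unusedSectionVars false
set_option linter.unusedVariables false

open scoped ComplexConjugate InnerProductSpace
open Filter Topology

namespace Singer
namespace Cube

section chains
variable {Γ : Type*} [Group Γ] {K : Type*} [Fintype K] {V : Type*} [Fintype V] [DecidableEq V]

/-- the domains are invariant under the moves of the adjacent colours -/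
structure IsDm (G : SimpleGraph V) (σ : V → Equiv.Perm K) (dm : V → Set K) : Prop where
  self : ∀ v, ∀ k ∈ dm v, σ v k ∈ dm v
  adj : ∀ u v, G.Adj u v → ∀ k ∈ dm v, σ u k ∈ dm v

/-- the boundary operator -/
noncomputable def DK (r : V → ℕ) : E Γ (K × Finset V) →L[ℂ] E Γ (K × Finset V) := lf (D r)

/-- chains with directions in `A`, on vertices in `L` -/
def ChK (G : SimpleGraph V) (s : V → Γ) (σ : V → Equiv.Perm K) (dm : V → Set K) (A : Finset V) (L : Set K) (i : ℕ) :
    Submodule ℂ (E Γ (K × Finset V)) where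
  carrier := {f | (∀ g k T, f (g, (k, T)) ≠ 0 → (T ⊆ A ∧ T.card = i ∧ G.IsClique T) ∧ (∀ t ∈ T, k ∈ dm t) ∧ k ∈ L) ∧
    ∀ g k T, ∀ v ∈ T, f (g * s v, (σ v k, T)) = -f (g, (k, T))}
  zero_mem' := by simp
  add_mem' := by
    rintro f h ⟨hf1, hf2⟩ ⟨hh1, hh2⟩
    refine ⟨fun g k T hx => ?_, fun g k T v hv => ?_⟩
    · rw [lp.coeFn_add, Pi.add_apply] at hx
      by_cases h1 : f (g, (k, T)) = 0
      · rw [h1, zero_add] at hx
        exact hh1 g k T hx
      · exact hf1 g k T h1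
    · rw [lp.coeFn_add, Pi.add_apply, Pi.add_apply, hf2 g k T v hv, hh2 g k T v hv]
      ring
  smul_mem' := by
    rintro c f ⟨hf1, hf2⟩
    refine ⟨fun g k T hx => hf1 g k T fun h0 => hx ?_, fun g k T v hv => ?_⟩
    · rw [lp.coeFn_smul, Pi.smul_apply, h0, smul_zero]
    · rw [lp.coeFn_smul, Pi.smul_apply, Pi.smul_apply, hf2 g k T v hv, smul_neg]

variable (r : V → ℕ) (G : SimpleGraph V) (s : V → Γ) (σ : V → Equiv.Perm K) (dm : V → Set K)

/-- cycles -/
noncomputable def CyK (A : Finset V) (L : Set K) (i : ℕ) : Submodule ℂ (E Γ (K × Finset V)) :=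
  ChK G s σ dm A L i ⊓
    LinearMap.ker ((DK r : E Γ (K × Finset V) →L[ℂ] E Γ (K × Finset V)) : E Γ (K × Finset V) →ₗ[ℂ] E Γ (K × Finset V))

/-- closure of the boundaries -/
noncomputable def BdK (A : Finset V) (L : Set K) (i : ℕ) : Submodule ℂ (E Γ (K × Finset V)) :=
  ((ChK G s σ dm A L (i + 1)).map
    ((DK r : E Γ (K × Finset V) →L[ℂ] E Γ (K × Finset V)) : E Γ (K × Finset V) →ₗ[ℂ] E Γ (K × Finset V))).topologicalClosure

/-- Betti numbers -/
noncomputable def bk (A : Finset V) (L : Set K) (i : ℕ) : ℝ :=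
  vdim (CyK r G s σ dm A L i) - vdim (BdK r G s σ dm A L i)

variable {r G s σ dm}

lemma DK_apply (f : E Γ (K × Finset V)) (g : Γ) (k : K) (T : Finset V) :
    DK r f (g, (k, T)) = ∑ v ∈ Tᶜ, sg r v T * f (g, (k, insert v T)) := by
  unfold DK
  rw [lf_apply, D_apply]
  rfl

lemma DK_DK (hr : Function.Injective r) (f : E Γ (K × Finset V)) : DK r (DK r f) = 0 := by
  apply sl_ext
  intro k
  unfold DK
  rw [sl_lf, sl_lf, D_D r hr, map_zero]

lemma equi_DK (r : V → ℕ) : Equi (DK r : E Γ (K × Finset V) →L[ℂ] E Γ (K × Finset V)) := equi_lf (equi_D r)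

lemma DK_cut (S : Set Γ) (f : E Γ (K × Finset V)) : DK r (cut S f) = cut S (DK r f) := lf_cut (hor_D r) S f

lemma mv_DK (a : Γ) (π : Equiv.Perm K) (f : E Γ (K × Finset V)) : mv a π (DK r f) = DK r (mv a π f) := by
  apply sl_ext
  intro k
  unfold DK
  rw [sl_mv, sl_lf, sl_lf, sl_mv, rt_D]

variable (G s σ dm)

theorem mdl_ChK (A : Finset V) (L : Set K) (i : ℕ) : Mdl (ChK G s σ dm A L i) := by
  constructor
  · rintro h f ⟨h1, h2⟩
    constructor
    · intro g k S hx
      exact h1 (h⁻¹ * g) k S hx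
    · intro g k S v hv
      simp only [lam_apply]
      rw [← mul_assoc, h2 _ k S v hv]
  · have h : (ChK G s σ dm A L i : Set (E Γ (K × Finset V))) =
        (⋂ x : Γ × (K × Finset V), ⋂ (_ : ¬ ((x.2.2 ⊆ A ∧ x.2.2.card = i ∧ G.IsClique x.2.2) ∧
          (∀ t ∈ x.2.2, x.2.1 ∈ dm t) ∧ x.2.1 ∈ L)), {f | f x = 0}) ∩
        ⋂ g, ⋂ k, ⋂ S, ⋂ v ∈ S, {f | f (g * s v, (σ v k, S)) = - f (g, (k, S))} := by
      ext f
      simp only [Set.mem_inter_iff, Set.mem_iInter, Set.mem_ofPred_eq]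
      constructor
      · rintro ⟨h1, h2⟩
        exact ⟨fun x hx => by_contra fun h => hx (h1 x.1 x.2.1 x.2.2 h), h2⟩
      · rintro ⟨h1, h2⟩
        exact ⟨fun g k T hx => by_contra fun h => hx (h1 (g, (k, T)) h), h2⟩
    rw [h]
    refine IsClosed.inter ?_ ?_
    · exact isClosed_iInter fun x => isClosed_iInter fun _ =>
        isClosed_eq (continuous_eval' _) continuous_const
    · exact isClosed_iInter fun g => isClosed_iInter fun k => isClosed_iInter fun S => isClosed_iInter fun v =>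
        isClosed_iInter fun _ => isClosed_eq (continuous_eval' _) (continuous_eval' _).neg

variable (r)

theorem mdl_CyK (A : Finset V) (L : Set K) (i : ℕ) : Mdl (CyK r G s σ dm A L i) :=
  (mdl_ChK G s σ dm A L i).inf (mdl_ker (equi_DK r))

theorem mdl_BdK (A : Finset V) (L : Set K) (i : ℕ) : Mdl (BdK r G s σ dm A L i) :=
  Mdl.closure ((mdl_ChK G s σ dm A L (i + 1)).inv.map (equi_DK r))

theorem DK_mem_ChK {A : Finset V} {L : Set K} {i : ℕ} {f : E Γ (K × Finset V)} (hf : f ∈ ChK G s σ dm A L (i + 1)) :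
    DK r f ∈ ChK G s σ dm A L i := by
  obtain ⟨h1, h2⟩ := hf
  constructor
  · intro g k T hx
    rw [DK_apply] at hx
    obtain ⟨v, hv, hne⟩ := Finset.exists_ne_zero_of_sum_ne_zero hx
    have hv' : v ∉ T := by simpa using hv
    obtain ⟨⟨c1, c2, c3⟩, c4, c5⟩ := h1 g k (insert v T) (right_ne_zero_of_mul hne)
    rw [Finset.card_insert_of_notMem hv'] at c2
    refine ⟨⟨(Finset.subset_insert v T).trans c1, by simpa using c2, c3.subset ?_⟩,
      fun t ht => c4 t (Finset.mem_insert_of_mem ht), c5⟩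
    simp
  · intro g k T w hw
    rw [DK_apply, DK_apply, ← Finset.sum_neg_distrib]
    refine Finset.sum_congr rfl fun v _ => ?_
    rw [h2 g k _ w (Finset.mem_insert_of_mem hw)]
    ring

lemma DK_mem_BdK {A : Finset V} {L : Set K} {i : ℕ} {f : E Γ (K × Finset V)} (hf : f ∈ ChK G s σ dm A L (i + 1)) :
    DK r f ∈ BdK r G s σ dm A L i := Submodule.le_topologicalClosure _ ⟨f, hf, rfl⟩

theorem BdK_le_CyK (hr : Function.Injective r) (A : Finset V) (L : Set K) (i : ℕ) :
    BdK r G s σ dm A L i ≤ CyK r G s σ dm A L i := by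
  refine Submodule.topologicalClosure_minimal _ ?_ (mdl_CyK r G s σ dm A L i).cl
  rintro _ ⟨f, hf, rfl⟩
  exact ⟨DK_mem_ChK r G s σ dm hf, DK_DK hr f⟩

theorem ChK_mono {A B : Finset V} {L M : Set K} (h : A ⊆ B) (hL : L ⊆ M) (i : ℕ) :
    ChK G s σ dm A L i ≤ ChK G s σ dm B M i := by
  rintro f ⟨h1, h2⟩
  exact ⟨fun g k T hx => ⟨⟨(h1 g k T hx).1.1.trans h, (h1 g k T hx).1.2⟩, (h1 g k T hx).2.1, hL (h1 g k T hx).2.2⟩, h2⟩

theorem CyK_mono {A B : Finset V} {L M : Set K} (h : A ⊆ B) (hL : L ⊆ M) (i : ℕ) :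
    CyK r G s σ dm A L i ≤ CyK r G s σ dm B M i := inf_le_inf_right _ (ChK_mono G s σ dm h hL i)

theorem BdK_mono {A B : Finset V} {L M : Set K} (h : A ⊆ B) (hL : L ⊆ M) (i : ℕ) :
    BdK r G s σ dm A L i ≤ BdK r G s σ dm B M i :=
  Submodule.topologicalClosure_mono (Submodule.map_mono (ChK_mono G s σ dm h hL _))

theorem loc_ChK (A : Finset V) (L : Set K) (i : ℕ) : Loc (sub s A) (ChK G s σ dm A L i) := by
  rintro f ⟨h1, h2⟩
  constructor
  · intro g k T hx
    apply h1
    intro h0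
    apply hx
    rw [cut_apply, h0]
    simp
  · intro g k S v hv
    by_cases h0 : f (g, (k, S)) = 0
    · have h0' : f (g * s v, (σ v k, S)) = 0 := by rw [h2 g k S v hv, h0, neg_zero]
      rw [cut_apply, cut_apply, h0, h0']
      simp
    · have hc := (h1 g k S h0).1.1
      have hv' : s v ∈ sub s A := Subgroup.subset_closure ⟨v, hc hv, rfl⟩
      by_cases hg : g ∈ sub s A
      · rw [cut_apply_mem (x := (g, (k, S))) (S := (sub s A : Set Γ)) hg,
          cut_apply_mem (x := (g * s v, (σ v k, S))) (S := (sub s A : Set Γ)) ((sub s A).mul_mem hg hv'), h2 g k S v hv]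
      · rw [cut_apply_notMem (x := (g, (k, S))) (S := (sub s A : Set Γ)) hg,
          cut_apply_notMem (x := (g * s v, (σ v k, S))) (S := (sub s A : Set Γ))
            (fun h => hg (((sub s A).mul_mem_cancel_right hv').1 h)), neg_zero]

theorem loc_CyK (A : Finset V) (L : Set K) (i : ℕ) : Loc (sub s A) (CyK r G s σ dm A L i) := by
  rintro f ⟨h1, h2⟩
  refine ⟨loc_ChK G s σ dm A L i f h1, ?_⟩
  show DK r _ = 0
  rw [DK_cut, show DK r f = 0 from h2, map_zero]

theorem loc_BdK (A : Finset V) (L : Set K) (i : ℕ) : Loc (sub s A) (BdK r G s σ dm A L i) :=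
  ((loc_ChK G s σ dm A L (i + 1)).map fun f => DK_cut _ f).closure

/-- rank-nullity for the boundary operator -/
theorem vdim_BdK (A : Finset V) (L : Set K) (i : ℕ) :
    vdim (BdK r G s σ dm A L i) = vdim (ChK G s σ dm A L (i + 1)) - vdim (CyK r G s σ dm A L (i + 1)) := by
  have := vdim_map_add (equi_DK r) (mdl_ChK G s σ dm A L (i + 1)).inv (mdl_ChK G s σ dm A L (i + 1)).cl
  unfold BdK CyK
  rw [vdim_closure]
  linarith

/-- a closed submodule of the closure of the boundaries is the closure of its boundaries -/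
theorem closure_inf_map_DK {W : Submodule ℂ (E Γ (K × Finset V))} (hW : Mdl W) (A : Finset V) (L : Set K) (i : ℕ) :
    (W ⊓ (ChK G s σ dm A L (i + 1)).map
      ((DK r : E Γ (K × Finset V) →L[ℂ] E Γ (K × Finset V)) :
        E Γ (K × Finset V) →ₗ[ℂ] E Γ (K × Finset V))).topologicalClosure = W ⊓ BdK r G s σ dm A L i := by
  have h := dense_image (equi_DK r) (mdl_ChK G s σ dm A L (i + 1)).inv (mdl_ChK G s σ dm A L (i + 1)).cl
    (hW.inv.inf (mdl_BdK r G s σ dm A L i).inv) (hW.cl.inter (mdl_BdK r G s σ dm A L i).cl) inf_le_right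
  rw [← h]
  congr 1
  ext y
  constructor
  · rintro ⟨h1, x, hx, rfl⟩
    exact ⟨x, ⟨hx, h1, DK_mem_BdK r G s σ dm hx⟩, rfl⟩
  · rintro ⟨x, ⟨hx, h1, _⟩, rfl⟩
    exact ⟨h1, x, hx, rfl⟩

theorem bk_nonneg (hr : Function.Injective r) (A : Finset V) (L : Set K) (i : ℕ) : 0 ≤ bk r G s σ dm A L i :=
  sub_nonneg.2 (vdim_mono (BdK_le_CyK r G s σ dm hr A L i))

theorem CyK_le_BdK (hr : Function.Injective r) {A : Finset V} {L : Set K} {i : ℕ} (h : bk r G s σ dm A L i = 0) :
    CyK r G s σ dm A L i ≤ BdK r G s σ dm A L i :=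
  (eq_of_vdim_le (mdl_BdK r G s σ dm A L i).inv (mdl_CyK r G s σ dm A L i).inv (mdl_BdK r G s σ dm A L i).cl
    (BdK_le_CyK r G s σ dm hr A L i) (by unfold bk at h; linarith)).ge

theorem bk_eq_zero (hr : Function.Injective r) {A : Finset V} {L : Set K} {i : ℕ}
    (h : CyK r G s σ dm A L i ≤ BdK r G s σ dm A L i) : bk r G s σ dm A L i = 0 := by
  refine le_antisymm ?_ (bk_nonneg r G s σ dm hr A L i)
  exact sub_nonpos.2 (vdim_mono h)

/-- `Z = B ⊕ (Z ∩ B^⊥)` -/
theorem CyK_eq_sup (hr : Function.Injective r) (A : Finset V) (L : Set K) (i : ℕ) :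
    CyK r G s σ dm A L i = BdK r G s σ dm A L i ⊔ (CyK r G s σ dm A L i ⊓ (BdK r G s σ dm A L i)ᗮ) := by
  refine le_antisymm (fun w hw => ?_) (sup_le (BdK_le_CyK r G s σ dm hr A L i) inf_le_left)
  have h3 : prj (BdK r G s σ dm A L i) w ∈ BdK r G s σ dm A L i := by
    have := prj_mem (BdK r G s σ dm A L i) w
    rwa [IsClosed.submodule_topologicalClosure_eq (mdl_BdK r G s σ dm A L i).cl] at this
  have h4 : w = prj (BdK r G s σ dm A L i) w + (w - prj (BdK r G s σ dm A L i) w) := by abel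
  rw [h4]
  exact Submodule.add_mem_sup h3 ⟨Submodule.sub_mem _ hw (BdK_le_CyK r G s σ dm hr A L i h3), sub_prj_mem _ w⟩

theorem CyK_zero (A : Finset V) (L : Set K) : CyK r G s σ dm A L 0 = ChK G s σ dm A L 0 := by
  refine le_antisymm inf_le_left fun f hf => ⟨hf, ?_⟩
  show DK r f = 0
  ext ⟨g, k, T⟩
  rw [DK_apply]
  refine Finset.sum_eq_zero fun v _ => ?_
  by_contra hne
  have h := (hf.1 g k (insert v T) (right_ne_zero_of_mul hne)).1.2.1
  exact absurd (Finset.card_eq_zero.1 h) (Finset.insert_ne_empty _ _)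

theorem ChK_zero (A A' : Finset V) (L : Set K) : ChK G s σ dm A L 0 = ChK G s σ dm A' L 0 := by
  have key : ∀ {B B' : Finset V}, ChK G s σ dm B L 0 ≤ ChK G s σ dm B' L 0 := by
    rintro B B' f ⟨h1, h2⟩
    refine ⟨fun g k T hx => ?_, h2⟩
    obtain ⟨⟨c1, c2, c3⟩, c4⟩ := h1 g k T hx
    refine ⟨⟨?_, c2, c3⟩, c4⟩
    rw [Finset.card_eq_zero.1 c2]
    exact Finset.empty_subset _
  exact le_antisymm key key

end chains

end Cube
end Singer
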