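import Pool.Agent.Singer.Cube.ChessMain

/-!
# MP_984acc_gt: the chessboard inequality for the `ℓ²`-Betti numbers of special cube complexes

`RACG G` is the right-angled Coxeter group of a finite graph `G`, `Ω` the set of vertices of a convex subcomplex of its
Davis complex, and `H` a subgroup which preserves `Ω` and acts on `Ω` with finitely many orbits, represented by elements
of the finite set `F`.  (The quotients of such convex subcomplexes by subgroups without torsion are compact special cube
complexes.)  Then the `ℓ²`-Betti numbers of `H` are bounded by the sum, over the vertices of the quotient, of the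
`ℓ²`-Betti numbers of the right-angled Coxeter groups of the links.
-/

set_option autoImplicit false

namespace SingerChess.Hand

open SingerChess Singer

/-- the chessboard inequality; `R` is an arbitrary resolution of `ℤ` by finitely generated free `ℤ[H]`-modules, and if `H`
has no elements of order two then there is such a resolution, of finite length -/
theorem result {V : Type} [Fintype V] [DecidableEq V] {G : SimpleGraph V} {Ω : Set (RACG G)} (hΩ : Conv Ω)
    {H : Subgroup (RACG G)} (hH : ∀ h ∈ H, ∀ w ∈ Ω, h * w ∈ Ω) (F : Finset (RACG G))
    (hF : ∀ w ∈ Ω, ∃ h ∈ H, ∃ f ∈ F, w = h * f) {r : V → ℕ} (hr : Function.Injective r) :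
    (NoInv H → ∃ R : FinRes H, ∃ N, ∀ i, N < i → IsEmpty (R.ι i)) ∧
    ∀ (R : FinRes H) (i : ℕ), R.betti i ≤ ∑ w ∈ F, davisBetti (fun v : {v // v ∈ dirs Ω w} => r v)
      (G.comap (Subtype.val : {v // v ∈ dirs Ω w} → V)) i :=
  ⟨hΩ.exists_finRes hH F hF, fun R i => chess hΩ hH F hF hr R i⟩

end SingerChess.Hand
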