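import Pool.Agent.Singer.Cube.OmUnf
import Pool.Agent.Singer.Cube.OmPD
import Pool.Agent.Singer.Cube.OmFrame
import Pool.Agent.Singer.Cube.Chess

/-!
# The chessboard inequality
-/

set_option autoImplicit false
set_option linter.unusedSectionVars false
set_option linter.unusedVariables false

open scoped ComplexConjugate InnerProductSpace
open Filter Topology

namespace SingerChess

open Singer Singer.Om

section
variable {V : Type} [Fintype V] [DecidableEq V] {G : SimpleGraph V} {Ω : Set (RACG G)} {H : Subgroup (RACG G)}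

theorem betti_le_sum (hΩ : LC Ω) (hC : Coc Ω H) (R : FinRes H) (i : ℕ) [Fintype (K Ω H)] :
    R.betti i ≤ ∑ k : K Ω H, bet (res G (dir Ω (rep k))) i := by
  rw [FinRes.betti_eq, Res.h_eq _ (oRes hΩ hC (rk_inj (V := V)))]
  unfold HC.h
  rw [PreRes.toHC_Z, PreRes.toHC_B]
  exact ob_le_sum hΩ hC rk_inj i

lemma Conv.lc (h : Conv Ω) : LC Ω where
  one := h.one
  conn := h.conn
  sq := h.sq

lemma dirs_eq (w : RACG G) : dirs Ω w = dir Ω w := by
  ext v
  rw [mem_dir]
  unfold dirs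
  simp

lemma bet_nonneg' {W : Type} [Fintype W] [DecidableEq W] (G : SimpleGraph W) (i : ℕ) : 0 ≤ bet G i :=
  bn_nonneg _ _ _ rk_inj _ _

/-- **the chessboard inequality** -/
theorem chess (hΩ : Conv Ω) (hH : ∀ h ∈ H, ∀ w ∈ Ω, h * w ∈ Ω) (F : Finset (RACG G))
    (hF : ∀ w ∈ Ω, ∃ h ∈ H, ∃ f ∈ F, w = h * f) {r : V → ℕ} (hr : Function.Injective r) (R : FinRes H) (i : ℕ) :
    R.betti i ≤ ∑ w ∈ F, davisBetti (fun v : {v // v ∈ dirs Ω w} => r v)
      (G.comap (Subtype.val : {v // v ∈ dirs Ω w} → V)) i := by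
  classical
  have hC : Coc Ω H := ⟨hH, (F : Set (RACG G)), F.finite_toSet, fun w hw => by
    obtain ⟨h, hh, f, hf, e⟩ := hF w hw
    exact ⟨h, hh, f, hf, e⟩⟩
  have hfin := finite_K hC
  have : Fintype (K Ω H) := Fintype.ofFinite _
  refine (betti_le_sum hΩ.lc hC R i).trans ?_
  have h1 : ∀ k : K Ω H, ∃ f ∈ F, ∃ h ∈ H, rep k = h * f := fun k => by
    obtain ⟨h, hh, f, hf, e⟩ := hF _ (rep_mem k)
    exact ⟨f, hf, h, hh, e⟩
  choose f hf h hh e using h1
  have hinj : Function.Injective f := by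
    intro k k' hk
    have hm : rep k' = (h k' * (h k)⁻¹) * rep k := by
      rw [e k, e k', hk]
      group
    have h2 : (orbS Ω H).r k.out k'.out := ⟨h k' * (h k)⁻¹, H.mul_mem (hh k') (H.inv_mem (hh k)), hm⟩
    rw [← Quotient.out_eq k, ← Quotient.out_eq k']
    exact Quotient.sound h2
  have h2 : ∀ k : K Ω H, bet (res G (dir Ω (rep k))) i =
      davisBetti (fun v : {v // v ∈ dirs Ω (f k)} => r v)
        (G.comap (Subtype.val : {v // v ∈ dirs Ω (f k)} → V)) i := by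
    intro k
    have hd : dirs Ω (f k) = dir Ω (rep k) := by
      ext v
      rw [dirs_eq, mem_dir, mem_dir, e k, mul_assoc]
      refine ⟨fun hv => hH _ (hh k) _ hv, fun hv => ?_⟩
      have := hH _ (H.inv_mem (hh k)) _ hv
      rwa [inv_mul_cancel_left] at this
    rw [hd, davisBetti_eq (fun u v huv => Subtype.ext (hr huv))]
  rw [Finset.sum_congr rfl fun k _ => h2 k]
  rw [← Finset.sum_image (f := fun w => davisBetti (fun v : {v // v ∈ dirs Ω w} => r v)
      (G.comap (Subtype.val : {v // v ∈ dirs Ω w} → V)) i) (g := f) (fun k _ k' _ hk => hinj hk)]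
  refine Finset.sum_le_sum_of_subset_of_nonneg ?_ fun w _ _ => ?_
  · intro w hw
    obtain ⟨k, -, rfl⟩ := Finset.mem_image.1 hw
    exact hf k
  · rw [davisBetti_eq (fun u v huv => Subtype.ext (hr huv))]
    exact bet_nonneg' _ i

theorem Conv.exists_finRes (hΩ : Conv Ω) (hH : ∀ h ∈ H, ∀ w ∈ Ω, h * w ∈ Ω) (F : Finset (RACG G))
    (hF : ∀ w ∈ Ω, ∃ h ∈ H, ∃ f ∈ F, w = h * f) (hn : NoInv H) :
    ∃ R : FinRes H, ∃ N, ∀ i, N < i → IsEmpty (R.ι i) := by
  have hC : Coc Ω H := ⟨hH, (F : Set (RACG G)), F.finite_toSet, fun w hw => by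
    obtain ⟨h, hh, f, hf, e⟩ := hF w hw
    exact ⟨h, hh, f, hf, e⟩⟩
  obtain ⟨Fr⟩ := exists_oframe hΩ.lc hC hn.fr
  obtain ⟨R, hR⟩ := exists_ofinRes hΩ.lc Fr hH (rk_inj (V := V))
  exact ⟨R, _, hR⟩

end

end SingerChess
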