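import Pool.Agent.Singer.BettiStmt
import Pool.Agent.Singer.Racg

/-!
# The chessboard inequality: definitions

* `IsCh`, `bdy`, `DCyc`, `DBdy` : the `ℓ²`-chain complex of its Davis complex;
* `davisBetti r G i` : the `ℓ²`-Betti number in degree `i` of the Davis complex;
* `Conv Ω` : the set `Ω` of vertices of the Davis complex is the set of vertices of a convex subcomplex;
* `dirs Ω w` : the directions of the edges of this subcomplex at the vertex `w`.
-/

set_option autoImplicit false

namespace SingerChess

open Singer

section davis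
variable {V : Type*} [Fintype V] [DecidableEq V]

/-- cellular chains of degree `i` of the Davis complex of `RACG G`: `x T g` is the value at the cube `g W_T`, `T` a clique
with `i` elements; the sign says that the reflection `Racg.gen G v`, `v ∈ T`, changes the orientation of this cube -/
structure IsCh (G : SimpleGraph V) (i : ℕ) (x : Finset V → RACG G → ℂ) : Prop where
  supp : ∀ T g, x T g ≠ 0 → G.IsClique (T : Set V) ∧ T.card = i
  anti : ∀ T g, ∀ v ∈ T, x T (g * Racg.gen G v) = -x T g

/-- the cellular boundary; `r` is an enumeration of the vertices, it only fixes the signs -/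
noncomputable def bdy {G : SimpleGraph V} (r : V → ℕ) (x : Finset V → RACG G → ℂ) (T : Finset V) (g : RACG G) : ℂ :=
  ∑ v ∈ Tᶜ, (-1) ^ (T.filter fun t => r t < r v).card * x (insert v T) g

/-- cycles of degree `i` -/
def DCyc (r : V → ℕ) (G : SimpleGraph V) (i : ℕ) (x : Finset V → RACG G → ℂ) : Prop :=
  IsCh G i x ∧ ∀ T g, bdy r x T g = 0

/-- boundaries of square-summable chains of degree `i + 1` -/
def DBdy (r : V → ℕ) (G : SimpleGraph V) (i : ℕ) (x : Finset V → RACG G → ℂ) : Prop :=
  ∃ y : Finset V → RACG G → ℂ, SqS y ∧ IsCh G (i + 1) y ∧ ∀ T g, x T g = bdy r y T g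

/-- the `ℓ²`-Betti number in degree `i` of the Davis complex of `RACG G`, that is of the group `RACG G` (`r` an enumeration
of the vertices) -/
noncomputable def davisBetti (r : V → ℕ) (G : SimpleGraph V) (i : ℕ) : ℝ :=
  ∑ T : Finset V, (sqDist (DBdy r G i) T - sqDist (DCyc r G i) T)

open Classical in
/-- the directions of the edges at `w` of the full subcomplex on `Ω` -/
noncomputable def dirs {G : SimpleGraph V} (Ω : Set (RACG G)) (w : RACG G) : Finset V :=
  Finset.univ.filter fun v => w * Racg.gen G v ∈ Ω

end davis

/-- the set `Ω` of vertices of the Davis complex contains `1`, every element of `Ω` is the end of a path in `Ω` which starts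
at `1`, and the fourth vertex of a square is in `Ω` if the three others are: `Ω` is the set of vertices of a convex
subcomplex -/
structure Conv {V : Type*} {G : SimpleGraph V} (Ω : Set (RACG G)) : Prop where
  one : (1 : RACG G) ∈ Ω
  conn : ∀ w ∈ Ω, ∃ l : List V, (l.map (Racg.gen G)).prod = w ∧
    ∀ m : List V, m <+: l → (m.map (Racg.gen G)).prod ∈ Ω
  sq : ∀ w ∈ Ω, ∀ u v, G.Adj u v → w * Racg.gen G u ∈ Ω → w * Racg.gen G v ∈ Ω → w * Racg.gen G u * Racg.gen G v ∈ Ω

end SingerChess
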