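import Pool.Agent.Singer.Cube.Chains

/-!
# Singer, special cube complexes: the cone formula
-/

set_option autoImplicit false
set_option linter.unusedSectionVars false
set_option linter.unusedVariables false

open scoped ComplexConjugate InnerProductSpace
open Filter Topology

namespace Singer
namespace Cube

/-! ### the eigenspaces of an involutive move -/

section asy
variable {Γ : Type*} [Group Γ] {K ι : Type*}

/-- `{f | mv a π f = -f}` -/
noncomputable def asy (a : Γ) (π : Equiv.Perm K) : Submodule ℂ (E Γ (K × ι)) :=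
  LinearMap.ker ((1 + mv a π : E Γ (K × ι) →L[ℂ] E Γ (K × ι)) : E Γ (K × ι) →ₗ[ℂ] E Γ (K × ι))

lemma mem_asy {a : Γ} {π : Equiv.Perm K} {f : E Γ (K × ι)} :
    f ∈ (asy a π : Submodule ℂ (E Γ (K × ι))) ↔ mv a π f = -f := by
  show f + mv a π f = 0 ↔ _
  rw [add_comm, add_eq_zero_iff_eq_neg]

lemma mdl_asy (a : Γ) (π : Equiv.Perm K) : Mdl (asy a π : Submodule ℂ (E Γ (K × ι))) :=
  mdl_ker (equi_one.add (equi_mv a π))

lemma mv_invol {a : Γ} {π : Equiv.Perm K} (ha : a * a = 1) (hπ : π * π = 1) (f : E Γ (K × ι)) :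
    mv a π (mv a π f) = f := by
  rw [mv_mv, ha, hπ, mv_one_one]

variable [Fintype K] [Fintype ι] {H : Subgroup Γ} {X : Submodule ℂ (E Γ (K × ι))}

lemma tr_mv_prj (hX : Loc H X) {a : Γ} (ha : a ∉ H) (π : Equiv.Perm K) : tr ((mv a π).comp (prj X)) = 0 := by
  unfold tr
  refine Finset.sum_eq_zero fun j _ => ?_
  rw [ContinuousLinearMap.comp_apply, mv_apply]
  simp only [one_mul]
  exact prj_del_apply hX j _ ha

lemma prj_asy (hc : IsClosed (X : Set (E Γ (K × ι)))) {a : Γ} {π : Equiv.Perm K} (ha : a * a = 1) (hπ : π * π = 1)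
    (hr : ∀ f ∈ X, mv a π f ∈ X) : prj (X ⊓ asy a π) = (1 / 2 : ℂ) • (prj X - (mv a π).comp (prj X)) := by
  have hmem : ∀ f, prj X f ∈ X := fun f => by
    have := prj_mem X f
    rwa [IsClosed.submodule_topologicalClosure_eq hc] at this
  ext1 f
  refine prj_unique (Submodule.le_topologicalClosure _ ⟨?_, ?_⟩) ?_
  · exact X.smul_mem _ (X.sub_mem (hmem f) (hr _ (hmem f)))
  · show _ ∈ asy a π
    rw [mem_asy]
    simp only [smul_apply, sub_apply, ContinuousLinearMap.comp_apply, map_smul, map_sub, mv_invol ha hπ]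
    rw [← smul_neg, neg_sub]
  · rw [Submodule.mem_orthogonal]
    rintro w ⟨hw1, hw2⟩
    have hw3 : mv a π w = -w := mem_asy.1 hw2
    have h1 : ⟪w, f - prj X f⟫_ℂ = 0 := (Submodule.mem_orthogonal _ _).1 (sub_prj_mem X f) w hw1
    rw [inner_sub_right, sub_eq_zero] at h1
    have h2 : ⟪w, mv a π (prj X f)⟫_ℂ = -⟪w, prj X f⟫_ℂ := by
      rw [← inner_mv_left ha hπ, hw3, inner_neg_left]
    simp only [smul_apply, sub_apply, ContinuousLinearMap.comp_apply, inner_sub_right,
      inner_smul_right, h2, h1]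
    ring

/-- the antisymmetric part of a local module has half the dimension -/
theorem vdim_asy (hX : Mdl X) (hl : Loc H X) {a : Γ} {π : Equiv.Perm K} (ha : a * a = 1) (hπ : π * π = 1)
    (hr : ∀ f ∈ X, mv a π f ∈ X) (haH : a ∉ H) : 2 * vdim (X ⊓ asy a π) = vdim X := by
  have h1 := vdim_eq_tr (X ⊓ asy a π)
  rw [prj_asy hX.cl ha hπ hr, tr_smul, tr_sub, tr_mv_prj hl haH, ← vdim_eq_tr] at h1
  have h2 : ((2 * vdim (X ⊓ asy a π) : ℝ) : ℂ) = (vdim X : ℂ) := by
    push_cast
    rw [h1]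
    ring
  exact_mod_cast h2

end asy

/-! ### link and cone operators -/

section dnup
variable {Γ : Type*} [Group Γ] {K : Type*} [Fintype K] {V : Type*} [Fintype V] [DecidableEq V]

/-- the link operator -/
noncomputable def dnK (r : V → ℕ) (a : V) : E Γ (K × Finset V) →L[ℂ] E Γ (K × Finset V) := lf (dn r a)

/-- the cone operator -/
noncomputable def upK (r : V → ℕ) (a : V) : E Γ (K × Finset V) →L[ℂ] E Γ (K × Finset V) := lf (up r a)

variable {r : V → ℕ} {a : V}

lemma dnK_apply_mem {T : Finset V} (h : a ∈ T) (f : E Γ (K × Finset V)) (g : Γ) (k : K) :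
    dnK r a f (g, (k, T)) = 0 := by
  unfold dnK
  rw [lf_apply, dn_apply_mem h]

lemma dnK_apply {T : Finset V} (h : a ∉ T) (f : E Γ (K × Finset V)) (g : Γ) (k : K) :
    dnK r a f (g, (k, T)) = sg r a T * f (g, (k, insert a T)) := by
  unfold dnK
  rw [lf_apply, dn_apply h]
  rfl

lemma upK_apply_notMem {T : Finset V} (h : a ∉ T) (f : E Γ (K × Finset V)) (g : Γ) (k : K) :
    upK r a f (g, (k, T)) = 0 := by
  unfold upK
  rw [lf_apply, up_apply_notMem h]

lemma upK_apply {T : Finset V} (h : a ∉ T) (f : E Γ (K × Finset V)) (g : Γ) (k : K) :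
    upK r a f (g, (k, insert a T)) = sg r a T * f (g, (k, T)) := by
  unfold upK
  rw [lf_apply, up_apply h]
  rfl

lemma equi_dnK (r : V → ℕ) (a : V) : Equi (dnK r a : E Γ (K × Finset V) →L[ℂ] E Γ (K × Finset V)) :=
  equi_lf (equi_dn r a)

lemma dnK_DK (hr : Function.Injective r) (f : E Γ (K × Finset V)) : dnK r a (DK r f) = - DK r (dnK r a f) := by
  apply sl_ext
  intro k
  unfold dnK DK
  rw [map_neg, sl_lf, sl_lf, sl_lf, sl_lf, dn_D hr]

/-- functions living on sets not containing `a` -/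
def OffK (a : V) (f : E Γ (K × Finset V)) : Prop := ∀ k, Off a (sl k f)

lemma OffK.apply {f : E Γ (K × Finset V)} (h : OffK a f) {T : Finset V} (hT : a ∈ T) (g : Γ) (k : K) :
    f (g, (k, T)) = 0 := h k g T hT

lemma offK_dnK (f : E Γ (K × Finset V)) : OffK a (dnK r a f) := fun k => by
  unfold dnK
  rw [sl_lf]
  exact off_dn _

lemma dnK_eq_zero {f : E Γ (K × Finset V)} (h : OffK a f) : dnK r a f = 0 := by
  apply sl_ext
  intro k
  unfold dnK
  rw [sl_lf, dn_eq_zero (h k), map_zero]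

lemma dnK_upK {y : E Γ (K × Finset V)} (h : OffK a y) : dnK r a (upK r a y) = y := by
  apply sl_ext
  intro k
  unfold dnK upK
  rw [sl_lf, sl_lf, dn_up (h k)]

lemma offK_sub_upK_dnK (f : E Γ (K × Finset V)) : OffK a (f - upK r a (dnK r a f)) := fun k => by
  unfold dnK upK
  rw [map_sub, sl_lf, sl_lf]
  exact off_sub_up_dn _

lemma DK_upK (hr : Function.Injective r) {y : E Γ (K × Finset V)} (h : OffK a y) :
    DK r (upK r a y) = y - upK r a (DK r y) := by
  apply sl_ext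
  intro k
  unfold DK upK
  rw [map_sub, sl_lf, sl_lf, sl_lf, sl_lf, D_up hr (h k)]

end dnup

section cone
variable {Γ : Type*} [Group Γ] {K : Type*} [Fintype K] {V : Type*} [Fintype V] [DecidableEq V]
variable {r : V → ℕ} {G : SimpleGraph V} {s : V → Γ} {σ : V → Equiv.Perm K} {dm : V → Set K}
  {a : V} {A U : Finset V} {i : ℕ}

lemma offK_ChK {L : Set K} (ha : a ∉ A) {f : E Γ (K × Finset V)} (hf : f ∈ ChK G s σ dm A L i) : OffK a f := by
  intro k g T hT
  by_contra hne
  exact ha ((hf.1 g k T hne).1.1 hT)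

lemma dnK_mem_ChK (h : Nbr G a A U) {f : E Γ (K × Finset V)} (hf : f ∈ ChK G s σ dm (insert a A) Set.univ (i + 1)) :
    dnK r a f ∈ ChK G s σ dm U (dm a) i := by
  obtain ⟨h1, h2⟩ := hf
  constructor
  · intro g k T hx
    by_cases haT : a ∈ T
    · exact absurd (dnK_apply_mem haT f g k) hx
    · rw [dnK_apply haT] at hx
      obtain ⟨⟨c1, c2, c3⟩, c4, -⟩ := h1 g k (insert a T) (right_ne_zero_of_mul hx)
      rw [Finset.card_insert_of_notMem haT] at c2
      refine ⟨⟨fun x hx' => ?_, by simpa using c2, c3.subset (by simp)⟩,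
        fun t ht => c4 t (Finset.mem_insert_of_mem ht), c4 a (Finset.mem_insert_self _ _)⟩
      have hxa : x ≠ a := fun e => haT (e ▸ hx')
      rw [h.mem]
      refine ⟨(Finset.mem_insert.1 (c1 (Finset.mem_insert_of_mem hx'))).resolve_left hxa, ?_⟩
      exact c3 (by simp) (by simp [hx']) (Ne.symm hxa)
  · intro g k T v hv
    by_cases haT : a ∈ T
    · rw [dnK_apply_mem haT, dnK_apply_mem haT, neg_zero]
    · rw [dnK_apply haT, dnK_apply haT, h2 g k _ v (Finset.mem_insert_of_mem hv)]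
      ring

lemma dnK_mem_asy {B : Finset V} {L : Set K} {f : E Γ (K × Finset V)} (hf : f ∈ ChK G s σ dm B L i) :
    dnK r a f ∈ (asy (s a) (σ a) : Submodule ℂ (E Γ (K × Finset V))) := by
  rw [mem_asy]
  ext ⟨g, k, T⟩
  rw [mv_apply, lp.coeFn_neg, Pi.neg_apply]
  show (dnK r a f) (g * s a, (σ a k, T)) = _
  by_cases haT : a ∈ T
  · rw [dnK_apply_mem haT, dnK_apply_mem haT, neg_zero]
  · rw [dnK_apply haT, dnK_apply haT, hf.2 g k _ a (Finset.mem_insert_self _ _)]
    ring

lemma upK_mem_ChK (h : Nbr G a A U) {y : E Γ (K × Finset V)} (hy : y ∈ ChK G s σ dm U (dm a) i)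
    (hn : y ∈ (asy (s a) (σ a) : Submodule ℂ (E Γ (K × Finset V)))) :
    upK r a y ∈ ChK G s σ dm (insert a A) Set.univ (i + 1) := by
  obtain ⟨h1, h2⟩ := hy
  rw [mem_asy] at hn
  constructor
  · intro g k S hx
    by_cases haS : a ∈ S
    · have e := upK_apply (r := r) (Finset.notMem_erase a S) y g k
      rw [Finset.insert_erase haS] at e
      rw [e] at hx
      obtain ⟨⟨c1, c2, c3⟩, c4, c5⟩ := h1 g k (S.erase a) (right_ne_zero_of_mul hx)
      refine ⟨⟨?_, ?_, ?_⟩, ?_, Set.mem_univ _⟩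
      · intro x hx'
        by_cases hxa : x = a
        · rw [hxa]; exact Finset.mem_insert_self _ _
        · exact Finset.mem_insert_of_mem (h.subset (c1 (Finset.mem_erase.2 ⟨hxa, hx'⟩)))
      · rw [Finset.card_erase_of_mem haS] at c2
        have : 0 < S.card := Finset.card_pos.2 ⟨a, haS⟩
        omega
      · intro x hx' z hz hxz
        have hx'' : x ∈ S := hx'
        have hz' : z ∈ S := hz
        by_cases hxa : x = a
        · subst hxa
          exact ((h.mem z).1 (c1 (Finset.mem_erase.2 ⟨Ne.symm hxz, hz'⟩))).2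
        · by_cases hza : z = a
          · subst hza
            exact ((h.mem x).1 (c1 (Finset.mem_erase.2 ⟨hxz, hx''⟩))).2.symm
          · exact c3 (by simp [hxa, hx'']) (by simp [hza, hz']) hxz
      · intro t ht
        by_cases hta : t = a
        · rw [hta]; exact c5
        · exact c4 t (Finset.mem_erase.2 ⟨hta, ht⟩)
    · exact absurd (upK_apply_notMem haS y g k) hx
  · intro g k S v hv
    by_cases haS : a ∈ S
    · have e := upK_apply (r := r) (Finset.notMem_erase a S) y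
      rw [Finset.insert_erase haS] at e
      rw [e, e]
      by_cases hva : v = a
      · subst hva
        have := congrArg (fun f : E Γ (K × Finset V) => f (g, (k, S.erase v))) hn
        simp only [mv_apply, lp.coeFn_neg, Pi.neg_apply] at this
        rw [this]
        ring
      · rw [h2 g k _ v (by simp [hva, hv])]
        ring
    · rw [upK_apply_notMem haS, upK_apply_notMem haS, neg_zero]

lemma sub_mem_ChK {L : Set K} (ha : a ∉ A) {f : E Γ (K × Finset V)} (hf : f ∈ ChK G s σ dm (insert a A) L i) :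
    f - upK r a (dnK r a f) ∈ ChK G s σ dm A L i := by
  obtain ⟨h1, h2⟩ := hf
  have hoff := offK_sub_upK_dnK (r := r) (a := a) f
  have e : ∀ g k T, a ∉ T → (f - upK r a (dnK r a f) : E Γ (K × Finset V)) (g, (k, T)) = f (g, (k, T)) := by
    intro g k T hT
    rw [lp.coeFn_sub, Pi.sub_apply, upK_apply_notMem hT, sub_zero]
  constructor
  · intro g k S hx
    by_cases haS : a ∈ S
    · exact absurd (hoff.apply haS g k) hx
    · rw [e g k S haS] at hx
      obtain ⟨⟨c1, c2, c3⟩, c4⟩ := h1 g k S hx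
      refine ⟨⟨fun x hx' => (Finset.mem_insert.1 (c1 hx')).resolve_left ?_, c2, c3⟩, c4⟩
      rintro rfl
      exact haS hx'
  · intro g k S v hv
    by_cases haS : a ∈ S
    · rw [hoff.apply haS, hoff.apply haS, neg_zero]
    · rw [e _ _ S haS, e _ _ S haS, h2 g k S v hv]

lemma ChK_inf_ker {L : Set K} (ha : a ∉ A) :
    ChK G s σ dm (insert a A) L i ⊓
      LinearMap.ker ((dnK r a : E Γ (K × Finset V) →L[ℂ] E Γ (K × Finset V)) :
        E Γ (K × Finset V) →ₗ[ℂ] E Γ (K × Finset V)) = ChK G s σ dm A L i := by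
  ext f
  constructor
  · rintro ⟨h1, h2⟩
    have h3 := sub_mem_ChK (r := r) ha h1
    rwa [show dnK r a f = 0 from h2, map_zero, sub_zero] at h3
  · intro h
    exact ⟨ChK_mono G s σ dm (Finset.subset_insert _ _) le_rfl i h, dnK_eq_zero (offK_ChK ha h)⟩

lemma map_dnK_ChK (h : Nbr G a A U) :
    (ChK G s σ dm (insert a A) Set.univ (i + 1)).map
      ((dnK r a : E Γ (K × Finset V) →L[ℂ] E Γ (K × Finset V)) : E Γ (K × Finset V) →ₗ[ℂ] E Γ (K × Finset V)) =
      ChK G s σ dm U (dm a) i ⊓ asy (s a) (σ a) := by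
  ext y
  constructor
  · rintro ⟨f, hf, rfl⟩
    exact ⟨dnK_mem_ChK h hf, dnK_mem_asy hf⟩
  · rintro ⟨h1, h2⟩
    exact ⟨upK r a y, upK_mem_ChK h h1 h2, dnK_upK (offK_ChK h.notMem' h1)⟩

/-! ### invariance under the move of the colour `a` -/

lemma mv_mem_ChK (hs : IsSys G s) (hσ : IsSys G σ) (hdm : IsDm G σ dm) (h : Nbr G a A U) {f : E Γ (K × Finset V)}
    (hf : f ∈ ChK G s σ dm U (dm a) i) : mv (s a) (σ a) f ∈ ChK G s σ dm U (dm a) i := by
  obtain ⟨h1, h2⟩ := hf
  have hinv : ∀ v k, σ v (σ v k) = k := fun v k => by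
    have := congrArg (fun τ : Equiv.Perm K => τ k) (hσ.sq v)
    simpa using this
  constructor
  · intro g k T hx
    rw [mv_apply] at hx
    obtain ⟨c1, c4, c5⟩ := h1 _ _ _ hx
    refine ⟨c1, fun t ht => ?_, ?_⟩
    · have := hdm.adj a t ((h.mem t).1 (c1.1 ht)).2 _ (c4 t ht)
      rwa [hinv] at this
    · have := hdm.self a _ c5
      rwa [hinv] at this
  · intro g k T v hv
    rw [mv_apply, mv_apply]
    show f (g * s v * s a, (σ a (σ v k), T)) = - f (g * s a, (σ a k, T))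
    by_cases h0 : f (g * s a, (σ a k, T)) = 0
    · rw [h0, neg_zero]
      by_contra hne
      have hva := ((h.mem v).1 ((h1 _ _ _ hne).1.1 hv)).2
      have e1 : g * s v * s a = g * s a * s v := by rw [mul_assoc, hs.comm v a hva.symm, ← mul_assoc]
      have e2 : σ a (σ v k) = σ v (σ a k) := by
        have := congrArg (fun τ : Equiv.Perm K => τ k) (hσ.comm a v hva)
        simpa using this
      rw [e1, e2, h2 _ _ _ v hv, h0, neg_zero] at hne
      exact hne rfl
    · have hva := ((h.mem v).1 ((h1 _ _ _ h0).1.1 hv)).2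
      have e1 : g * s v * s a = g * s a * s v := by rw [mul_assoc, hs.comm v a hva.symm, ← mul_assoc]
      have e2 : σ a (σ v k) = σ v (σ a k) := by
        have := congrArg (fun τ : Equiv.Perm K => τ k) (hσ.comm a v hva)
        simpa using this
      rw [e1, e2, h2 _ _ _ v hv]

lemma mv_mem_CyK (hs : IsSys G s) (hσ : IsSys G σ) (hdm : IsDm G σ dm) (h : Nbr G a A U) {f : E Γ (K × Finset V)}
    (hf : f ∈ CyK r G s σ dm U (dm a) i) : mv (s a) (σ a) f ∈ CyK r G s σ dm U (dm a) i := by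
  refine ⟨mv_mem_ChK hs hσ hdm h hf.1, ?_⟩
  show DK r _ = 0
  rw [← mv_DK, show DK r f = 0 from hf.2, map_zero]

lemma mv_mem_BdK (hs : IsSys G s) (hσ : IsSys G σ) (hdm : IsDm G σ dm) (h : Nbr G a A U) {f : E Γ (K × Finset V)}
    (hf : f ∈ BdK r G s σ dm U (dm a) i) : mv (s a) (σ a) f ∈ BdK r G s σ dm U (dm a) i := by
  have h1 : mv (s a) (σ a) f ∈ _root_.closure ((mv (s a) (σ a) : E Γ (K × Finset V) →L[ℂ] E Γ (K × Finset V)) ''
      ((ChK G s σ dm U (dm a) (i + 1)).map
    ((DK r : E Γ (K × Finset V) →L[ℂ] E Γ (K × Finset V)) : E Γ (K × Finset V) →ₗ[ℂ] E Γ (K × Finset V)) :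
      Set (E Γ (K × Finset V)))) :=
    image_closure_subset_closure_image (mv (s a) (σ a)).continuous ⟨f, hf, rfl⟩
  refine closure_mono ?_ h1
  rintro _ ⟨_, ⟨x, hx, rfl⟩, rfl⟩
  refine ⟨mv (s a) (σ a) x, mv_mem_ChK hs hσ hdm h hx, ?_⟩
  show DK r (mv (s a) (σ a) x) = mv (s a) (σ a) (DK r x)
  rw [mv_DK]

/-! ### the cone formula -/

/-- the dimension of the kernel of the map from the link complex -/
noncomputable def kapK (r : V → ℕ) (G : SimpleGraph V) (s : V → Γ) (σ : V → Equiv.Perm K) (dm : V → Set K) (a : V)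
    (U A : Finset V) (i : ℕ) : ℝ :=
  vdim (CyK r G s σ dm U (dm a) i ⊓ asy (s a) (σ a) ⊓ BdK r G s σ dm A Set.univ i) -
    vdim (BdK r G s σ dm U (dm a) i ⊓ asy (s a) (σ a))

lemma vdim_ChK_cone (h : Nbr G a A U) : vdim (ChK G s σ dm (insert a A) Set.univ (i + 1)) =
    vdim (ChK G s σ dm A Set.univ (i + 1)) + vdim (ChK G s σ dm U (dm a) i ⊓ asy (s a) (σ a)) := by
  have := vdim_map_add (equi_dnK (fun _ => 0) a) (mdl_ChK G s σ dm (insert a A) Set.univ (i + 1)).inv
    (mdl_ChK G s σ dm (insert a A) Set.univ (i + 1)).cl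
  rw [map_dnK_ChK h, ChK_inf_ker h.notMem] at this
  linarith

lemma CyK_inf_ker {L : Set K} (ha : a ∉ A) : CyK r G s σ dm (insert a A) L i ⊓
      LinearMap.ker ((dnK r a : E Γ (K × Finset V) →L[ℂ] E Γ (K × Finset V)) :
        E Γ (K × Finset V) →ₗ[ℂ] E Γ (K × Finset V)) =
    CyK r G s σ dm A L i := by
  unfold CyK
  rw [inf_right_comm, ChK_inf_ker ha]

lemma map_dnK_CyK (hr : Function.Injective r) (h : Nbr G a A U) :
    (CyK r G s σ dm (insert a A) Set.univ (i + 1)).map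
      ((dnK r a : E Γ (K × Finset V) →L[ℂ] E Γ (K × Finset V)) : E Γ (K × Finset V) →ₗ[ℂ] E Γ (K × Finset V)) =
    CyK r G s σ dm U (dm a) i ⊓ asy (s a) (σ a) ⊓ (ChK G s σ dm A Set.univ (i + 1)).map
      ((DK r : E Γ (K × Finset V) →L[ℂ] E Γ (K × Finset V)) : E Γ (K × Finset V) →ₗ[ℂ] E Γ (K × Finset V)) := by
  ext y
  constructor
  · rintro ⟨f, ⟨hf, hb⟩, rfl⟩
    have hb' : DK r f = 0 := hb
    have h1 : DK r (dnK r a f) = 0 := by
      have := dnK_DK (a := a) hr f
      rw [hb', map_zero] at this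
      exact neg_eq_zero.1 this.symm
    have h3 : DK r (f - upK r a (dnK r a f)) = - dnK r a f := by
      rw [map_sub, hb', DK_upK hr (offK_dnK f), h1, map_zero, sub_zero, zero_sub]
    refine ⟨⟨⟨dnK_mem_ChK h hf, h1⟩, dnK_mem_asy hf⟩, - (f - upK r a (dnK r a f)),
      Submodule.neg_mem _ (sub_mem_ChK h.notMem hf), ?_⟩
    show DK r (-(f - upK r a (dnK r a f))) = dnK r a f
    rw [map_neg, h3, neg_neg]
  · rintro ⟨⟨⟨h1, h2⟩, h3⟩, x, hx, hxy⟩
    have h2' : DK r y = 0 := h2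
    have hxy' : DK r x = y := hxy
    have hoff : OffK a y := offK_ChK h.notMem' h1
    refine ⟨- x + upK r a y, ⟨Submodule.add_mem _
      (Submodule.neg_mem _ (ChK_mono G s σ dm (Finset.subset_insert _ _) le_rfl _ hx))
      (upK_mem_ChK h h1 h3), ?_⟩, ?_⟩
    · show DK r (- x + upK r a y) = 0
      rw [map_add, map_neg, hxy', DK_upK hr hoff, h2', map_zero, sub_zero, neg_add_cancel]
    · show dnK r a (- x + upK r a y) = y
      rw [map_add, map_neg, dnK_eq_zero (offK_ChK h.notMem hx), dnK_upK hoff, neg_zero, zero_add]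

lemma vdim_CyK_cone (hr : Function.Injective r) (h : Nbr G a A U) :
    vdim (CyK r G s σ dm (insert a A) Set.univ (i + 1)) = vdim (CyK r G s σ dm A Set.univ (i + 1)) +
      vdim (CyK r G s σ dm U (dm a) i ⊓ asy (s a) (σ a) ⊓ BdK r G s σ dm A Set.univ i) := by
  have := vdim_map_add (equi_dnK r a) (mdl_CyK r G s σ dm (insert a A) Set.univ (i + 1)).inv
    (mdl_CyK r G s σ dm (insert a A) Set.univ (i + 1)).cl
  rw [map_dnK_CyK hr h, CyK_inf_ker h.notMem, ← vdim_closure,
    closure_inf_map_DK r G s σ dm ((mdl_CyK r G s σ dm U (dm a) i).inf (mdl_asy _ _)) A Set.univ i] at this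
  linarith

/-- the cone formula -/
theorem coneK_succ (hr : Function.Injective r) (hs : IsSys G s) (hσ : IsSys G σ) (hdm : IsDm G σ dm)
    (h : Nbr G a A U) (hf : s a ∉ sub s U) (i : ℕ) :
    bk r G s σ dm (insert a A) Set.univ (i + 1) =
      kapK r G s σ dm a U A i + bk r G s σ dm A Set.univ (i + 1) - bk r G s σ dm U (dm a) (i + 1) / 2 +
        kapK r G s σ dm a U A (i + 1) := by
  have e1 := vdim_CyK_cone (s := s) (σ := σ) (dm := dm) (i := i) hr h
  have e2 := vdim_CyK_cone (s := s) (σ := σ) (dm := dm) (i := i + 1) hr h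
  have e3 := vdim_ChK_cone (s := s) (σ := σ) (dm := dm) (i := i + 1) h
  have e4 := vdim_BdK r G s σ dm (insert a A) Set.univ (i + 1)
  have e5 := vdim_BdK r G s σ dm A Set.univ (i + 1)
  have e6 := vdim_BdK r G s σ dm U (dm a) i
  have e7 := vdim_asy (mdl_ChK G s σ dm U (dm a) (i + 1)) (loc_ChK G s σ dm U (dm a) (i + 1)) (hs.sq a) (hσ.sq a)
    (fun f hf => mv_mem_ChK hs hσ hdm h hf) hf
  have e8 := vdim_asy (mdl_BdK r G s σ dm U (dm a) i) (loc_BdK r G s σ dm U (dm a) i) (hs.sq a) (hσ.sq a)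
    (fun f hf => mv_mem_BdK hs hσ hdm h hf) hf
  have e9 := vdim_asy (mdl_BdK r G s σ dm U (dm a) (i + 1)) (loc_BdK r G s σ dm U (dm a) (i + 1)) (hs.sq a) (hσ.sq a)
    (fun f hf => mv_mem_BdK hs hσ hdm h hf) hf
  unfold bk kapK
  linarith

theorem coneK_zero (hr : Function.Injective r) (hs : IsSys G s) (hσ : IsSys G σ) (hdm : IsDm G σ dm)
    (h : Nbr G a A U) (hf : s a ∉ sub s U) :
    bk r G s σ dm (insert a A) Set.univ 0 =
      bk r G s σ dm A Set.univ 0 - bk r G s σ dm U (dm a) 0 / 2 + kapK r G s σ dm a U A 0 := by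
  have e1 := vdim_CyK_cone (s := s) (σ := σ) (dm := dm) (i := 0) hr h
  have e3 := vdim_ChK_cone (s := s) (σ := σ) (dm := dm) (i := 0) h
  have e4 := vdim_BdK r G s σ dm (insert a A) Set.univ 0
  have e5 := vdim_BdK r G s σ dm A Set.univ 0
  have e7 := vdim_asy (mdl_ChK G s σ dm U (dm a) 0) (loc_ChK G s σ dm U (dm a) 0) (hs.sq a) (hσ.sq a)
    (fun f hf => mv_mem_ChK hs hσ hdm h hf) hf
  have e8 := vdim_asy (mdl_BdK r G s σ dm U (dm a) 0) (loc_BdK r G s σ dm U (dm a) 0) (hs.sq a) (hσ.sq a)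
    (fun f hf => mv_mem_BdK hs hσ hdm h hf) hf
  have c1 : vdim (CyK r G s σ dm (insert a A) Set.univ 0) = vdim (ChK G s σ dm A Set.univ 0) := by
    rw [CyK_zero, ChK_zero G s σ dm (insert a A) A]
  have c2 : vdim (CyK r G s σ dm U (dm a) 0) = vdim (ChK G s σ dm U (dm a) 0) := by rw [CyK_zero]
  have c3 : vdim (CyK r G s σ dm A Set.univ 0) = vdim (ChK G s σ dm A Set.univ 0) := by rw [CyK_zero]
  unfold bk kapK
  linarith

end cone

end Cube
end Singer
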