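import Pool.Agent.Singer.Racg

/-!
# Square-summable chains on cube complexes spanned by subsets of a right-angled Coxeter group

`Ω ⊆ RACG G` spans the cube complex with the vertices `w ∈ Ω` and the cubes `w W_T ⊆ Ω`, `T` a clique of `G`
(`Full Ω`: if three corners of a square are in `Ω`, so is the fourth; for such `Ω` the cube `w W_T` is contained in `Ω`
if and only if `w ∈ Ω` and `w * gen v ∈ Ω` for all `v ∈ T`).
-/

set_option autoImplicit false

namespace Singer

variable {V : Type*} [Fintype V] [DecidableEq V]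

/-- three corners of a square are in `Ω` only if the fourth is -/
def Full {G : SimpleGraph V} (Ω : Set (RACG G)) : Prop :=
  ∀ w ∈ Ω, ∀ u v, G.Adj u v → w * Racg.gen G u ∈ Ω → w * Racg.gen G v ∈ Ω → w * Racg.gen G u * Racg.gen G v ∈ Ω

/-- square-summable chains of degree `i` -/
structure ChainOn (G : SimpleGraph V) (Ω : Set (RACG G)) (i : ℕ) (f : RACG G → Finset V → ℂ) : Prop where
  supp : ∀ w T, f w T ≠ 0 → (G.IsClique T ∧ T.card = i) ∧ w ∈ Ω ∧ ∀ v ∈ T, w * Racg.gen G v ∈ Ω
  anti : ∀ w T, ∀ v ∈ T, f (w * Racg.gen G v) T = -f w T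
  sq : ∀ T, Summable fun w => ‖f w T‖ ^ 2

end Singer
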