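import Pool.Agent.Singer.Cube.Main
import Pool.Agent.Singer.Cube.Stmt
import Pool.Agent.Singer.Elem

/-!
# Singer, special cube complexes: the elementary statement
-/

set_option autoImplicit false
set_option linter.unusedSectionVars false
set_option linter.unusedVariables false

namespace Singer
namespace Cube

variable {V : Type*} [Fintype V] [DecidableEq V] {G : SimpleGraph V}

/-! ### the quotient of `Ω` -/

section quot
variable (Ω : Set (RACG G)) (Δ : Subgroup (RACG G))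

/-- the orbits of `Δ` on `Ω` -/
def KQ : Type _ := {q : Quotient (QuotientGroup.rightRel Δ) // ∃ w ∈ Ω, Quotient.mk'' w = q}

variable {Ω Δ}

/-- the orbit of `w` -/
def qmk {w : RACG G} (h : w ∈ Ω) : KQ Ω Δ := ⟨Quotient.mk'' w, w, h, rfl⟩

lemma KQ.exists_rep (k : KQ Ω Δ) : ∃ w, ∃ h : w ∈ Ω, qmk h = k := by
  obtain ⟨w, h, e⟩ := k.2
  exact ⟨w, h, Subtype.ext e⟩

lemma qmk_eq {w w' : RACG G} {h : w ∈ Ω} {h' : w' ∈ Ω} : (qmk h : KQ Ω Δ) = qmk h' ↔ w' * w⁻¹ ∈ Δ := by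
  have e : (qmk h : KQ Ω Δ) = qmk h' ↔
      (Quotient.mk'' w : Quotient (QuotientGroup.rightRel Δ)) = Quotient.mk'' w' := Subtype.ext_iff
  rw [e, Quotient.eq'', QuotientGroup.rightRel_apply]

lemma finite_KQ (hF : ∃ F : Finset (RACG G), ∀ w ∈ Ω, ∃ γ ∈ Δ, ∃ f ∈ F, w = γ * f) : Finite (KQ Ω Δ) := by
  classical
  obtain ⟨F, hF⟩ := hF
  have : Function.Surjective (fun f : {f // f ∈ F ∧ ∃ w ∈ Ω, ∃ γ ∈ Δ, w = γ * f} =>
      (⟨Quotient.mk'' f.1, by
        obtain ⟨w, hw, γ, hγ, e⟩ := f.2.2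
        refine ⟨w, hw, ?_⟩
        rw [Quotient.eq'', QuotientGroup.rightRel_apply, e, mul_inv_rev, mul_inv_cancel_left]
        exact Δ.inv_mem hγ⟩ : KQ Ω Δ)) := by
    intro k
    obtain ⟨w, h, rfl⟩ := KQ.exists_rep k
    obtain ⟨γ, hγ, f, hf, e⟩ := hF w h
    refine ⟨⟨f, hf, w, h, γ, hγ, e⟩, Subtype.ext ?_⟩
    show Quotient.mk'' f = Quotient.mk'' w
    rw [Quotient.eq'', QuotientGroup.rightRel_apply, e, mul_inv_cancel_right]
    exact hγ
  have hfin : Finite {f // f ∈ F ∧ ∃ w ∈ Ω, ∃ γ ∈ Δ, w = γ * f} :=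
    Set.Finite.subset F.finite_toSet fun f hf => hf.1
  exact Finite.of_surjective _ this

/-- the vertices with an edge of colour `v` -/
def dmQ (v : V) : Set (KQ Ω Δ) := {k | ∃ w, ∃ h : w ∈ Ω, qmk h = k ∧ w * Racg.gen G v ∈ Ω}

variable (hΔ : ∀ γ ∈ Δ, ∀ w ∈ Ω, γ * w ∈ Ω)

include hΔ in
lemma qmk_mem_dmQ {w : RACG G} (h : w ∈ Ω) (v : V) : (qmk h : KQ Ω Δ) ∈ dmQ (Ω := Ω) (Δ := Δ) v ↔
    w * Racg.gen G v ∈ Ω := by
  constructor
  · rintro ⟨w', h', e, h2⟩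
    rw [qmk_eq] at e
    have := hΔ _ e _ h2
    rwa [← mul_assoc, inv_mul_cancel_right] at this
  · intro h2
    exact ⟨w, h, rfl, h2⟩

open Classical in
/-- the end point of the edge of colour `v` -/
noncomputable def eQ (v : V) (k : KQ Ω Δ) : KQ Ω Δ :=
  if h : k ∈ dmQ (Ω := Ω) (Δ := Δ) v then qmk h.choose_spec.choose_spec.2 else k

include hΔ in
lemma eQ_qmk {w : RACG G} (h : w ∈ Ω) {v : V} (h2 : w * Racg.gen G v ∈ Ω) : eQ v (qmk h : KQ Ω Δ) = qmk h2 := by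
  have h3 := (qmk_mem_dmQ hΔ h v).2 h2
  unfold eQ
  rw [dif_pos h3, qmk_eq]
  have h4 := h3.choose_spec.choose_spec.1
  rw [qmk_eq] at h4
  rw [mul_inv_rev, ← mul_assoc, mul_inv_cancel_right]
  exact h4

lemma eQ_of_notMem {v : V} {k : KQ Ω Δ} (h : k ∉ dmQ (Ω := Ω) (Δ := Δ) v) : eQ v k = k := by
  unfold eQ
  rw [dif_neg h]

lemma gen_gen (w : RACG G) (v : V) : w * Racg.gen G v * Racg.gen G v = w := by
  rw [mul_assoc, Racg.gen_mul_gen, mul_one]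

include hΔ in
lemma eQ_eQ (v : V) (k : KQ Ω Δ) : eQ v (eQ v k) = k := by
  by_cases h : k ∈ dmQ (Ω := Ω) (Δ := Δ) v
  · obtain ⟨w, hw, rfl, h2⟩ := h
    have h3 : w * Racg.gen G v * Racg.gen G v ∈ Ω := by rwa [gen_gen]
    rw [eQ_qmk hΔ hw h2, eQ_qmk hΔ h2 h3, qmk_eq, gen_gen, mul_inv_cancel]
    exact Δ.one_mem
  · rw [eQ_of_notMem h, eQ_of_notMem h]

/-- the involution of colour `v` -/
noncomputable def sQ (v : V) : Equiv.Perm (KQ Ω Δ) :=
  ⟨eQ v, eQ v, fun k => eQ_eQ hΔ v k, fun k => eQ_eQ hΔ v k⟩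

lemma sQ_apply (v : V) (k : KQ Ω Δ) : sQ hΔ v k = eQ v k := rfl

lemma _root_.Singer.Full.third {Ω : Set (RACG G)} (hΩ : Full Ω) {w : RACG G} {u v : V} (huv : G.Adj u v) (hw : w ∈ Ω)
    (hu : w * Racg.gen G u ∈ Ω) (h : w * Racg.gen G u * Racg.gen G v ∈ Ω) : w * Racg.gen G v ∈ Ω := by
  have h1 : w * Racg.gen G u * Racg.gen G u ∈ Ω := by rwa [gen_gen]
  have h2 := hΩ _ hu v u huv.symm h h1
  have e : w * Racg.gen G u * Racg.gen G v * Racg.gen G u = w * Racg.gen G v := by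
    rw [mul_assoc w, Racg.gen_comm huv, ← mul_assoc, gen_gen]
  rwa [e] at h2

theorem isSys_sQ (hΩ : Full Ω) : IsSys G (sQ hΔ : V → Equiv.Perm (KQ Ω Δ)) where
  sq v := by
    ext1 k
    exact eQ_eQ hΔ v k
  comm u v huv := by
    ext1 k
    show eQ u (eQ v k) = eQ v (eQ u k)
    obtain ⟨w, hw, rfl⟩ := k.exists_rep
    by_cases hu : w * Racg.gen G u ∈ Ω
    · by_cases hv : w * Racg.gen G v ∈ Ω
      · have h1 := hΩ w hw u v huv hu hv
        have h2 := hΩ w hw v u huv.symm hv hu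
        rw [eQ_qmk hΔ hw hv, eQ_qmk hΔ hv h2, eQ_qmk hΔ hw hu, eQ_qmk hΔ hu h1, qmk_eq]
        have e : w * Racg.gen G u * Racg.gen G v = w * Racg.gen G v * Racg.gen G u := by
          rw [mul_assoc, Racg.gen_comm huv, ← mul_assoc]
        rw [e, mul_inv_cancel]
        exact Δ.one_mem
      · rw [eQ_of_notMem (v := v) (k := qmk hw) fun h => hv ((qmk_mem_dmQ hΔ hw v).1 h), eQ_qmk hΔ hw hu]
        exact (eQ_of_notMem fun h => hv (hΩ.third huv hw hu ((qmk_mem_dmQ hΔ hu v).1 h))).symm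
    · rw [eQ_of_notMem (v := u) (k := qmk hw) fun h => hu ((qmk_mem_dmQ hΔ hw u).1 h)]
      by_cases hv : w * Racg.gen G v ∈ Ω
      · rw [eQ_qmk hΔ hw hv]
        exact eQ_of_notMem fun h => hu (hΩ.third huv.symm hw hv ((qmk_mem_dmQ hΔ hv u).1 h))
      · rw [eQ_of_notMem (v := v) (k := qmk hw) fun h => hv ((qmk_mem_dmQ hΔ hw v).1 h)]
        exact eQ_of_notMem fun h => hu ((qmk_mem_dmQ hΔ hw u).1 h)

theorem isDm_sQ (hΩ : Full Ω) : IsDm G (sQ hΔ : V → Equiv.Perm (KQ Ω Δ)) dmQ where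
  self v k hk := by
    obtain ⟨w, hw, rfl, h2⟩ := hk
    rw [sQ_apply, eQ_qmk hΔ hw h2, qmk_mem_dmQ hΔ h2 v, gen_gen]
    exact hw
  adj u v huv k hk := by
    obtain ⟨w, hw, rfl, h2⟩ := hk
    rw [sQ_apply]
    by_cases hu : w * Racg.gen G u ∈ Ω
    · rw [eQ_qmk hΔ hw hu, qmk_mem_dmQ hΔ hu v]
      exact hΩ w hw u v huv hu h2
    · rw [eQ_of_notMem fun h => hu ((qmk_mem_dmQ hΔ hw u).1 h), qmk_mem_dmQ hΔ hw v]
      exact h2

end quot

/-! ### chains -/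

section chains
variable {Ω : Set (RACG G)} {Δ : Subgroup (RACG G)} (hΔ : ∀ γ ∈ Δ, ∀ w ∈ Ω, γ * w ∈ Ω) [Fintype (KQ Ω Δ)]

open Classical in
/-- a function on `Ω` as a function on `RACG G × K` -/
noncomputable def spr (Δ : Subgroup (RACG G)) (f : RACG G → Finset V → ℂ) (w : RACG G) (x : KQ Ω Δ × Finset V) : ℂ :=
  if h : w ∈ Ω then (if qmk h = x.1 then f w x.2 else 0) else 0

omit [Fintype (KQ Ω Δ)] in
lemma spr_qmk (f : RACG G → Finset V → ℂ) {w : RACG G} (h : w ∈ Ω) (T : Finset V) :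
    spr Δ f w (qmk h, T) = f w T := by
  unfold spr
  rw [dif_pos h, if_pos rfl]

omit [Fintype (KQ Ω Δ)] in
lemma spr_ne (f : RACG G → Finset V → ℂ) {w : RACG G} {k : KQ Ω Δ} (h : ∀ h : w ∈ Ω, qmk h ≠ k) (T : Finset V) :
    spr Δ f w (k, T) = 0 := by
  unfold spr
  by_cases hw : w ∈ Ω
  · rw [dif_pos hw, if_neg (h hw)]
  · rw [dif_neg hw]

omit [Fintype (KQ Ω Δ)] in
lemma norm_spr_le (f : RACG G → Finset V → ℂ) (w : RACG G) (x : KQ Ω Δ × Finset V) :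
    ‖spr Δ f w x‖ ^ 2 ≤ ‖f w x.2‖ ^ 2 := by
  unfold spr
  split_ifs
  · exact le_rfl
  · rw [norm_zero, zero_pow two_ne_zero]
    positivity
  · rw [norm_zero, zero_pow two_ne_zero]
    positivity

omit [Fintype (KQ Ω Δ)] in
lemma spr_sq {f : RACG G → Finset V → ℂ} (hf : ∀ T, Summable fun w => ‖f w T‖ ^ 2) (x : KQ Ω Δ × Finset V) :
    Summable fun w => ‖spr Δ f w x‖ ^ 2 :=
  Summable.of_nonneg_of_le (fun _ => by positivity) (fun w => norm_spr_le f w x) (hf x.2)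

include hΔ in
lemma spr_mem {i : ℕ} {f : RACG G → Finset V → ℂ} (hf : ChainOn G Ω i f) :
    toE (spr Δ f) (spr_sq hf.sq) ∈ ChK G (Racg.gen G) (sQ hΔ : V → Equiv.Perm (KQ Ω Δ)) dmQ Finset.univ Set.univ i := by
  constructor
  · intro w k T hne
    rw [toE_apply] at hne
    by_cases hw : ∃ h : w ∈ Ω, qmk h = k
    · obtain ⟨h, rfl⟩ := hw
      rw [spr_qmk] at hne
      obtain ⟨⟨c1, c2⟩, c3, c4⟩ := hf.supp w T hne
      exact ⟨⟨Finset.subset_univ _, c2, c1⟩, fun t ht => (qmk_mem_dmQ hΔ h t).2 (c4 t ht), Set.mem_univ _⟩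
    · push Not at hw
      exact absurd (spr_ne f hw T) hne
  · intro w k T v hv
    rw [toE_apply, toE_apply]
    by_cases hw : ∃ h : w ∈ Ω, qmk h = k
    · obtain ⟨h, rfl⟩ := hw
      rw [spr_qmk]
      by_cases hwv : w * Racg.gen G v ∈ Ω
      · rw [sQ_apply, eQ_qmk hΔ h hwv, spr_qmk, hf.anti w T v hv]
      · have h0 : f w T = 0 := by
          by_contra hne
          exact hwv ((hf.supp w T hne).2.2 v hv)
        rw [h0, neg_zero]
        exact spr_ne f (fun h' => absurd h' hwv) T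
    · push Not at hw
      rw [spr_ne f hw T, neg_zero]
      by_cases hk : ∃ h : w * Racg.gen G v ∈ Ω, qmk h = sQ hΔ v k
      · obtain ⟨h, e⟩ := hk
        rw [← e, spr_qmk]
        by_contra hne
        have h2 := (hf.supp _ T hne).2.2 v hv
        have h3 : w ∈ Ω := by rwa [gen_gen] at h2
        refine hw h3 ?_
        have e2 : (qmk h : KQ Ω Δ) = eQ v (qmk h3) := (eQ_qmk hΔ h3 h).symm
        have e3 : eQ v (eQ v k) = eQ v (eQ v (qmk h3 : KQ Ω Δ)) := by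
          rw [← e2, e]
          rfl
        rw [eQ_eQ hΔ, eQ_eQ hΔ] at e3
        exact e3.symm
      · push Not at hk
        exact spr_ne f hk T

lemma DK_spr {r : V → ℕ} {f : RACG G → Finset V → ℂ} (hf : ∀ T, Summable fun w => ‖f w T‖ ^ 2)
    (h0 : ∀ w T, bdry r f w T = 0) : DK r (toE (spr (Ω := Ω) Δ f) (spr_sq hf)) = 0 := by
  ext ⟨w, k, T⟩
  rw [DK_apply]
  show _ = (0 : ℂ)
  by_cases hw : ∃ h : w ∈ Ω, qmk h = k
  · obtain ⟨h, rfl⟩ := hw
    rw [← h0 w T]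
    unfold bdry
    refine Finset.sum_congr rfl fun v _ => ?_
    rw [toE_apply, spr_qmk]
    rfl
  · push Not at hw
    refine Finset.sum_eq_zero fun v _ => ?_
    rw [toE_apply, spr_ne f hw, mul_zero]

open Classical in
/-- back to `Ω` -/
noncomputable def bck (H : E (RACG G) (KQ Ω Δ × Finset V)) (w : RACG G) (T : Finset V) : ℂ :=
  if h : w ∈ Ω then H (w, (qmk h, T)) else 0

omit [Fintype (KQ Ω Δ)] in
lemma bck_mem (H : E (RACG G) (KQ Ω Δ × Finset V)) {w : RACG G} (h : w ∈ Ω) (T : Finset V) :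
    bck H w T = H (w, (qmk h, T)) := by
  unfold bck
  rw [dif_pos h]

omit [Fintype (KQ Ω Δ)] in
lemma bck_notMem (H : E (RACG G) (KQ Ω Δ × Finset V)) {w : RACG G} (h : w ∉ Ω) (T : Finset V) : bck H w T = 0 := by
  unfold bck
  rw [dif_neg h]

include hΔ in
lemma chainOn_bck {i : ℕ} {H : E (RACG G) (KQ Ω Δ × Finset V)}
    (hH : H ∈ ChK G (Racg.gen G) (sQ hΔ : V → Equiv.Perm (KQ Ω Δ)) dmQ Finset.univ Set.univ i) :
    ChainOn G Ω i (bck H) where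
  supp w T hne := by
    by_cases hw : w ∈ Ω
    · rw [bck_mem H hw] at hne
      obtain ⟨⟨-, c2, c3⟩, c4, -⟩ := hH.1 w _ T hne
      exact ⟨⟨c3, c2⟩, hw, fun v hv => (qmk_mem_dmQ hΔ hw v).1 (c4 v hv)⟩
    · exact absurd (bck_notMem H hw T) hne
  anti w T v hv := by
    by_cases hw : w ∈ Ω
    · rw [bck_mem H hw]
      by_cases hwv : w * Racg.gen G v ∈ Ω
      · rw [bck_mem H hwv, ← hH.2 w _ T v hv, sQ_apply, eQ_qmk hΔ hw hwv]
      · rw [bck_notMem H hwv]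
        by_contra hne
        have hne' : H (w, (qmk hw, T)) ≠ 0 := fun h => hne (by rw [h, neg_zero])
        exact hwv ((qmk_mem_dmQ hΔ hw v).1 ((hH.1 w _ T hne').2.1 v hv))
    · rw [bck_notMem H hw, neg_zero]
      by_cases hwv : w * Racg.gen G v ∈ Ω
      · rw [bck_mem H hwv]
        by_contra hne
        have h2 := (qmk_mem_dmQ hΔ hwv v).1 ((hH.1 _ _ T hne).2.1 v hv)
        rw [gen_gen] at h2
        exact hw h2
      · rw [bck_notMem H hwv]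
  sq T := by
    have h1 : Summable fun w => ∑ k : KQ Ω Δ, ‖H (w, (k, T))‖ ^ 2 :=
      summable_sum fun k _ => summable_col H (k, T)
    refine Summable.of_nonneg_of_le (fun _ => by positivity) (fun w => ?_) h1
    by_cases hw : w ∈ Ω
    · rw [bck_mem H hw]
      exact Finset.single_le_sum (f := fun k : KQ Ω Δ => ‖H (w, (k, T))‖ ^ 2) (fun _ _ => by positivity)
        (Finset.mem_univ (qmk hw))
    · rw [bck_notMem H hw, norm_zero, zero_pow two_ne_zero]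
      positivity

lemma sum_sub_le {r : V → ℕ} {i : ℕ} {f : RACG G → Finset V → ℂ} (hf : ChainOn G Ω i f)
    (H : E (RACG G) (KQ Ω Δ × Finset V)) (S : Finset (RACG G)) :
    ∑ w ∈ S, ∑ T : Finset V, ‖f w T - bdry r (bck H) w T‖ ^ 2 ≤
      ‖toE (spr Δ f) (spr_sq hf.sq) - DK r H‖ ^ 2 := by
  refine le_trans (Finset.sum_le_sum fun w _ => ?_)
    (sum_le_norm_sq (toE (spr Δ f) (spr_sq hf.sq) - DK r H) S)
  rw [Fintype.sum_prod_type]
  by_cases hw : w ∈ Ω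
  · refine le_trans (le_of_eq ?_) (Finset.single_le_sum (f := fun k : KQ Ω Δ => ∑ T : Finset V,
      ‖(toE (spr Δ f) (spr_sq hf.sq) - DK r H : E (RACG G) (KQ Ω Δ × Finset V)) (w, (k, T))‖ ^ 2)
      (fun _ _ => Finset.sum_nonneg fun _ _ => by positivity) (Finset.mem_univ (qmk hw)))
    refine Finset.sum_congr rfl fun T _ => ?_
    rw [lp.coeFn_sub, Pi.sub_apply, toE_apply, spr_qmk, DK_apply]
    congr 3
    unfold bdry
    refine Finset.sum_congr rfl fun v _ => ?_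
    rw [bck_mem H hw]
    rfl
  · refine le_trans (le_of_eq ?_) (Finset.sum_nonneg fun _ _ => Finset.sum_nonneg fun _ _ => by positivity)
    refine Finset.sum_eq_zero fun T _ => ?_
    have h1 : f w T = 0 := by
      by_contra hne
      exact hw (hf.supp w T hne).2.1
    have h2 : bdry r (bck H) w T = 0 := by
      unfold bdry
      refine Finset.sum_eq_zero fun v _ => ?_
      rw [bck_notMem H hw, mul_zero]
    rw [h1, h2, sub_zero, norm_zero]
    norm_num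

end chains

/-- the link of `w` -/
abbrev lkΩ (Ω : Set (RACG G)) (w : RACG G) : SimpleGraph {v // w * Racg.gen G v ∈ Ω} := G.comap Subtype.val

/-- **the elementary statement** -/
theorem elem_links {Ω : Set (RACG G)} (hΩ : Full Ω) {Δ : Subgroup (RACG G)} (hΔ : ∀ γ ∈ Δ, ∀ w ∈ Ω, γ * w ∈ Ω)
    (hF : ∃ F : Finset (RACG G), ∀ w ∈ Ω, ∃ γ ∈ Δ, ∃ f ∈ F, w = γ * f) {i : ℕ}
    (hl : ∀ w ∈ Ω, ∀ (I : Fintype {v // w * Racg.gen G v ∈ Ω}) (J : DecidableEq {v // w * Racg.gen G v ∈ Ω}),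
      bet (lkΩ Ω w) i = 0)
    {r : V → ℕ} (hr : Function.Injective r) {f : RACG G → Finset V → ℂ} (hf : ChainOn G Ω i f)
    (h0 : ∀ w T, bdry r f w T = 0) {ε : ℝ} (hε : 0 < ε) :
    ∃ c : RACG G → Finset V → ℂ, ChainOn G Ω (i + 1) c ∧
      ∀ S : Finset (RACG G), ∑ w ∈ S, ∑ T : Finset V, ‖f w T - bdry r c w T‖ ^ 2 < ε := by
  classical
  have hfin := finite_KQ hF
  have : Fintype (KQ Ω Δ) := Fintype.ofFinite _
  have h1 := CyK_le_BdK_of_links (i := i) hr (isSys_sQ hΔ hΩ) (isDm_sQ hΔ hΩ) (fun k => by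
    obtain ⟨w, hw, rfl⟩ := k.exists_rep
    rw [← hl w hw inferInstance inferInstance]
    refine bet_iso ⟨Equiv.subtypeEquivRight fun v => ?_, ?_⟩ i
    · rw [mem_lkK, qmk_mem_dmQ hΔ hw v]
    · intro u v
      rfl)
  have h2 : toE (spr Δ f) (spr_sq hf.sq) ∈
      CyK r G (Racg.gen G) (sQ hΔ : V → Equiv.Perm (KQ Ω Δ)) dmQ Finset.univ Set.univ i :=
    ⟨spr_mem hΔ hf, DK_spr hf.sq h0⟩
  have h3 : toE (spr Δ f) (spr_sq hf.sq) ∈ closure
      (((ChK G (Racg.gen G) (sQ hΔ : V → Equiv.Perm (KQ Ω Δ)) dmQ Finset.univ Set.univ (i + 1)).map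
        ((DK r : E (RACG G) (KQ Ω Δ × Finset V) →L[ℂ] E (RACG G) (KQ Ω Δ × Finset V)) :
          E (RACG G) (KQ Ω Δ × Finset V) →ₗ[ℂ] E (RACG G) (KQ Ω Δ × Finset V)) :
        Submodule ℂ (E (RACG G) (KQ Ω Δ × Finset V))) : Set (E (RACG G) (KQ Ω Δ × Finset V))) := h1 h2
  obtain ⟨b, hb, hd⟩ := Metric.mem_closure_iff.1 h3 (Real.sqrt ε) (Real.sqrt_pos.2 hε)
  obtain ⟨c, hc, rfl⟩ := hb
  refine ⟨bck c, chainOn_bck hΔ hc, fun S => (sum_sub_le hf c S).trans_lt ?_⟩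
  have h5 : ‖toE (spr Δ f) (spr_sq hf.sq) - DK r c‖ < Real.sqrt ε := by
    rw [← dist_eq_norm]
    exact hd
  calc ‖toE (spr Δ f) (spr_sq hf.sq) - DK r c‖ ^ 2 < Real.sqrt ε ^ 2 :=
        pow_lt_pow_left₀ h5 (norm_nonneg _) two_ne_zero
    _ = ε := Real.sq_sqrt hε.le

end Cube
end Singer
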