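import Pool.Agent.Singer.Cube.Cone
import Pool.Agent.Singer.TwoSided
import Pool.Agent.Singer.RacgSys

/-!
# Singer, special cube complexes: mirroring a colour does not decrease the Betti numbers

`kapK_le`: the key lemma; `bk_le_update`: `b_i(σ) ≤ b_i(σ[a ↦ 1])`.
-/

set_option autoImplicit false
set_option linter.unusedSectionVars false
set_option linter.unusedVariables false

open scoped ComplexConjugate InnerProductSpace
open Filter Topology

namespace Singer
namespace Cube

/-- a half-space: `S` is the side of `1` of the wall of the involution `b`; `H` = the subgroup generated by the other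
colours, `C` = the subgroup generated by the adjacent colours -/
structure Half {Γ : Type*} [Group Γ] (H C : Subgroup Γ) (b : Γ) (S : Set Γ) : Prop where
  mul : ∀ g ∈ S, ∀ k ∈ H, g * k ∈ S
  mem : ∀ c ∈ C, c ∈ S
  notMem : ∀ c ∈ C, c * b ∉ S
  iff : ∀ g, g ∉ C → g * b ∉ C → (g ∈ S ↔ g * b ∈ S)

section key
variable {Γ : Type*} [Group Γ] {K : Type*} [Fintype K] {ι : Type*} [Fintype ι]

/-- the antisymmetric part of a module contained in `Z`, modulo `B₀` -/
lemma vdim_split {Z B₀ B : Submodule ℂ (E Γ (K × ι))} {b : Γ} {π : Equiv.Perm K} (hb : b * b = 1) (hπ : π * π = 1)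
    (hB₀ : Mdl B₀) (h₀Z : B₀ ≤ Z) (h₀B : B₀ ≤ B) (hrB : ∀ f ∈ B₀, mv b π f ∈ B₀) :
    vdim (Z ⊓ asy b π ⊓ B) = vdim (B₀ ⊓ asy b π) + vdim (Z ⊓ B₀ᗮ ⊓ asy b π ⊓ B) := by
  have hmem : ∀ f, prj B₀ f ∈ B₀ := fun f => by
    have := prj_mem B₀ f
    rwa [IsClosed.submodule_topologicalClosure_eq hB₀.cl] at this
  rw [← vdim_sup_of_le_orthogonal]
  · congr 1
    refine le_antisymm ?_ (sup_le ?_ ?_)
    · rintro f ⟨⟨f1, f2⟩, f3⟩
      have hf2 : mv b π f = -f := mem_asy.1 f2
      have hp : mv b π (prj B₀ f) = -prj B₀ f := by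
        have h1 : prj B₀ (mv b π f) = mv b π (prj B₀ f) := by
          refine prj_unique (Submodule.le_topologicalClosure _ (hrB _ (hmem f))) ?_
          rw [Submodule.mem_orthogonal]
          intro w hw
          rw [← map_sub, ← inner_mv_left hb hπ]
          exact (Submodule.mem_orthogonal _ _).1 (sub_prj_mem B₀ f) _ (hrB w hw)
        rw [← h1, hf2, map_neg]
      have h4 : f = prj B₀ f + (f - prj B₀ f) := by abel
      rw [h4]
      refine Submodule.add_mem_sup ⟨hmem f, mem_asy.2 hp⟩ ⟨⟨⟨?_, sub_prj_mem B₀ f⟩, ?_⟩, ?_⟩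
      · exact Submodule.sub_mem _ f1 (h₀Z (hmem f))
      · exact Submodule.sub_mem _ f2 (mem_asy.2 hp)
      · exact Submodule.sub_mem _ f3 (h₀B (hmem f))
    · rintro f ⟨f1, f2⟩
      exact ⟨⟨h₀Z f1, f2⟩, h₀B f1⟩
    · rintro f ⟨⟨⟨f1, f2⟩, f3⟩, f4⟩
      exact ⟨⟨f1, f3⟩, f4⟩
  · intro f hf
    rw [Submodule.mem_orthogonal]
    rintro w ⟨⟨⟨-, hw⟩, -⟩, -⟩
    exact (Submodule.mem_orthogonal' _ _).1 hw f hf.1

/-- **the half-space lemma** -/
theorem half_key {H C : Subgroup Γ} {b : Γ} {S : Set Γ} (hS : Half H C b S) (hCH : C ≤ H) (hb : b * b = 1)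
    (hcom : ∀ c ∈ C, b * c = c * b) (hbC : b ∉ C) {π : Equiv.Perm K} (hπ : π * π = 1)
    {X B : Submodule ℂ (E Γ (K × ι))} (hX : Mdl X) (hlX : Loc C X) (hB : Mdl B) (hlB : Loc H B) :
    vdim (X ⊓ asy b π ⊓ B) ≤ vdim (X ⊓ asy b 1 ⊓ B) := by
  set Y : Submodule ℂ (E Γ (K × ι)) := X ⊓ asy b π ⊓ B with hYdef
  have hY : Mdl Y := (hX.inf (mdl_asy b π)).inf hB
  set W : Submodule ℂ (E Γ (K × ι)) := (tsHull C Y).topologicalClosure with hWdef
  have hW : Mdl W := Mdl.closure (tsHull_inv C _)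
  have hlW : Loc C W := ts_loc_closure (tsHull_cut C _)
  have hYW : Y ≤ W := le_tsHull hY.inv
  have hWX : W ≤ X := by
    refine Submodule.topologicalClosure_minimal _ (Submodule.span_le.2 ?_) hX.cl
    rintro _ ⟨g, n, hn, rfl⟩
    exact hX.inv g _ (hlX n hn.1.1)
  have hneg : ∀ n ∈ Y, mv b π n = -n := fun n hn => mem_asy.1 hn.1.2
  have hbi : b⁻¹ = b := inv_eq_of_mul_eq_one_left hb
  have hCb : ∀ x, x * b ∈ C ↔ b⁻¹ * x ∈ C := by
    intro x
    rw [hbi]
    constructor
    · intro hx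
      have e : b * x = x * b := by
        have h1 := hcom _ hx
        calc b * x = b * (x * b) * b := by rw [mul_assoc, mul_assoc, hb, mul_one]
          _ = x * b * b * b := by rw [h1]
          _ = x * b := by rw [mul_assoc (x * b), hb, mul_one]
      rw [e]
      exact hx
    · intro hx
      have e : x * b = b * x := by
        have h1 := hcom _ hx
        calc x * b = b * (b * x) * b := by rw [← mul_assoc, hb, one_mul]
          _ = b * x * b * b := by rw [h1]
          _ = b * x := by rw [mul_assoc (b * x), hb, mul_one]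
      rw [e]
      exact hx
  -- `W` is invariant
  have hrH : ∀ x ∈ tsHull C Y, mv b π x ∈ tsHull C Y := by
    intro x hx
    induction hx using Submodule.span_induction with
    | mem x hx =>
      obtain ⟨g, n, hn, rfl⟩ := hx
      rw [equi_mv, mv_cut, hneg n hn, map_neg, map_neg]
      refine Submodule.neg_mem _ (tsHull_inv C Y g _ ?_)
      have e1 : {x | x * b ∈ (C : Set Γ)} = {x | b⁻¹ * x ∈ (C : Set Γ)} := by
        ext x
        exact hCb x
      have e2 : cut {x | b⁻¹ * x ∈ (C : Set Γ)} n = lam b (cut (C : Set Γ) (lam b⁻¹ n)) := by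
        rw [lam_cut, lam_lam_inv]
      rw [e1, e2]
      exact Submodule.subset_span ⟨b, _, hY.inv b⁻¹ n hn, rfl⟩
    | zero => rw [map_zero]; exact Submodule.zero_mem _
    | add x y _ _ hx hy => rw [map_add]; exact Submodule.add_mem _ hx hy
    | smul c x _ hx => rw [map_smul]; exact Submodule.smul_mem _ _ hx
  have hrW : ∀ f ∈ W, mv b π f ∈ W := by
    intro f hf
    have h1 : mv b π f ∈ _root_.closure ((mv b π : E Γ (K × ι) →L[ℂ] E Γ (K × ι)) ''
        (tsHull C Y : Set (E Γ (K × ι)))) :=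
      image_closure_subset_closure_image (mv b π).continuous ⟨f, hf, rfl⟩
    refine closure_mono ?_ h1
    rintro _ ⟨x, hx, rfl⟩
    exact hrH x hx
  -- the slope inequality
  have hslope : vdim (W ⊓ B) ≤ vdim W / 2 + vdim (X ⊓ asy b 1 ⊓ B) := by
    have h1 := vdim_asy hW hlW hb (π := 1) (by simp) (fun f hf => by
      rw [mv_one]
      exact hlW.rt_mem hW.inv hW.cl hb hcom hf) hbC
    have m1 := hW.inf (mdl_asy (ι := ι) b (1 : Equiv.Perm K))
    have m2 := hW.inf hB
    have h2 := vdim_sup_add_inf m1.inv m2.inv m1.cl m2.cl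
    have h3 : vdim ((W ⊓ asy b 1) ⊔ (W ⊓ B)) ≤ vdim W := vdim_mono (sup_le inf_le_left inf_le_left)
    have h4 : vdim ((W ⊓ asy b 1) ⊓ (W ⊓ B)) ≤ vdim (X ⊓ asy b 1 ⊓ B) := by
      refine vdim_mono ?_
      rintro f ⟨⟨f1, f2⟩, ⟨-, f4⟩⟩
      exact ⟨⟨hWX f1, f2⟩, f4⟩
    linarith
  -- the map `1 + mv b π`
  set Ψ : E Γ (K × ι) →L[ℂ] E Γ (K × ι) := 1 + mv b π with hΨ
  have eΨ : Equi Ψ := equi_one.add (equi_mv b π)
  have aΨ : ∀ f, Ψ f = f + mv b π f := fun f => rfl
  set M : Submodule ℂ (E Γ (K × ι)) := W ⊓ B with hM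
  have mM : Mdl M := hW.inf hB
  have h1 := vdim_map_add eΨ mM.inv mM.cl
  have h2 := vdim_map_add eΨ hW.inv hW.cl
  have h3 := vdim_asy hW hlW hb hπ hrW hbC
  have h4 : vdim Y ≤ vdim (M ⊓ LinearMap.ker (Ψ : E Γ (K × ι) →ₗ[ℂ] E Γ (K × ι))) := by
    refine vdim_mono fun f hf => ⟨⟨hYW hf, hf.2⟩, hf.1.2⟩
  have h5 : (tsHull C Y).map (Ψ : E Γ (K × ι) →ₗ[ℂ] E Γ (K × ι)) ≤
      M.map (Ψ : E Γ (K × ι) →ₗ[ℂ] E Γ (K × ι)) := by
    rw [Submodule.map_le_iff_le_comap]
    refine Submodule.span_le.2 ?_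
    rintro _ ⟨g, n, hn, rfl⟩
    show Ψ (lam g (cut (C : Set Γ) n)) ∈ M.map (Ψ : E Γ (K × ι) →ₗ[ℂ] E Γ (K × ι))
    rw [eΨ]
    refine (mM.inv.map eΨ) g _ ⟨cut S n, ⟨?_, ?_⟩, ?_⟩
    · exact ts_cut_mem hW hlW (fun g hg k hk => hS.mul g hg k (hCH hk)) (hYW hn)
    · exact ts_cut_mem hB hlB hS.mul hn.2
    · show Ψ (cut S n) = Ψ (cut (C : Set Γ) n)
      rw [aΨ, aΨ, mv_cut, mv_cut, hneg n hn, map_neg, map_neg]
      classical
      ext x
      rw [lp.coeFn_add, Pi.add_apply, lp.coeFn_neg, Pi.neg_apply, lp.coeFn_add, Pi.add_apply, lp.coeFn_neg,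
        Pi.neg_apply, cut_apply, cut_apply, cut_apply, cut_apply]
      by_cases hx : x.1 ∈ C
      · have q1 : x.1 ∈ S := hS.mem _ hx
        have q2 : x.1 ∉ {x | x * b ∈ S} := hS.notMem _ hx
        have q3 : x.1 ∈ (C : Set Γ) := hx
        have q4 : x.1 ∉ {x | x * b ∈ (C : Set Γ)} := by
          intro h
          apply hbC
          have h' : x.1 * b ∈ C := h
          have := C.mul_mem (C.inv_mem hx) h'
          rwa [inv_mul_cancel_left] at this
        rw [if_pos q1, if_neg q2, if_pos q3, if_neg q4]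
      · have q3 : x.1 ∉ (C : Set Γ) := hx
        by_cases hxb : x.1 * b ∈ C
        · have q4 : x.1 ∈ {x | x * b ∈ (C : Set Γ)} := hxb
          have q2 : x.1 ∈ {x | x * b ∈ S} := hS.mem _ hxb
          have q1 : x.1 ∉ S := by
            have := hS.notMem _ hxb
            rwa [mul_assoc, hb, mul_one] at this
          rw [if_neg q1, if_pos q2, if_neg q3, if_pos q4]
        · have q4 : x.1 ∉ {x | x * b ∈ (C : Set Γ)} := hxb
          have q5 := hS.iff _ hx hxb
          rw [if_neg q3, if_neg q4]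
          by_cases q1 : x.1 ∈ S
          · have q2 : x.1 ∈ {x | x * b ∈ S} := q5.1 q1
            rw [if_pos q1, if_pos q2, add_neg_cancel, neg_zero, add_zero]
          · have q2 : x.1 ∉ {x | x * b ∈ S} := fun h => q1 (q5.2 h)
            rw [if_neg q1, if_neg q2]
  have h6 : vdim (W.map (Ψ : E Γ (K × ι) →ₗ[ℂ] E Γ (K × ι))) ≤
      vdim (M.map (Ψ : E Γ (K × ι) →ₗ[ℂ] E Γ (K × ι))) := by
    have h7 : W.map (Ψ : E Γ (K × ι) →ₗ[ℂ] E Γ (K × ι)) ≤
        ((tsHull C Y).map (Ψ : E Γ (K × ι) →ₗ[ℂ] E Γ (K × ι))).topologicalClosure := by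
      rintro _ ⟨x, hx, rfl⟩
      have h8 : Ψ x ∈ _root_.closure ((Ψ : E Γ (K × ι) → E Γ (K × ι)) '' (tsHull C Y : Set (E Γ (K × ι)))) :=
        image_closure_subset_closure_image Ψ.continuous ⟨x, hx, rfl⟩
      refine closure_mono ?_ h8
      rintro _ ⟨z, hz, rfl⟩
      exact ⟨z, hz, rfl⟩
    have h9 := vdim_mono h7
    rw [vdim_closure] at h9
    exact h9.trans (vdim_mono h5)
  have h10 : vdim (W ⊓ LinearMap.ker (Ψ : E Γ (K × ι) →ₗ[ℂ] E Γ (K × ι))) = vdim (W ⊓ asy b π) := rfl
  linarith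

end key

section step
variable {Γ : Type*} [Group Γ] {K : Type*} [Fintype K] {V : Type*} [Fintype V] [DecidableEq V]
variable {r : V → ℕ} {G : SimpleGraph V} {s : V → Γ} {σ : V → Equiv.Perm K} {dm : V → Set K}
  {a : V} {A U : Finset V}

/-- the complex does not depend on the unused colours -/
lemma ChK_update (ha : a ∉ A) (π : Equiv.Perm K) (L : Set K) (i : ℕ) :
    ChK G s (Function.update σ a π) dm A L i = ChK G s σ dm A L i := by
  ext f
  constructor
  · rintro ⟨h1, h2⟩
    refine ⟨h1, fun g k T v hv => ?_⟩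
    by_cases hva : v = a
    · subst hva
      have e1 : f (g, (k, T)) = 0 := by
        by_contra hne
        exact ha ((h1 g k T hne).1.1 hv)
      have e2 : f (g * s v, (σ v k, T)) = 0 := by
        by_contra hne
        exact ha ((h1 _ _ T hne).1.1 hv)
      rw [e1, e2, neg_zero]
    · have := h2 g k T v hv
      rwa [Function.update_of_ne hva] at this
  · rintro ⟨h1, h2⟩
    refine ⟨h1, fun g k T v hv => ?_⟩
    by_cases hva : v = a
    · subst hva
      have e1 : f (g, (k, T)) = 0 := by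
        by_contra hne
        exact ha ((h1 g k T hne).1.1 hv)
      have e2 : f (g * s v, (Function.update σ v π v k, T)) = 0 := by
        by_contra hne
        exact ha ((h1 _ _ T hne).1.1 hv)
      rw [e1, e2, neg_zero]
    · rw [Function.update_of_ne hva]
      exact h2 g k T v hv

lemma CyK_update (ha : a ∉ A) (π : Equiv.Perm K) (L : Set K) (i : ℕ) :
    CyK r G s (Function.update σ a π) dm A L i = CyK r G s σ dm A L i := by
  unfold CyK
  rw [ChK_update ha]

lemma BdK_update (ha : a ∉ A) (π : Equiv.Perm K) (L : Set K) (i : ℕ) :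
    BdK r G s (Function.update σ a π) dm A L i = BdK r G s σ dm A L i := by
  unfold BdK
  rw [ChK_update ha]

lemma bk_update (ha : a ∉ A) (π : Equiv.Perm K) (L : Set K) (i : ℕ) :
    bk r G s (Function.update σ a π) dm A L i = bk r G s σ dm A L i := by
  unfold bk
  rw [CyK_update ha, BdK_update ha]

lemma isSys_update (hσ : IsSys G σ) (a : V) : IsSys G (Function.update σ a 1) where
  sq v := by
    by_cases h : v = a
    · subst h
      rw [Function.update_self, mul_one]
    · rw [Function.update_of_ne h, hσ.sq]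
  comm u v huv := by
    by_cases hu : u = a
    · subst hu
      rw [Function.update_self, one_mul, mul_one]
    · by_cases hv : v = a
      · subst hv
        rw [Function.update_self, one_mul, mul_one]
      · rw [Function.update_of_ne hu, Function.update_of_ne hv, hσ.comm u v huv]

lemma isDm_update (hdm : IsDm G σ dm) (a : V) : IsDm G (Function.update σ a 1) dm where
  self v k hk := by
    by_cases h : v = a
    · subst h
      rw [Function.update_self]
      exact hk
    · rw [Function.update_of_ne h]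
      exact hdm.self v k hk
  adj u v huv k hk := by
    by_cases h : u = a
    · subst h
      rw [Function.update_self]
      exact hk
    · rw [Function.update_of_ne h]
      exact hdm.adj u v huv k hk

/-- the key lemma -/
theorem kapK_le (hr : Function.Injective r) (hs : IsSys G s) (hσ : IsSys G σ) (hdm : IsDm G σ dm)
    (h : Nbr G a A U) (hf : s a ∉ sub s U) {S : Set Γ} (hS : Half (sub s (A : Set V)) (sub s (U : Set V)) (s a) S)
    (i : ℕ) : kapK r G s σ dm a U A i ≤ kapK r G s (Function.update σ a 1) dm a U A i := by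
  have hAU : sub s (U : Set V) ≤ sub s (A : Set V) :=
    Subgroup.closure_mono (Set.image_mono (Finset.coe_subset.2 h.subset))
  have hle : BdK r G s σ dm U (dm a) i ≤ BdK r G s σ dm A Set.univ i :=
    BdK_mono r G s σ dm h.subset (Set.subset_univ _) i
  have hσ' := isSys_update hσ a
  have hdm' := isDm_update hdm a
  have key := half_key hS hAU (hs.sq a) (comm_sub hs h) hf (hσ.sq a)
    (X := CyK r G s σ dm U (dm a) i ⊓ (BdK r G s σ dm U (dm a) i)ᗮ) (B := BdK r G s σ dm A Set.univ i)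
    ((mdl_CyK _ _ _ _ _ _ _ _).inf (Mdl.orthogonal (mdl_BdK _ _ _ _ _ _ _ _).inv))
    ((loc_CyK _ _ _ _ _ _ _ _).inf (loc_BdK _ _ _ _ _ _ _ _).orthogonal) (mdl_BdK _ _ _ _ _ _ _ _)
    (loc_BdK _ _ _ _ _ _ _ _)
  have s1 := vdim_split (hs.sq a) (hσ.sq a) (mdl_BdK r G s σ dm U (dm a) i)
    (BdK_le_CyK r G s σ dm hr U (dm a) i) hle (fun f hf => mv_mem_BdK hs hσ hdm h hf)
  have s2 := vdim_split (hs.sq a) (π := (1 : Equiv.Perm K)) (by simp) (mdl_BdK r G s σ dm U (dm a) i)
    (BdK_le_CyK r G s σ dm hr U (dm a) i) hle (fun f hf => by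
      have h1 := mv_mem_BdK (r := r) (i := i) hs hσ' hdm' h (f := f) (by rwa [BdK_update h.notMem'])
      rwa [BdK_update h.notMem', Function.update_self] at h1)
  unfold kapK
  rw [CyK_update h.notMem', BdK_update h.notMem', BdK_update h.notMem, Function.update_self]
  linarith

/-- **mirroring a colour does not decrease the Betti numbers** -/
theorem bk_le_update (hr : Function.Injective r) (hs : IsSys G s) (hσ : IsSys G σ) (hdm : IsDm G σ dm)
    (h : Nbr G a A U) (hf : s a ∉ sub s U) {S : Set Γ} (hS : Half (sub s (A : Set V)) (sub s (U : Set V)) (s a) S)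
    (i : ℕ) : bk r G s σ dm (insert a A) Set.univ i ≤ bk r G s (Function.update σ a 1) dm (insert a A) Set.univ i := by
  have hσ' := isSys_update hσ a
  have hdm' := isDm_update hdm a
  cases i with
  | zero =>
    rw [coneK_zero hr hs hσ hdm h hf, coneK_zero hr hs hσ' hdm' h hf, bk_update h.notMem, bk_update h.notMem']
    have := kapK_le hr hs hσ hdm h hf hS 0
    linarith
  | succ i =>
    rw [coneK_succ hr hs hσ hdm h hf, coneK_succ hr hs hσ' hdm' h hf, bk_update h.notMem, bk_update h.notMem']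
    have h1 := kapK_le hr hs hσ hdm h hf hS i
    have h2 := kapK_le hr hs hσ hdm h hf hS (i + 1)
    linarith

end step

end Cube
end Singer
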