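import Pool.Agent.Singer.Cube.Key
import Pool.Agent.Singer.Bet

/-!
# Singer, special cube complexes: the chessboard inequality

`bk_le_sum`: `b_i(σ) ≤ ∑ k, b_i(RACG (link of k))`.
-/

set_option autoImplicit false
set_option linter.unusedSectionVars false
set_option linter.unusedVariables false

open scoped ComplexConjugate InnerProductSpace
open Filter Topology

namespace Singer
namespace Cube

/-! ### half-spaces of right-angled Coxeter groups -/

section half
variable {V : Type*} [Fintype V] [DecidableEq V]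

/-- half-spaces from side sets -/
lemma half_of_side {Γ : Type*} [Group Γ] {H C B : Subgroup Γ} {b : Γ} (h : Side H B C) (hb : b * b = 1) (hbB : b ∈ B)
    (hbC : b ∉ C) : ∃ S, Half H C b S := by
  obtain ⟨S, h1, h2, h3⟩ := h
  have hnot : ∀ c ∈ C, c * b ∉ C := fun c hc h => hbC (by
    have := C.mul_mem (C.inv_mem hc) h
    rwa [inv_mul_cancel_left] at this)
  refine ⟨S, h1, h2, fun c hc h => ?_, fun g hg hgb => ⟨fun h => (h3 g h hg b hbB).1, fun h => ?_⟩⟩
  · have := (h3 _ h (hnot c hc) b hbB).2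
    rw [mul_assoc, hb, mul_one] at this
    exact this hc
  · have := (h3 _ h hgb b hbB).1
    rwa [mul_assoc, hb, mul_one] at this

/-- the neighbours -/
noncomputable def nb (G : SimpleGraph V) (a : V) : Finset V := by
  classical
  exact Finset.univ.filter fun v => G.Adj a v

omit [DecidableEq V] in
lemma mem_nb (G : SimpleGraph V) (a v : V) : v ∈ nb G a ↔ G.Adj a v := by
  classical
  unfold nb
  simp

lemma nbr_univ (G : SimpleGraph V) (a : V) : Nbr G a (Finset.univ.erase a) (nb G a) where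
  notMem := Finset.notMem_erase _ _
  mem v := by
    rw [mem_nb, Finset.mem_erase]
    exact ⟨fun h => ⟨⟨h.ne', Finset.mem_univ _⟩, h⟩, fun h => h.2⟩

lemma exists_half (G : SimpleGraph V) (a : V) :
    ∃ S, Half (sub (Racg.gen G) ((Finset.univ.erase a : Finset V) : Set V)) (sub (Racg.gen G) (nb G a : Set V))
      (Racg.gen G a) S := by
  have h1 := side_racg G (K := ((Finset.univ.erase a : Finset V) : Set V)) (K' := insert a (nb G a : Set V))
    (fun v => by
      by_cases h : v = a
      · exact Or.inr (Or.inl h)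
      · exact Or.inl (by simp [h]))
    (fun u v hu hv huv => by
      have hv' : v = a := by simpa using hv
      subst hv'
      exact hu (Or.inr ((mem_nb G v u).2 huv.symm)))
  have h2 : ((Finset.univ.erase a : Finset V) : Set V) ∩ insert a (nb G a : Set V) = (nb G a : Set V) := by
    ext v
    simp only [Set.mem_inter_iff, Finset.mem_coe, Finset.mem_erase, Finset.mem_univ, and_true, Set.mem_insert_iff]
    constructor
    · rintro ⟨h, h'⟩
      exact h'.resolve_left h
    · intro h
      exact ⟨((mem_nb G a v).1 h).ne', Or.inr h⟩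
  rw [h2] at h1
  refine half_of_side h1 (Racg.gen_mul_gen G a) (Subgroup.subset_closure ⟨a, Or.inl rfl, rfl⟩) (gen_notMem G a ?_)
  intro h
  exact G.loopless.1 _ ((mem_nb G a a).1 h)

end half

/-! ### iteration -/

section iter
variable {K : Type*} [Fintype K] {V : Type*} [Fintype V] [DecidableEq V]
variable {r : V → ℕ} {G : SimpleGraph V} {σ : V → Equiv.Perm K} {dm : V → Set K}

/-- one step -/
theorem bk_step (hr : Function.Injective r) (hσ : IsSys G σ) (hdm : IsDm G σ dm) (a : V) (i : ℕ) :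
    bk r G (Racg.gen G) σ dm Finset.univ Set.univ i ≤
      bk r G (Racg.gen G) (Function.update σ a 1) dm Finset.univ Set.univ i := by
  obtain ⟨S, hS⟩ := exists_half G a
  have hf : Racg.gen G a ∉ sub (Racg.gen G) (nb G a : Set V) := by
    refine gen_notMem G a fun h => ?_
    exact G.loopless.1 _ ((mem_nb G a a).1 h)
  have h1 := bk_le_update hr (isSys_gen G) hσ hdm (nbr_univ G a) hf hS i
  rwa [Finset.insert_erase (Finset.mem_univ a)] at h1

/-- mirror the colours of `J` -/
def mir (σ : V → Equiv.Perm K) (J : Finset V) (v : V) : Equiv.Perm K := if v ∈ J then 1 else σ v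

lemma mir_empty (σ : V → Equiv.Perm K) : mir σ ∅ = σ := by
  funext v
  simp [mir]

lemma mir_insert (σ : V → Equiv.Perm K) (J : Finset V) (a : V) : mir σ (insert a J) = Function.update (mir σ J) a 1 := by
  funext v
  by_cases h : v = a
  · subst h
    rw [Function.update_self]
    simp [mir]
  · rw [Function.update_of_ne h]
    simp [mir, h]

lemma mir_univ (σ : V → Equiv.Perm K) : mir σ Finset.univ = fun _ => 1 := by
  funext v
  simp [mir]

theorem bk_le_mir (hr : Function.Injective r) (hσ : IsSys G σ) (hdm : IsDm G σ dm) (J : Finset V) (i : ℕ) :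
    (IsSys G (mir σ J) ∧ IsDm G (mir σ J) dm) ∧ bk r G (Racg.gen G) σ dm Finset.univ Set.univ i ≤
      bk r G (Racg.gen G) (mir σ J) dm Finset.univ Set.univ i := by
  induction J using Finset.induction_on with
  | empty =>
    rw [mir_empty]
    exact ⟨⟨hσ, hdm⟩, le_rfl⟩
  | insert a J _ ih =>
    rw [mir_insert]
    exact ⟨⟨isSys_update ih.1.1 a, isDm_update ih.1.2 a⟩, ih.2.trans (bk_step hr ih.1.1 ih.1.2 a i)⟩

end iter

/-! ### all colours mirrored -/

section last
variable {Γ : Type*} [Group Γ] {K : Type*} [Fintype K] {ι : Type*} [Fintype ι]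

/-- the module with the slices `P k` -/
noncomputable def pk (P : K → Submodule ℂ (E Γ ι)) : Submodule ℂ (E Γ (K × ι)) :=
  ⨅ k, (P k).comap ((sl k : E Γ (K × ι) →L[ℂ] E Γ ι) : E Γ (K × ι) →ₗ[ℂ] E Γ ι)

lemma mem_pk {P : K → Submodule ℂ (E Γ ι)} {f : E Γ (K × ι)} : f ∈ pk P ↔ ∀ k, sl k f ∈ P k := by
  unfold pk
  rw [Submodule.mem_iInf]
  rfl

lemma inner_slices (f h : E Γ (K × ι)) : ⟪f, h⟫_ℂ = ∑ k, ⟪sl k f, sl k h⟫_ℂ := by
  classical
  have e : ∀ k, ⟪sl k f, sl k h⟫_ℂ = ⟪ic k (sl k f), h⟫_ℂ := by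
    intro k
    rw [inner_eq, inner_eq, ← (slice_inj (Γ := Γ) (ι := ι) k).tsum_eq]
    · congr 1
      funext x
      rw [sl_apply, sl_apply]
      show _ = conj ((ic k (sl k f) : E Γ (K × ι)) (x.1, (k, x.2))) * _
      rw [ic_apply_self]
      rfl
    · rintro ⟨g, k', i⟩ hx
      by_contra hc
      apply hx
      have hk : k' ≠ k := by
        rintro rfl
        exact hc ⟨(g, i), rfl⟩
      show conj ((ic k (sl k f) : E Γ (K × ι)) (g, (k', i))) * h (g, (k', i)) = 0
      rw [ic_apply_ne hk, map_zero, zero_mul]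
  simp_rw [e]
  rw [← sum_inner, sum_ic_sl]

lemma norm_ic (k : K) (f : E Γ ι) : ‖(ic k f : E Γ (K × ι))‖ = ‖f‖ := norm_push _ (slice_inj k) f

lemma ic_mem_pk {P : K → Submodule ℂ (E Γ ι)} {k : K} {f : E Γ ι} (h : f ∈ P k) : ic k f ∈ pk P := by
  classical
  rw [mem_pk]
  intro k'
  by_cases hk : k' = k
  · subst hk
    rwa [sl_ic_self]
  · rw [sl_ic_ne hk]
    exact Submodule.zero_mem _

lemma prj_pk (P : K → Submodule ℂ (E Γ ι)) (k : K) (f : E Γ ι) : prj (pk P) (ic k f) = ic k (prj (P k) f) := by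
  classical
  refine prj_unique ?_ ?_
  · have h1 : ic k (prj (P k) f) ∈ _root_.closure ((ic k : E Γ ι → E Γ (K × ι)) '' (P k : Set (E Γ ι))) :=
      image_closure_subset_closure_image (ic k).continuous ⟨_, prj_mem (P k) f, rfl⟩
    refine closure_mono ?_ h1
    rintro _ ⟨x, hx, rfl⟩
    exact ic_mem_pk hx
  · rw [Submodule.mem_orthogonal]
    intro u hu
    rw [inner_slices]
    refine Finset.sum_eq_zero fun k' _ => ?_
    rw [map_sub]
    by_cases hk : k' = k
    · subst hk
      rw [sl_ic_self, sl_ic_self]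
      exact (Submodule.mem_orthogonal _ _).1 (sub_prj_mem (P k') f) _ (mem_pk.1 hu k')
    · rw [sl_ic_ne hk, sl_ic_ne hk, sub_zero, inner_zero_right]

lemma del_ic (g : Γ) (k : K) (j : ι) : (del g (k, j) : E Γ (K × ι)) = ic k (del g j) := by
  classical
  refine ext_inner_right ℂ fun f => ?_
  rw [inner_del_left, inner_slices, Finset.sum_eq_single k]
  · rw [sl_ic_self, inner_del_left]
    rfl
  · intro k' _ hk
    rw [sl_ic_ne hk, inner_zero_left]
  · intro h
    exact absurd (Finset.mem_univ k) h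

theorem vdim_pk (P : K → Submodule ℂ (E Γ ι)) : vdim (pk P) = ∑ k, vdim (P k) := by
  unfold vdim
  rw [Fintype.sum_prod_type]
  refine Finset.sum_congr rfl fun k _ => Finset.sum_congr rfl fun j _ => ?_
  rw [del_ic, prj_pk, norm_ic]

end last

section final
variable {Γ : Type*} [Group Γ] {K : Type*} [Fintype K] {V : Type*} [Fintype V] [DecidableEq V]
variable (r : V → ℕ) (G : SimpleGraph V) (s : V → Γ) (dm : V → Set K)

/-- the link of `k` -/
noncomputable def lkK (dm : V → Set K) (k : K) : Finset V := by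
  classical
  exact Finset.univ.filter fun v => k ∈ dm v

omit [Fintype K] [DecidableEq V] in
lemma mem_lkK {dm : V → Set K} {k : K} {v : V} : v ∈ lkK dm k ↔ k ∈ dm v := by
  classical
  unfold lkK
  simp

lemma ChK_one (i : ℕ) : ChK G s (fun _ => (1 : Equiv.Perm K)) dm Finset.univ Set.univ i =
    pk fun k => Ch G s (lkK dm k) i := by
  ext f
  rw [mem_pk]
  constructor
  · rintro ⟨h1, h2⟩ k
    exact ⟨fun x hx => ⟨fun v hv => mem_lkK.2 ((h1 x.1 k x.2 hx).2.1 v hv), (h1 x.1 k x.2 hx).1.2⟩,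
      fun g T v hv => h2 g k T v hv⟩
  · intro h
    refine ⟨fun g k T hx => ⟨⟨Finset.subset_univ _, ((h k).1 (g, T) hx).2⟩,
      fun t ht => mem_lkK.1 (((h k).1 (g, T) hx).1 ht), Set.mem_univ _⟩, fun g k T v hv => (h k).2 g T v hv⟩

lemma CyK_one (i : ℕ) : CyK r G s (fun _ => (1 : Equiv.Perm K)) dm Finset.univ Set.univ i =
    pk fun k => Cy r G s (lkK dm k) i := by
  ext f
  rw [mem_pk]
  constructor
  · rintro ⟨h1, h2⟩ k
    rw [ChK_one] at h1
    refine ⟨mem_pk.1 h1 k, ?_⟩
    show D r (sl k f) = 0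
    rw [← sl_lf, show lf (D r) f = 0 from h2, map_zero]
  · intro h
    refine ⟨?_, ?_⟩
    · rw [ChK_one]
      exact mem_pk.2 fun k => (h k).1
    · show DK r f = 0
      apply sl_ext
      intro k
      unfold DK
      rw [sl_lf, map_zero]
      exact (h k).2

theorem bk_one (i : ℕ) : bk r G s (fun _ => (1 : Equiv.Perm K)) dm Finset.univ Set.univ i =
    ∑ k, bn r G s (lkK dm k) i := by
  unfold bk bn
  rw [vdim_BdK, CyK_one, CyK_one, ChK_one, vdim_pk, vdim_pk, vdim_pk, ← Finset.sum_sub_distrib,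
    ← Finset.sum_sub_distrib]
  refine Finset.sum_congr rfl fun k _ => ?_
  rw [vdim_Bd]

end final

/-- **the chessboard inequality** -/
theorem bk_le_sum {K : Type*} [Fintype K] {V : Type*} [Fintype V] [DecidableEq V] {r : V → ℕ}
    (hr : Function.Injective r) {G : SimpleGraph V} {σ : V → Equiv.Perm K} {dm : V → Set K}
    (hσ : IsSys G σ) (hdm : IsDm G σ dm) (i : ℕ) :
    bk r G (Racg.gen G) σ dm Finset.univ Set.univ i ≤ ∑ k, bet (res G (lkK dm k)) i := by
  have h1 := (bk_le_mir hr hσ hdm Finset.univ i).2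
  rw [mir_univ, bk_one] at h1
  refine h1.trans_eq (Finset.sum_congr rfl fun k _ => ?_)
  exact bn_eq_bet G hr _ i

/-- vanishing -/
theorem CyK_le_BdK_of_links {K : Type*} [Fintype K] {V : Type*} [Fintype V] [DecidableEq V] {r : V → ℕ}
    (hr : Function.Injective r) {G : SimpleGraph V} {σ : V → Equiv.Perm K} {dm : V → Set K}
    (hσ : IsSys G σ) (hdm : IsDm G σ dm) {i : ℕ} (h : ∀ k, bet (res G (lkK dm k)) i = 0) :
    CyK r G (Racg.gen G) σ dm Finset.univ Set.univ i ≤ BdK r G (Racg.gen G) σ dm Finset.univ Set.univ i := by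
  refine CyK_le_BdK _ _ _ _ _ hr (le_antisymm ?_ (bk_nonneg _ _ _ _ _ hr _ _ _))
  refine (bk_le_sum hr hσ hdm i).trans_eq ?_
  exact Finset.sum_eq_zero fun k _ => h k

end Cube
end Singer
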