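import Pool.Agent.Singer.Cube.OmConv
import Pool.Agent.Singer.Hc

/-!
# Singer: cohomology with compact supports of a convex subcomplex of the Davis complex

`ocod_mem`, `ocod_ocod`, `ohc_vanish`, `ohc_gen`, `ohc_inj`: if all links are homology spheres of dimension `n - 1`, then
`H_c^i = 0` for `i ≠ n` and `H_c^n = M`, generated by the cell `W_τ`.

Filtration by the length of the bottom vertex of a cell; the graded pieces are the cochain complexes of the cliques in
the link of `w` which do not meet the set of descents of `w` (this set is a clique in the link of `w`).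
-/

set_option autoImplicit false
set_option linter.unusedSectionVars false
set_option linter.unusedVariables false

namespace Singer
namespace Om

universe u

open Racg Singer.Hc

section on
variable {V : Type u} {G : SimpleGraph V} {Ω : Set (RACG G)}

lemma On.mono {w : RACG G} {S T : Finset V} (h : On Ω (w, T)) (hST : S ⊆ T) : On Ω (w, S) :=
  ⟨h.1, fun t ht => h.2 t (hST ht)⟩

lemma on_gen (hΩ : LC Ω) {w : RACG G} {T : Finset V} (hT : G.IsClique T) {v : V} (hv : v ∈ T) :
    On Ω (w * gen G v, T) ↔ On Ω (w, T) := hΩ.on_mul hT (gen_mem_sub (Finset.mem_coe.2 hv))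

end on

section hc
variable {V : Type u} [Fintype V] [DecidableEq V] {M : Type*} [AddCommGroup M] {G : SimpleGraph V} {r : V → ℕ}
  {Ω : Set (RACG G)}

omit [Fintype V] in
lemma ocod_pos {f : RACG G × Finset V → M} {x : RACG G × Finset V} (hx : On Ω x) :
    ocod Ω r f x = Acod r f x := if_pos hx

omit [Fintype V] in
lemma ocod_neg {f : RACG G × Finset V → M} {x : RACG G × Finset V} (hx : ¬ On Ω x) :
    ocod Ω r f x = 0 := if_neg hx

theorem ocod_mem (hΩ : LC Ω) {i : ℕ} {f : RACG G × Finset V → M} (hf : f ∈ OC M Ω Finset.univ i) :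
    ocod Ω r f ∈ OC M Ω Finset.univ (i + 1) := by
  have h1 := Acod_mem (r := r) hf.1
  have h2 : ∀ x, ocod Ω r f x ≠ 0 → On Ω x ∧ Acod r f x ≠ 0 := by
    intro x hx
    by_cases h : On Ω x
    · exact ⟨h, by rwa [ocod_pos h] at hx⟩
    · exact absurd (ocod_neg h) hx
  refine ⟨⟨h1.1.subset fun x hx => (h2 x hx).2, fun x hx => h1.2.1 x (h2 x hx).2, fun x T v hv => ?_⟩,
    fun x hx => (h2 x hx).1⟩
  by_cases hT : G.IsClique T
  · by_cases h : On Ω (x, T)
    · rw [ocod_pos h, ocod_pos ((on_gen hΩ hT hv).2 h)]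
      exact h1.2.2 x T v hv
    · rw [ocod_neg h, ocod_neg fun h' => h ((on_gen hΩ hT hv).1 h'), neg_zero]
  · have h3 : ∀ y, ocod Ω r f (y, T) = 0 := by
      intro y
      by_contra h4
      exact (h2 _ h4).2 (Acod_apply_not hT)
    rw [h3, h3, neg_zero]

theorem ocod_ocod (hΩ : LC Ω) (hr : Function.Injective r) {i : ℕ} {f : RACG G × Finset V → M}
    (hf : f ∈ OC M Ω Finset.univ i) : ocod Ω r (ocod Ω r f) = 0 := by
  funext ⟨x, T⟩
  show ocod Ω r (ocod Ω r f) (x, T) = 0
  by_cases h : On Ω (x, T)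
  · rw [ocod_pos h]
    by_cases hT : G.IsClique T
    · have h1 : Acod r (Acod r f) (x, T) = 0 := by rw [Acod_Acod hr hf.1]; rfl
      rw [← h1, Acod_apply hT, Acod_apply hT]
      refine Finset.sum_congr rfl fun v hv => ?_
      rw [ocod_pos (h.mono (Finset.erase_subset v T)),
        ocod_pos (((on_gen hΩ hT hv).2 h).mono (Finset.erase_subset v T))]
    · exact Acod_apply_not hT
  · exact ocod_neg h

lemma ocel_mem (hΩ : LC Ω) (m : M) {g : RACG G} {S : Finset V} (hS : G.IsClique S) (hg : On Ω (g, S)) :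
    cel m g S ∈ OC M Ω Finset.univ S.card := by
  refine ⟨cel_mem m g hS, ?_⟩
  rintro ⟨x, T⟩ hx
  have h1 : T = S ∧ g⁻¹ * x ∈ Racg.sub (G := G) (S : Set V) := by
    by_contra h
    exact hx (if_neg h)
  obtain ⟨rfl, h2⟩ := h1
  have h3 := (hΩ.on_mul (w := g) hS h2).2 hg
  rwa [mul_inv_cancel_left] at h3

lemma oext_mem (hΩ : LC Ω) {i : ℕ} {g : RACG G} {c : Finset V → M}
    (hc : ∀ S, c S ≠ 0 → G.IsClique S ∧ S.card = i ∧ On Ω (g, S)) : ext g c ∈ OC M Ω Finset.univ i := by
  refine AddSubgroup.sum_mem _ fun S _ => ?_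
  by_cases h : c S = 0
  · rw [h, cel_zero]
    exact zero_mem _
  · have h1 := ocel_mem hΩ (c S) (hc S h).1 (hc S h).2.2
    rwa [(hc S h).2.1] at h1

lemma OB_le (hΩ : LC Ω) (i : ℕ) : OB M Ω r i ≤ OC M Ω Finset.univ i := by
  cases i with
  | zero => exact bot_le
  | succ i =>
    rintro _ ⟨e, he, rfl⟩
    exact ocod_mem hΩ he

lemma ocod_OB (hΩ : LC Ω) (hr : Function.Injective r) {i : ℕ} {b : RACG G × Finset V → M} (hb : b ∈ OB M Ω r i) :
    ocod Ω r b = 0 := by
  cases i with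
  | zero =>
    have h1 : b = 0 := hb
    rw [h1, map_zero]
  | succ i =>
    obtain ⟨e, he, rfl⟩ := hb
    exact ocod_ocod hΩ hr he

/-- all links are acyclic after the removal of a nonempty clique -/
def LkA (M : Type*) [AddCommGroup M] (r : V → ℕ) (Ω : Set (RACG G)) : Prop :=
  ∀ w ∈ Ω, ∀ σ : Finset V, σ.Nonempty → G.IsClique σ → On Ω (w, σ) →
    Acy M r {S | G.IsClique S ∧ On Ω (w, S) ∧ Disjoint S σ}

/-- one step of the filtration -/
lemma oreduce_step (hΩ : LC Ω) (hr : Function.Injective r) (hac : LkA M r Ω)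
    {i N : ℕ} {f : RACG G × Finset V → M} (hf : f ∈ OC M Ω Finset.univ i) (hN : Bl (N + 1) f)
    (h0 : ∀ x T, (∀ s ∈ T, ¬ Rd s x) → 1 ≤ ln x → ocod Ω r f (x, T) = 0) :
    ∃ b ∈ OB M Ω r i, Bl N (f - b) := by
  classical
  let A : Finset (RACG G) := (hf.1.1.image Prod.fst).toFinset.filter fun g => ln g = N + 1
  have hA : ∀ g T, f (g, T) ≠ 0 → ln g = N + 1 → g ∈ A := fun g T h1 h2 =>
    Finset.mem_filter.2 ⟨(Set.Finite.mem_toFinset _).2 ⟨(g, T), h1, rfl⟩, h2⟩
  have hA' : ∀ g ∈ A, ln g = N + 1 := fun g hg => (Finset.mem_filter.1 hg).2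
  have hAΩ : ∀ g ∈ A, g ∈ Ω := by
    intro g hg
    obtain ⟨⟨x, T⟩, h1, rfl⟩ := (Set.Finite.mem_toFinset _).1 (Finset.mem_filter.1 hg).1
    exact (hf.2 _ h1).1
  have key : ∀ g : RACG G, ∃ e : Finset V → M, g ∈ A →
      (∀ S, e S ≠ 0 → G.IsClique S ∧ (∀ s ∈ S, ¬ Rd s g) ∧ On Ω (g, S)) ∧
      (∀ S, e S ≠ 0 → S.card + 1 = i) ∧ ∀ T : Finset V, G.IsClique T → (∀ s ∈ T, ¬ Rd s g) → On Ω (g, T) →
        dl r e T = f (g, T) := by
    intro g
    by_cases hg : g ∈ A
    · have hlg := hA' g hg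
      let σ : Finset V := Finset.univ.filter fun s => Rd s g
      let D : Set (Finset V) := {S | G.IsClique S ∧ On Ω (g, S) ∧ Disjoint S σ}
      have hmem : ∀ S, S ∈ D ↔ G.IsClique S ∧ On Ω (g, S) ∧ ∀ s ∈ S, ¬ Rd s g := by
        intro S
        show G.IsClique S ∧ On Ω (g, S) ∧ Disjoint S σ ↔ _
        rw [Finset.disjoint_left]
        simp [σ]
      have hg1 : g ≠ 1 := by
        rintro rfl
        rw [Hc.ln_one] at hlg
        omega
      have hσ1 : σ.Nonempty := by
        obtain ⟨s, hs⟩ := exists_rd hg1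
        exact ⟨s, by simpa [σ] using hs⟩
      have hσ2 : G.IsClique σ := by
        intro s hs t ht hst
        exact rd_clique hst (by simpa [σ] using hs) (by simpa [σ] using ht)
      have hσ3 : On Ω (g, σ) := hΩ.on_rd (hAΩ g hg) fun t ht => by simpa [σ] using ht
      obtain ⟨e, he0, he⟩ := hac g (hAΩ g hg) σ hσ1 hσ2 hσ3 (fun S => if S ∈ D then f (g, S) else 0)
        (fun S hS => if_neg hS) (by
        intro T hT
        have hT' := (hmem T).1 hT
        rw [dl_restrict hf.1 (g := g) ?_ hT'.1 hT'.2.2, ← ocod_pos hT'.2.1, h0 g T hT'.2.2 (by omega)]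
        · intro v hv
          exact if_pos ((hmem _).2 ⟨hT'.1.subset (by simp), hT'.2.1.mono (Finset.erase_subset v T),
            bot_erase hT'.2.2 v⟩)
        · intro v T' h1 h2
          by_contra h3
          have h4 := hN _ _ h3 h1
          have h5 := ln_mul h2
          omega)
      obtain ⟨e', h1, h2, -⟩ := trunc (i := i) he0 he (by
        intro S hS
        by_cases h : S ∈ D
        · have h3 : f (g, S) ≠ 0 := by
            intro h4
            exact hS (by simp [h, h4])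
          exact (hf.1.2.1 _ h3).2.1
        · exact absurd (if_neg h) hS)
      refine ⟨e', fun _ => ⟨fun S hS => ?_, fun S hS => (h1 S hS).2, fun T hT hT' hT'' => ?_⟩⟩
      · have h3 := (hmem S).1 (h1 S hS).1
        exact ⟨h3.1, h3.2.2, h3.2.1⟩
      · rw [h2 T ((hmem T).2 ⟨hT, hT'', hT'⟩)]
        exact if_pos ((hmem T).2 ⟨hT, hT'', hT'⟩)
    · exact ⟨0, fun h => absurd h hg⟩
  choose e he using key
  cases i with
  | zero =>
    refine ⟨0, rfl, ?_⟩
    rw [sub_zero]
    intro x T hx hb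
    have h1 := hN x T hx hb
    by_contra h2
    have hxA := hA x T hx (by omega)
    have h3 := (he x hxA).2.2 T (hf.1.2.1 _ hx).2.2 hb (hf.2 _ hx)
    refine hx ?_
    rw [← h3]
    refine Finset.sum_eq_zero fun v _ => ?_
    have h4 : e x (T.erase v) = 0 := by
      by_contra h5
      exact absurd ((he x hxA).2.1 _ h5) (by omega)
    rw [h4, smul_zero]
  | succ j =>
    have hmem : ∑ g ∈ A, ext g (e g) ∈ OC M Ω Finset.univ j := by
      refine AddSubgroup.sum_mem _ fun g hg => oext_mem hΩ fun S hS => ⟨((he g hg).1 S hS).1, ?_,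
        ((he g hg).1 S hS).2.2⟩
      have := (he g hg).2.1 S hS
      omega
    refine ⟨ocod Ω r (∑ g ∈ A, ext g (e g)), ⟨_, hmem, rfl⟩, ?_⟩
    intro x T hx hb
    by_contra hlt
    have hlt : N + 1 ≤ ln x := by omega
    by_cases hOn : On Ω (x, T)
    swap
    · refine hx ?_
      rw [Pi.sub_apply, ocod_neg hOn, sub_zero]
      by_contra h2
      exact hOn (hf.2 _ h2)
    by_cases hT : G.IsClique T
    · refine hx ?_
      rw [Pi.sub_apply, ocod_pos hOn, map_sum, Finset.sum_apply]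
      have h1 : ∀ g ∈ A, Acod r (ext g (e g)) (x, T) = if x = g then dl r (e g) T else 0 := fun g hg =>
        Acod_ext_bot (fun S hS => ⟨((he g hg).1 S hS).1, ((he g hg).1 S hS).2.1⟩) hT hb
          (by rw [hA' g hg]; exact hlt) inferInstance
      rw [Finset.sum_congr rfl h1, Finset.sum_ite_eq]
      by_cases hxA : x ∈ A
      · rw [if_pos hxA, (he x hxA).2.2 T hT hb hOn, sub_self]
      · rw [if_neg hxA, sub_zero]
        by_contra h2
        have h3 := hN x T h2 hb
        exact hxA (hA x T h2 (by omega))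
    · refine hx ?_
      rw [Pi.sub_apply, ocod_pos hOn, Acod_apply_not hT, sub_zero]
      by_contra h2
      exact hT (hf.1.2.1 _ h2).2.2

/-- reduction to cochains which live on the cells with bottom `1` -/
lemma oreduce (hΩ : LC Ω) (hr : Function.Injective r) (hac : LkA M r Ω)
    {i : ℕ} {f : RACG G × Finset V → M} (hf : f ∈ OC M Ω Finset.univ i)
    (h0 : ∀ x T, (∀ s ∈ T, ¬ Rd s x) → 1 ≤ ln x → ocod Ω r f (x, T) = 0) :
    ∃ b ∈ OB M Ω r i, Bl 0 (f - b) := by
  obtain ⟨N, hN⟩ := exists_Bl hf.1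
  induction N generalizing f with
  | zero => exact ⟨0, zero_mem _, by rwa [sub_zero]⟩
  | succ N ih =>
    obtain ⟨b, hb, h1⟩ := oreduce_step hΩ hr hac hf hN h0
    obtain ⟨b', hb', h2⟩ := ih (sub_mem hf (OB_le hΩ i hb)) (fun x T hx hl => by
      rw [_root_.map_sub, ocod_OB hΩ hr hb, sub_zero]
      exact h0 x T hx hl) h1
    exact ⟨b + b', add_mem hb hb', by rwa [← sub_sub]⟩

lemma OSph.lkA {n : ℕ} {τ : Finset V} (h : OSph M r Ω n τ) : LkA M r Ω := h.acy

/-- on the cells with bottom `1`: solve on the link of `1` without the facet `τ` -/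
lemma osolve (hΩ : LC Ω) {n : ℕ} {τ : Finset V} (h : OSph M r Ω n τ) {i : ℕ} {f : RACG G × Finset V → M}
    (hf : f ∈ OC M Ω Finset.univ i) (hB : Bl 0 f) (h0 : ocod Ω r f = 0) :
    ∃ b ∈ OB M Ω r i, ∃ m : M, f = b + cel m 1 τ ∧ (i ≠ n → m = 0) := by
  classical
  let D : Set (Finset V) := {S | G.IsClique S ∧ On Ω (1, S)} \ {τ}
  have hD : ∀ S, S ∈ D ↔ (G.IsClique S ∧ On Ω (1, S)) ∧ S ≠ τ := fun S => Iff.rfl
  let c : Finset V → M := fun S => if S = τ then 0 else f (1, S)
  have hc0 : ∀ S, S ∉ D → c S = 0 := by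
    intro S hS
    rw [hD] at hS
    by_cases h1 : S = τ
    · exact if_pos h1
    · show (if S = τ then 0 else f (1, S)) = 0
      rw [if_neg h1]
      by_contra h2
      exact hS ⟨⟨(hf.1.2.1 _ h2).2.2, hf.2 _ h2⟩, h1⟩
  have hcd : ∀ T : Finset V, G.IsClique T → On Ω (1, T) → ∀ v ∈ T, c (T.erase v) = f (1, T.erase v) := by
    intro T hT hOn v hv
    refine if_neg fun h1 => ?_
    have h2 := h.dim 1 T hT hOn
    have h3 := h.card
    rw [← h1] at h3
    have h4 := Finset.card_erase_add_one hv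
    omega
  have hdl : ∀ T ∈ D, dl r c T = 0 := by
    intro T hT
    obtain ⟨⟨h1, h2⟩, -⟩ := (hD T).1 hT
    rw [dl_one hf.1 hB h1 (hcd T h1 h2), ← ocod_pos h2, h0]
    rfl
  obtain ⟨e0, he0, he1⟩ := h.fac c hc0 hdl
  obtain ⟨e, h1, h2, h3⟩ := trunc (i := i) he0 he1 (by
    intro S hS
    by_cases hS' : S = τ
    · exact absurd (if_pos hS') hS
    · have h4 : f (1, S) ≠ 0 := by
        intro h5
        refine hS ?_
        show (if S = τ then 0 else f (1, S)) = 0
        rw [if_neg hS', h5]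
      exact (hf.1.2.1 _ h4).2.1)
  have he2 : ∀ S, e S ≠ 0 → G.IsClique S ∧ ∀ s ∈ S, ¬ Rd s (1 : RACG G) := fun S hS =>
    ⟨((hD S).1 (h1 S hS).1).1.1, fun s _ => not_rd_one s⟩
  let m : M := f (1, τ) - dl r e τ
  have hm : i ≠ n → m = 0 := by
    intro hi
    show f (1, τ) - dl r e τ = 0
    rw [h3 τ (by rw [h.card]; exact Ne.symm hi), sub_zero]
    by_contra h4
    exact hi (by rw [← (hf.1.2.1 _ h4).2.1, ← h.card])
  -- the value on the bottom vertices
  have hval : ∀ F : RACG G × Finset V → M, (∀ x, ∀ T : Finset V, (∀ s ∈ T, ¬ Rd s x) → G.IsClique T → On Ω (x, T) →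
      F (x, T) = if x = 1 then dl r e T else 0) →
      F ∈ OC M Ω Finset.univ i → f = F + cel m 1 τ := by
    intro F hF1 hF3
    have hmem : f - F - cel m 1 τ ∈ AC M G Finset.univ i := by
      refine sub_mem (sub_mem hf.1 hF3.1) ?_
      by_cases hi : i = n
      · have := cel_mem m (1 : RACG G) h.clq
        rwa [h.card, ← hi] at this
      · rw [hm hi, cel_zero]
        exact zero_mem _
    have hz := ac_ext hmem (by
      intro x T hx
      show f (x, T) - F (x, T) - cel m 1 τ (x, T) = 0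
      have hcel : cel m (1 : RACG G) τ (x, T) = if x = 1 ∧ T = τ then m else 0 := by
        by_cases hTτ : T = τ
        · subst hTτ
          by_cases hu : (1 : RACG G)⁻¹ * x ∈ Racg.sub (G := G) (T : Set V)
          · have h5 : (1 : RACG G)⁻¹ * x = 1 := eq_one_of_rd (w := 1) h.clq hu fun s hs => by
              rw [one_mul, inv_one, one_mul]
              exact ⟨fun h6 => absurd h6 (hx s hs), fun h6 => absurd h6 (not_rd_one s)⟩
            rw [cel_pos _ hu, h5, map_one]
            rw [inv_one, one_mul] at h5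
            rw [if_pos ⟨h5, rfl⟩]
            simp
          · rw [cel_neg _ hu, if_neg]
            rintro ⟨rfl, -⟩
            exact hu (by simp)
        · rw [cel_apply_ne _ _ _ hTτ, if_neg fun h5 => hTτ h5.2]
      by_cases hT : G.IsClique T ∧ On Ω (x, T)
      · rw [hF1 x T hx hT.1 hT.2]
        rw [hcel]
        by_cases hx1 : x = 1
        · subst hx1
          by_cases hTτ : T = τ
          · subst hTτ
            rw [if_pos rfl, if_pos ⟨rfl, rfl⟩]
            show f (1, T) - dl r e T - (f (1, T) - dl r e T) = 0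
            rw [sub_self]
          · rw [if_pos rfl, if_neg fun h5 => hTτ h5.2, sub_zero, h2 T ((hD T).2 ⟨hT, hTτ⟩)]
            show f (1, T) - (if T = τ then 0 else f (1, T)) = 0
            rw [if_neg hTτ, sub_self]
        · rw [if_neg hx1, if_neg fun h5 => hx1 h5.1, sub_zero, sub_zero]
          by_contra h5
          have h6 := hB x T h5 hx
          have h7 := ln_pos hx1
          omega
      · have h5 : f (x, T) = 0 := by
          by_contra h6
          exact hT ⟨(hf.1.2.1 _ h6).2.2, hf.2 _ h6⟩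
        have h6 : F (x, T) = 0 := by
          by_contra h6
          exact hT ⟨(hF3.1.2.1 _ h6).2.2, hF3.2 _ h6⟩
        rw [h5, h6, hcel, if_neg, sub_zero, sub_zero]
        rintro ⟨rfl, rfl⟩
        exact hT ⟨h.clq, h.on⟩)
    rw [sub_sub, sub_eq_zero] at hz
    exact hz
  cases i with
  | zero =>
    refine ⟨0, zero_mem _, m, ?_, hm⟩
    refine hval 0 ?_ (zero_mem _)
    intro x T _ _ _
    have h4 : dl r e T = 0 := by
      refine Finset.sum_eq_zero fun v _ => ?_
      have h5 : e (T.erase v) = 0 := by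
        by_contra h6
        exact absurd (h1 _ h6).2 (by omega)
      rw [h5, smul_zero]
    rw [h4]
    simp
  | succ j =>
    have hmem : ext (1 : RACG G) e ∈ OC M Ω Finset.univ j := oext_mem hΩ fun S hS =>
      ⟨(he2 S hS).1, by have := (h1 S hS).2; omega, ((hD S).1 (h1 S hS).1).1.2⟩
    refine ⟨ocod Ω r (ext 1 e), ⟨_, hmem, rfl⟩, m, ?_, hm⟩
    refine hval _ ?_ (ocod_mem hΩ hmem)
    intro x T hx hT hOn
    rw [ocod_pos hOn]
    exact Acod_ext_bot he2 hT hx (by rw [Hc.ln_one]; omega) _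

theorem ohc_vanish (hΩ : LC Ω) (hr : Function.Injective r) {n : ℕ} {τ : Finset V} (h : OSph M r Ω n τ) {i : ℕ}
    (hi : i ≠ n) {f : RACG G × Finset V → M} (hf : f ∈ OC M Ω Finset.univ i) (h0 : ocod Ω r f = 0) :
    f ∈ OB M Ω r i := by
  obtain ⟨b, hb, h1⟩ := oreduce hΩ hr h.lkA hf fun x T _ _ => by rw [h0]; rfl
  obtain ⟨b', hb', m, h2, h3⟩ := osolve hΩ h (sub_mem hf (OB_le hΩ i hb)) h1 (by
    rw [_root_.map_sub, h0, ocod_OB hΩ hr hb, sub_zero])
  rw [h3 hi, cel_zero, add_zero] at h2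
  rw [sub_eq_iff_eq_add.1 h2]
  exact add_mem hb' hb

theorem ohc_gen (hΩ : LC Ω) (hr : Function.Injective r) {n : ℕ} {τ : Finset V} (h : OSph M r Ω n τ)
    {f : RACG G × Finset V → M} (hf : f ∈ OC M Ω Finset.univ n) : ∃ m : M, f - cel m 1 τ ∈ OB M Ω r n := by
  have h0 : ocod Ω r f = 0 := by
    funext x
    by_contra h1
    have h2 := ocod_mem (r := r) hΩ hf
    have h3 := h2.1.2.1 x h1
    have h4 := h.dim x.1 x.2 h3.2.2 (h2.2 x h1)
    omega
  obtain ⟨b, hb, h1⟩ := oreduce hΩ hr h.lkA hf fun x T _ _ => by rw [h0]; rfl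
  obtain ⟨b', hb', m, h2, -⟩ := osolve hΩ h (sub_mem hf (OB_le hΩ n hb)) h1 (by
    rw [_root_.map_sub, h0, ocod_OB hΩ hr hb, sub_zero])
  refine ⟨m, ?_⟩
  have h3 : f - cel m 1 τ = b' + b := by
    rw [sub_eq_iff_eq_add] at h2 ⊢
    rw [h2]
    abel
  rw [h3]
  exact add_mem hb' hb

theorem ohc_inj (hΩ : LC Ω) (hr : Function.Injective r) {n : ℕ} {τ : Finset V} (h : OSph M r Ω n τ) {m : M}
    (hm : cel (G := G) m 1 τ ∈ OB M Ω r n) : m = 0 := by
  classical
  have hval : cel (G := G) m 1 τ (1, τ) = m := by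
    rw [cel_pos m (by simp), mul_one, inv_one, map_one]
    simp
  cases n with
  | zero =>
    have h1 : cel (G := G) m 1 τ = 0 := hm
    rw [← hval, h1]
    rfl
  | succ j =>
    obtain ⟨e, he, h1⟩ := hm
    have hcel : ∀ x T, (∀ s ∈ T, ¬ Rd s x) → ¬ (x = 1 ∧ T = τ) → cel (G := G) m 1 τ (x, T) = 0 := by
      intro x T hx hne
      by_cases hTτ : T = τ
      · subst hTτ
        refine cel_neg _ fun hu => hne ⟨?_, rfl⟩
        have h5 : (1 : RACG G)⁻¹ * x = 1 := eq_one_of_rd (w := 1) h.clq hu fun s hs => by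
          rw [one_mul, inv_one, one_mul]
          exact ⟨fun h6 => absurd h6 (hx s hs), fun h6 => absurd h6 (not_rd_one s)⟩
        rwa [inv_one, one_mul] at h5
      · exact cel_apply_ne _ _ _ hTτ
    obtain ⟨b, hb, h2⟩ := oreduce hΩ hr h.lkA he fun x T hx hl => by
      rw [h1]
      refine hcel x T hx ?_
      rintro ⟨rfl, -⟩
      rw [Hc.ln_one] at hl
      omega
    have he' : e - b ∈ OC M Ω Finset.univ j := sub_mem he (OB_le hΩ j hb)
    have h3 : ocod Ω r (e - b) = cel m 1 τ := by rw [_root_.map_sub, ocod_OB hΩ hr hb, sub_zero, h1]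
    have hdl : ∀ T : Finset V, G.IsClique T → On Ω (1, T) →
        dl r (fun S => (e - b) (1, S)) T = cel (G := G) m 1 τ (1, T) := by
      intro T hT hOn
      rw [dl_one he'.1 h2 hT fun _ _ => rfl, ← ocod_pos hOn, h3]
    let D : Set (Finset V) := {S | G.IsClique S ∧ On Ω (1, S)} \ {τ}
    have hD : ∀ S, S ∈ D ↔ (G.IsClique S ∧ On Ω (1, S)) ∧ S ≠ τ := fun S => Iff.rfl
    obtain ⟨e0, he0, he1⟩ := h.fac (fun S => (e - b) (1, S)) (by
      intro S hS
      by_contra h4
      have h5 := he'.1.2.1 _ h4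
      refine hS ((hD S).2 ⟨⟨h5.2.2, he'.2 _ h4⟩, ?_⟩)
      rintro rfl
      have h6 := h.card
      have h7 : S.card = j := h5.2.1
      omega) (by
      intro T hT
      obtain ⟨⟨h5, h6⟩, h7⟩ := (hD T).1 hT
      rw [hdl T h5 h6]
      exact cel_apply_ne _ _ _ h7)
    rw [← hval, ← hdl τ h.clq h.on, ← dl_dl hr e0 τ]
    refine Finset.sum_congr rfl fun v hv => ?_
    rw [he1 (τ.erase v)]
    refine (hD _).2 ⟨⟨h.clq.subset (by simp), h.on.mono (Finset.erase_subset v τ)⟩, fun h4 => ?_⟩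
    have h5 := Finset.card_erase_add_one hv
    rw [h4] at h5
    omega

end hc

end Om
end Singer
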