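import Pool.Agent.Singer.Cube.OmEx
import Pool.Agent.Singer.Cube.OmHc
import Pool.Agent.Singer.PD

/-!
# Singer, convex subcomplexes of the Davis complex: the free resolution of a group which acts freely

`H` acts freely on the cells of the subcomplex on `Ω`, given with an `OFrame`.
`OFrame.psi` : the chains in coordinates; `opdRes` : the resolution.
-/

set_option autoImplicit false
set_option linter.unusedSectionVars false
set_option linter.unusedVariables false

namespace Singer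
namespace Om

universe u

open Racg

section frame
variable {V : Type u} [DecidableEq V] {G : SimpleGraph V} {Ω : Set (RACG G)} {H : Subgroup (RACG G)}

/-- the basis of the chains of degree `i` -/
abbrev OFrame.J (F : OFrame Ω H) (i : ℕ) : Type u :=
  Σ S : {S : Finset V // G.IsClique S ∧ S.card = i}, F.O S.1

noncomputable instance [Fintype V] (F : OFrame Ω H) (i : ℕ) : Fintype (F.J i) := by classical exact inferInstance

/-- the set of cells is invariant -/
lemma OFrame.on_mul (F : OFrame Ω H) {S : Finset V} (hS : G.IsClique S) (h : H)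
    (u : Racg.sub (G := G) (S : Set V)) {g : RACG G} (hg : On Ω (g, S)) : On Ω (h * g * u, S) := by
  obtain ⟨⟨h0, o, u0⟩, h1⟩ := (F.e S hS).surjective ⟨g, hg⟩
  have h2 : (h0 : RACG G) * F.t S o * u0 = g := by
    rw [← F.e_apply S hS h0 o u0, h1]
  have h3 := (F.e S hS (h * h0, o, u0 * u)).2
  rw [F.e_apply, Subgroup.coe_mul, Subgroup.coe_mul] at h3
  have h4 : (h : RACG G) * g * u = h * h0 * F.t S o * (u0 * u) := by
    rw [← h2]
    simp only [mul_assoc]
  rw [h4]
  exact h3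

lemma OFrame.on_left (F : OFrame Ω H) {S : Finset V} (hS : G.IsClique S) (h : H) {g : RACG G} :
    On Ω (h * g, S) ↔ On Ω (g, S) := by
  constructor
  · intro h1
    have h2 := F.on_mul hS h⁻¹ 1 h1
    rwa [Subgroup.coe_one, mul_one, Subgroup.coe_inv, inv_mul_cancel_left] at h2
  · intro h1
    have h2 := F.on_mul hS h 1 h1
    rwa [Subgroup.coe_one, mul_one] at h2

lemma OFrame.on_right (F : OFrame Ω H) {S : Finset V} (hS : G.IsClique S) {u : RACG G}
    (hu : u ∈ Racg.sub (G := G) (S : Set V)) {g : RACG G} : On Ω (g * u, S) ↔ On Ω (g, S) := by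
  constructor
  · intro h1
    have h2 := F.on_mul hS 1 (⟨u, hu⟩⁻¹) h1
    rwa [Subgroup.coe_one, one_mul, Subgroup.coe_inv, mul_inv_cancel_right] at h2
  · intro h1
    have h2 := F.on_mul hS 1 ⟨u, hu⟩ h1
    rwa [Subgroup.coe_one, one_mul] at h2

lemma OFrame.on_t (F : OFrame Ω H) {S : Finset V} (hS : G.IsClique S) (o : F.O S) : On Ω (F.t S o, S) := by
  have h3 := (F.e S hS (1, o, 1)).2
  rwa [F.e_apply, Subgroup.coe_one, Subgroup.coe_one, one_mul, mul_one] at h3

/-- the coordinates of an element of the group -/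
noncomputable def OFrame.c (F : OFrame Ω H) {S : Finset V} (hS : G.IsClique S) (g : RACG G) (hg : On Ω (g, S)) :
    H × F.O S × Racg.sub (G := G) (S : Set V) := (F.e S hS).symm ⟨g, hg⟩

lemma OFrame.c_spec (F : OFrame Ω H) {S : Finset V} (hS : G.IsClique S) (g : RACG G) (hg : On Ω (g, S)) :
    ((F.c hS g hg).1 : RACG G) * F.t S (F.c hS g hg).2.1 * (F.c hS g hg).2.2 = g := by
  have h := F.e_apply S hS (F.c hS g hg).1 (F.c hS g hg).2.1 (F.c hS g hg).2.2
  rw [← h]
  exact congrArg Subtype.val ((F.e S hS).apply_symm_apply ⟨g, hg⟩)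

lemma OFrame.c_eq (F : OFrame Ω H) {S : Finset V} (hS : G.IsClique S) (h : H) (o : F.O S)
    (u : Racg.sub (G := G) (S : Set V)) (hg : On Ω (h * F.t S o * u, S)) :
    F.c hS (h * F.t S o * u) hg = (h, o, u) := by
  unfold OFrame.c
  rw [Equiv.symm_apply_eq]
  exact Subtype.ext (F.e_apply S hS h o u).symm

lemma OFrame.c_mul (F : OFrame Ω H) {S : Finset V} (hS : G.IsClique S) (g : RACG G) (h : H)
    (u : Racg.sub (G := G) (S : Set V)) (hg : On Ω (g, S)) (hg' : On Ω (h * g * u, S)) :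
    F.c hS (h * g * u) hg' = (h * (F.c hS g hg).1, (F.c hS g hg).2.1, (F.c hS g hg).2.2 * u) := by
  unfold OFrame.c
  rw [Equiv.symm_apply_eq]
  apply Subtype.ext
  rw [F.e_apply]
  show (h : RACG G) * g * u = _
  have h1 := F.c_spec hS g hg
  unfold OFrame.c at h1
  conv_lhs => rw [← h1]
  rw [Subgroup.coe_mul, Subgroup.coe_mul]
  simp only [mul_assoc]

open Classical in
/-- the chain with the coordinates `x` -/
noncomputable def OFrame.fn (F : OFrame Ω H) (i : ℕ) (x : F.J i → ZG H) (y : RACG G × Finset V) : ℤ :=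
  if h : (G.IsClique y.2 ∧ y.2.card = i) ∧ On Ω y then
    ((sgW G ((F.c h.1.1 y.1 h.2).2.2 : RACG G) : ℤˣ) : ℤ) *
      (x ⟨⟨y.2, h.1⟩, (F.c h.1.1 y.1 h.2).2.1⟩).coeff (F.c h.1.1 y.1 h.2).1
  else 0

lemma OFrame.fn_apply (F : OFrame Ω H) {i : ℕ} (x : F.J i → ZG H) {S : Finset V} (h : G.IsClique S ∧ S.card = i)
    (g : RACG G) (hg : On Ω (g, S)) : F.fn i x (g, S) = ((sgW G ((F.c h.1 g hg).2.2 : RACG G) : ℤˣ) : ℤ) *
      (x ⟨⟨S, h⟩, (F.c h.1 g hg).2.1⟩).coeff (F.c h.1 g hg).1 :=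
  dif_pos (c := (G.IsClique S ∧ S.card = i) ∧ On Ω (g, S)) ⟨h, hg⟩

lemma OFrame.fn_neg (F : OFrame Ω H) {i : ℕ} (x : F.J i → ZG H) {S : Finset V} {g : RACG G}
    (h : ¬ ((G.IsClique S ∧ S.card = i) ∧ On Ω (g, S))) : F.fn i x (g, S) = 0 :=
  dif_neg h

lemma OFrame.fn_mul (F : OFrame Ω H) {i : ℕ} (x : F.J i → ZG H) (h : H) (j : F.J i)
    (u : Racg.sub (G := G) (j.1.1 : Set V)) :
    F.fn i x (h * F.t j.1.1 j.2 * u, j.1.1) = ((sgW G (u : RACG G) : ℤˣ) : ℤ) * (x j).coeff h := by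
  have hg := F.on_mul j.1.2.1 h u (F.on_t j.1.2.1 j.2)
  rw [F.fn_apply x j.1.2 _ hg, F.c_eq j.1.2.1 h j.2 u hg]

lemma OFrame.fn_mem [Fintype V] (F : OFrame Ω H) (i : ℕ) (x : F.J i → ZG H) : F.fn i x ∈ OC ℤ Ω Finset.univ i := by
  classical
  refine ⟨⟨?_, fun y hy => ?_, fun g T v hv => ?_⟩, fun y hy => ?_⟩
  · have hfin : (⋃ j : F.J i, ⋃ h ∈ ((x j).coeff.support : Set H),
        Set.range fun u : Racg.sub (G := G) (j.1.1 : Set V) => ((h : RACG G) * F.t j.1.1 j.2 * u, j.1.1)).Finite := by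
      refine Set.finite_iUnion fun j => Set.Finite.biUnion (Finset.finite_toSet _) fun h _ => ?_
      have := finite_sub j.1.2.1
      exact Set.finite_range _
    refine hfin.subset ?_
    rintro ⟨g, S⟩ hy
    have hy' : F.fn i x (g, S) ≠ 0 := hy
    by_cases h : (G.IsClique S ∧ S.card = i) ∧ On Ω (g, S)
    · rw [F.fn_apply x h.1 g h.2] at hy'
      refine Set.mem_iUnion.2 ⟨⟨⟨S, h.1⟩, (F.c h.1.1 g h.2).2.1⟩, Set.mem_iUnion₂.2 ⟨(F.c h.1.1 g h.2).1, ?_, ?_⟩⟩
      · rw [Finset.mem_coe, Finsupp.mem_support_iff]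
        exact fun h0 => hy' (by rw [h0, mul_zero])
      · exact ⟨(F.c h.1.1 g h.2).2.2, Prod.ext (F.c_spec h.1.1 g h.2) rfl⟩
    · exact absurd (F.fn_neg x h) hy'
  · by_contra hc
    apply hy
    refine dif_neg fun h => hc ⟨Finset.subset_univ _, h.1.2, h.1.1⟩
  · by_cases h : G.IsClique T ∧ T.card = i
    · have hu : Racg.gen G v ∈ Racg.sub (G := G) (T : Set V) := Racg.gen_mem_sub hv
      by_cases hg : On Ω (g, T)
      · have hg' : On Ω (g * Racg.gen G v, T) := (F.on_right h.1 hu).2 hg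
        have hg1 : On Ω (((1 : H) : RACG G) * g * ((⟨Racg.gen G v, hu⟩ : Racg.sub (G := G) (T : Set V)) : RACG G), T) := by
          simpa using hg'
        have h1 := F.c_mul h.1 g 1 ⟨Racg.gen G v, hu⟩ hg hg1
        rw [one_mul] at h1
        have h2 : (((1 : H) : RACG G) * g * ((⟨Racg.gen G v, hu⟩ : Racg.sub (G := G) (T : Set V)) : RACG G)) =
            g * Racg.gen G v := by simp
        have h3 : F.c h.1 (g * Racg.gen G v) hg' = F.c h.1 _ hg1 := by
          congr 1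
          exact h2.symm
        rw [F.fn_apply x h _ hg, F.fn_apply x h _ hg', h3, h1]
        dsimp only
        rw [Subgroup.coe_mul, sgW_gen_mul, neg_mul]
      · have hg' : ¬ On Ω (g * Racg.gen G v, T) := fun h1 => hg ((F.on_right h.1 hu).1 h1)
        rw [F.fn_neg x fun h1 => hg h1.2, F.fn_neg x fun h1 => hg' h1.2, neg_zero]
    · have h1 : ∀ g', F.fn i x (g', T) = 0 := fun g' => F.fn_neg x fun h2 => h h2.1
      rw [h1, h1, neg_zero]
  · by_contra hc
    exact hy (dif_neg fun h => hc h.2)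

/-- the coordinates of a chain -/
noncomputable def OFrame.co [Fintype V] (F : OFrame Ω H) (i : ℕ) (f : OC ℤ Ω Finset.univ i) (j : F.J i) : ZG H :=
  MonoidAlgebra.ofCoeff (Finsupp.ofSupportFinite (fun h : H => (f : RACG G × Finset V → ℤ) (h * F.t j.1.1 j.2, j.1.1)) (by
    refine (f.2.1.1.preimage (f := fun h : H => ((h : RACG G) * F.t j.1.1 j.2, j.1.1)) ?_)
    intro h _ h' _ hh
    have h1 := congrArg Prod.fst hh
    exact Subtype.ext (mul_right_cancel h1)))

lemma OFrame.coeff_co [Fintype V] (F : OFrame Ω H) (i : ℕ) (f : OC ℤ Ω Finset.univ i) (j : F.J i) (h : H) :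
    (F.co i f j).coeff h = (f : RACG G × Finset V → ℤ) (h * F.t j.1.1 j.2, j.1.1) := rfl

/-- chains in coordinates -/
noncomputable def OFrame.psi [Fintype V] (F : OFrame Ω H) (i : ℕ) : (F.J i → ZG H) ≃+ OC ℤ Ω Finset.univ i where
  toFun x := ⟨F.fn i x, F.fn_mem i x⟩
  invFun f := F.co i f
  left_inv x := by
    funext j
    apply MonoidAlgebra.coeff_injective
    ext h
    rw [F.coeff_co]
    show F.fn i x (h * F.t j.1.1 j.2, j.1.1) = _
    have h1 := F.fn_mul x h j 1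
    rw [Subgroup.coe_one, mul_one, map_one, Units.val_one, one_mul] at h1
    exact h1
  right_inv f := by
    apply Subtype.ext
    funext ⟨g, S⟩
    show F.fn i (F.co i f) (g, S) = (f : RACG G × Finset V → ℤ) (g, S)
    by_cases h : (G.IsClique S ∧ S.card = i) ∧ On Ω (g, S)
    · rw [F.fn_apply _ h.1 g h.2, F.coeff_co]
      dsimp only
      rw [← smul_eq_mul, ← ac_mul f.2.1 (F.c h.1.1 g h.2).2.2.2, F.c_spec h.1.1 g h.2]
    · rw [F.fn_neg _ h]
      by_contra h2
      exact h ⟨⟨(f.2.1.2.1 (g, S) (Ne.symm h2)).2.2, (f.2.1.2.1 (g, S) (Ne.symm h2)).2.1⟩, f.2.2 (g, S) (Ne.symm h2)⟩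
  map_add' x y := by
    apply Subtype.ext
    funext ⟨g, S⟩
    show F.fn i (x + y) (g, S) = F.fn i x (g, S) + F.fn i y (g, S)
    by_cases h : (G.IsClique S ∧ S.card = i) ∧ On Ω (g, S)
    · rw [F.fn_apply _ h.1 g h.2, F.fn_apply _ h.1 g h.2, F.fn_apply _ h.1 g h.2, ← mul_add]
      rfl
    · rw [F.fn_neg _ h, F.fn_neg _ h, F.fn_neg _ h, add_zero]

lemma OFrame.psi_coe [Fintype V] (F : OFrame Ω H) (i : ℕ) (x : F.J i → ZG H) :
    (F.psi i x : RACG G × Finset V → ℤ) = F.fn i x := rfl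

theorem OFrame.psi_smul [Fintype V] (F : OFrame Ω H) {i : ℕ} (x : F.J i → ZG H) (h : H) (g : RACG G) (S : Finset V) :
    (F.psi i (MonoidAlgebra.single h (1 : ℤ) • x) : RACG G × Finset V → ℤ) (g, S) =
      (F.psi i x : RACG G × Finset V → ℤ) ((h : RACG G)⁻¹ * g, S) := by
  rw [F.psi_coe, F.psi_coe]
  by_cases hS : G.IsClique S ∧ S.card = i
  · by_cases hg : On Ω (g, S)
    · have hg' : On Ω ((h : RACG G)⁻¹ * g, S) := by
        have h1 := (F.on_left hS.1 h⁻¹ (g := g)).2 hg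
        rwa [Subgroup.coe_inv] at h1
      have hg1 : On Ω (((h⁻¹ : H) : RACG G) * g * ((1 : Racg.sub (G := G) (S : Set V)) : RACG G), S) := by
        rw [Subgroup.coe_one, mul_one, Subgroup.coe_inv]
        exact hg'
      have h1 := F.c_mul hS.1 g h⁻¹ 1 hg hg1
      have h3 : F.c hS.1 ((h : RACG G)⁻¹ * g) hg' = F.c hS.1 _ hg1 := by
        congr 1
        rw [Subgroup.coe_one, mul_one, Subgroup.coe_inv]
      rw [F.fn_apply _ hS g hg, F.fn_apply _ hS _ hg', h3, h1]
      dsimp only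
      rw [mul_one, Pi.smul_apply, smul_eq_mul, coeff_single_smul]
    · have hg' : ¬ On Ω ((h : RACG G)⁻¹ * g, S) := fun h1 => hg (by
        have h2 := (F.on_left hS.1 h (g := (h : RACG G)⁻¹ * g)).2 h1
        rwa [mul_inv_cancel_left] at h2)
      rw [F.fn_neg _ fun h1 => hg h1.2, F.fn_neg _ fun h1 => hg' h1.2]
  · have h1 : ∀ z g', F.fn i z (g', S) = 0 := fun z g' => F.fn_neg z fun h2 => hS h2.1
    rw [h1, h1]

end frame

/-! ### the resolution -/

section res
variable {V : Type u} [Fintype V] [DecidableEq V] {G : SimpleGraph V} {Ω : Set (RACG G)} {H : Subgroup (RACG G)}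

/-- the boundary on chains -/
def ocD (Ω : Set (RACG G)) (r : V → ℕ) (i : ℕ) : OC ℤ Ω Finset.univ (i + 1) →+ OC ℤ Ω Finset.univ i where
  toFun f := ⟨AD r f, oD_mem f.2⟩
  map_zero' := Subtype.ext (map_zero _)
  map_add' f g := Subtype.ext (map_add (AD r) (f : RACG G × Finset V → ℤ) g)

lemma ocD_coe (r : V → ℕ) (i : ℕ) (f : OC ℤ Ω Finset.univ (i + 1)) :
    (ocD Ω r i f : RACG G × Finset V → ℤ) = AD r f := rfl

lemma OFrame.psi_smul' (F : OFrame Ω H) {i : ℕ} (x : F.J i → ZG H) (h : H) :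
    (F.psi i (MonoidAlgebra.single h (1 : ℤ) • x) : RACG G × Finset V → ℤ) =
      fun y => (F.psi i x : RACG G × Finset V → ℤ) ((h : RACG G)⁻¹ * y.1, y.2) :=
  funext fun y => F.psi_smul x h y.1 y.2

/-- the differential in coordinates, as an additive map -/
noncomputable def OFrame.d0 (F : OFrame Ω H) (r : V → ℕ) (i : ℕ) : (F.J (i + 1) → ZG H) →+ (F.J i → ZG H) :=
  ((F.psi i).symm.toAddMonoidHom.comp (ocD Ω r i)).comp (F.psi (i + 1)).toAddMonoidHom

lemma OFrame.psi_d0 (F : OFrame Ω H) (r : V → ℕ) (i : ℕ) (x : F.J (i + 1) → ZG H) :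
    F.psi i (F.d0 r i x) = ocD Ω r i (F.psi (i + 1) x) := by
  show F.psi i ((F.psi i).symm (ocD Ω r i (F.psi (i + 1) x))) = _
  rw [AddEquiv.apply_symm_apply]

lemma OFrame.d0_smul (F : OFrame Ω H) (r : V → ℕ) (i : ℕ) (h : H) (x : F.J (i + 1) → ZG H) :
    F.d0 r i (MonoidAlgebra.single h (1 : ℤ) • x) = MonoidAlgebra.single h (1 : ℤ) • F.d0 r i x := by
  apply (F.psi i).injective
  apply Subtype.ext
  rw [F.psi_d0, F.psi_smul', F.psi_d0, ocD_coe, F.psi_smul', AD_trans, ocD_coe]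

/-- the differential in coordinates -/
noncomputable def OFrame.dd (F : OFrame Ω H) (r : V → ℕ) (i : ℕ) : (F.J (i + 1) → ZG H) →ₗ[ZG H] (F.J i → ZG H) :=
  linOf (F.d0 r i) (F.d0_smul r i)

lemma OFrame.psi_dd (F : OFrame Ω H) (r : V → ℕ) (i : ℕ) (x : F.J (i + 1) → ZG H) :
    F.psi i (F.dd r i x) = ocD Ω r i (F.psi (i + 1) x) := F.psi_d0 r i x

/-- the augmentation -/
noncomputable def OFrame.ag (F : OFrame Ω H) : (F.J 0 → ZG H) →+ ℤ where
  toFun x := ∑ᶠ g, (F.psi 0 x : RACG G × Finset V → ℤ) (g, ∅)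
  map_zero' := by
    rw [map_zero]
    exact finsum_zero
  map_add' x y := by
    rw [map_add]
    exact finsum_add_distrib (ac_fin (F.psi 0 x).2.1 ∅) (ac_fin (F.psi 0 y).2.1 ∅)

lemma OFrame.ag_apply (F : OFrame Ω H) (x : F.J 0 → ZG H) :
    F.ag x = ∑ᶠ g, (F.psi 0 x : RACG G × Finset V → ℤ) (g, ∅) := rfl

/-- the subcomplex on `Ω` as a resolution of `ℤ` over the group ring of `H` -/
noncomputable def opdRes (hΩ : LC Ω) (F : OFrame Ω H) {r : V → ℕ} (hr : Function.Injective r) : ProjRes H where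
  P i := F.J i → ZG H
  proj i := inferInstance
  fin i := inferInstance
  d i := F.dd r i
  aug := F.ag
  aug_smul h x := by
    rw [F.ag_apply, F.ag_apply, F.psi_smul']
    exact finsum_comp_equiv (Equiv.mulLeft ((h : RACG G)⁻¹)) (f := fun g => (F.psi 0 x : RACG G × Finset V → ℤ) (g, ∅))
  aug_surj m := by
    have h0 : cel m (1 : RACG G) (∅ : Finset V) ∈ OC ℤ Ω Finset.univ 0 := by
      refine ⟨cel_mem m 1 (by simp), ?_⟩
      rintro ⟨g, S⟩ hx
      unfold cel at hx
      by_cases h : S = ∅ ∧ (1 : RACG G)⁻¹ * g ∈ Racg.sub (G := G) ((∅ : Finset V) : Set V)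
      · obtain ⟨rfl, h2⟩ := h
        rw [inv_one, one_mul] at h2
        rw [sub_empty' g h2]
        exact ⟨hΩ.one, by simp⟩
      · exact absurd (if_neg h) hx
    refine ⟨(F.psi 0).symm ⟨_, h0⟩, ?_⟩
    rw [F.ag_apply, AddEquiv.apply_symm_apply]
    exact finsum_cel m
  exact_zero x := by
    rw [F.ag_apply, oc_exact_zero hΩ hr (F.psi 0 x).2]
    constructor
    · rintro ⟨h, hh, hd⟩
      refine ⟨(F.psi 1).symm ⟨h, hh⟩, ?_⟩
      apply (F.psi 0).injective
      apply Subtype.ext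
      rw [F.psi_dd, AddEquiv.apply_symm_apply]
      exact hd
    · rintro ⟨y, hy⟩
      refine ⟨F.psi 1 y, (F.psi 1 y).2, ?_⟩
      have h1 := F.psi_dd r 0 y
      rw [hy] at h1
      rw [h1]
      rfl
  exact_succ i x := by
    constructor
    · intro h
      have h1 := F.psi_dd r i x
      rw [h, map_zero] at h1
      have h2 : AD r (F.psi (i + 1) x : RACG G × Finset V → ℤ) = 0 := (congrArg Subtype.val h1).symm
      obtain ⟨k, hk, hkd⟩ := oc_exact_succ hΩ hr (F.psi (i + 1) x).2 h2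
      refine ⟨(F.psi (i + 2)).symm ⟨k, hk⟩, ?_⟩
      apply (F.psi (i + 1)).injective
      apply Subtype.ext
      rw [F.psi_dd, AddEquiv.apply_symm_apply]
      exact hkd
    · rintro ⟨y, rfl⟩
      apply (F.psi i).injective
      apply Subtype.ext
      rw [F.psi_dd, F.psi_dd, map_zero, ocD_coe, ocD_coe]
      exact AD_AD hr _

end res

end Om
end Singer
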