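import Pool.Agent.Singer.TDefs
import Pool.Agent.Singer.Desc
import Pool.Agent.Singer.FinStmt

/-!
# Singer: convex subcomplexes of the Davis complex

* `LC Ω` : the set `Ω` of vertices of the Davis complex contains `1`, it is connected and locally convex;
* `On Ω (w, T)` : the cell `w W_T` is a cell of the full subcomplex on `Ω`;
* `OC`, `ocod`, `OB` : finitely supported chains of this subcomplex, the coboundary, the coboundaries;
* `OSph` : all links of the subcomplex are homology spheres;
* `Coc Ω H` : the subgroup `H` preserves `Ω` and has finitely many orbits of vertices;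
* `OFrame Ω H` : representatives of the orbits of cells.
-/

set_option autoImplicit false
set_option linter.unusedSectionVars false
set_option linter.unusedVariables false

namespace Singer
namespace Om

universe u

open Racg

section
variable {V : Type u} {G : SimpleGraph V}

/-- the set `Ω` contains `1`, every element of `Ω` is the end of a path in `Ω` which starts at `1`, and the fourth vertex
of a square is in `Ω` if the three others are -/
structure LC (Ω : Set (RACG G)) : Prop where
  one : (1 : RACG G) ∈ Ω
  conn : ∀ w ∈ Ω, ∃ l : List V, wd l = w ∧ ∀ m : List V, m <+: l → wd (G := G) m ∈ Ω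
  sq : ∀ w ∈ Ω, ∀ u v, G.Adj u v → w * gen G u ∈ Ω → w * gen G v ∈ Ω → w * gen G u * gen G v ∈ Ω

/-- the cell `x.1 W_(x.2)` is a cell of the full subcomplex on `Ω` -/
def On (Ω : Set (RACG G)) (x : RACG G × Finset V) : Prop := x.1 ∈ Ω ∧ ∀ t ∈ x.2, x.1 * gen G t ∈ Ω

/-- the link of `w` : the directions of the edges of `Ω` at `w` -/
noncomputable def dir [Fintype V] (Ω : Set (RACG G)) (w : RACG G) : Finset V := by
  classical
  exact Finset.univ.filter fun v => w * gen G v ∈ Ω

lemma mem_dir [Fintype V] {Ω : Set (RACG G)} {w : RACG G} {v : V} : v ∈ dir Ω w ↔ w * gen G v ∈ Ω := by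
  classical
  unfold dir
  simp

/-- the subgroup `H` preserves `Ω` and has finitely many orbits -/
structure Coc (Ω : Set (RACG G)) (H : Subgroup (RACG G)) : Prop where
  act : ∀ g ∈ H, ∀ w ∈ Ω, g * w ∈ Ω
  fin : ∃ F : Set (RACG G), F.Finite ∧ ∀ w ∈ Ω, ∃ g ∈ H, ∃ f ∈ F, w = g * f

variable [DecidableEq V]

/-- finitely supported chains of the subcomplex -/
def OC (M : Type*) [AddCommGroup M] (Ω : Set (RACG G)) (A : Finset V) (i : ℕ) : AddSubgroup (RACG G × Finset V → M) where
  carrier := {f | f ∈ AC M G A i ∧ ∀ x, f x ≠ 0 → On Ω x}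
  zero_mem' := ⟨zero_mem _, fun x hx => absurd rfl hx⟩
  add_mem' := by
    rintro f h ⟨hf1, hf2⟩ ⟨hh1, hh2⟩
    refine ⟨add_mem hf1 hh1, fun x hx => ?_⟩
    by_cases h1 : f x = 0
    · refine hh2 x fun h2 => hx ?_
      rw [Pi.add_apply, h1, h2, add_zero]
    · exact hf2 x h1
  neg_mem' := by
    rintro f ⟨hf1, hf2⟩
    refine ⟨neg_mem hf1, fun x hx => hf2 x fun h0 => hx ?_⟩
    rw [Pi.neg_apply, h0, neg_zero]

variable {M : Type*} [AddCommGroup M]

open Classical in
/-- the coboundary of the subcomplex -/
noncomputable def ocod (Ω : Set (RACG G)) (r : V → ℕ) : (RACG G × Finset V → M) →+ (RACG G × Finset V → M) where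
  toFun f := fun x => if On Ω x then Acod r f x else 0
  map_zero' := by
    funext x
    rw [map_zero]
    simp
  map_add' f h := by
    funext x
    rw [map_add]
    by_cases hx : On Ω x
    · simp [if_pos hx]
    · simp [if_neg hx]

/-- the coboundaries of finitely supported cochains of the subcomplex -/
noncomputable def OB (M : Type*) [AddCommGroup M] [Fintype V] (Ω : Set (RACG G)) (r : V → ℕ) :
    ℕ → AddSubgroup (RACG G × Finset V → M)
  | 0 => ⊥
  | i + 1 => (OC M Ω Finset.univ i).map (ocod Ω r)

/-- the links of the subcomplex are homology spheres; `τ` is a facet of the link of `1` -/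
structure OSph (M : Type*) [AddCommGroup M] (r : V → ℕ) (Ω : Set (RACG G)) (n : ℕ) (τ : Finset V) : Prop where
  acy : ∀ w ∈ Ω, ∀ σ : Finset V, σ.Nonempty → G.IsClique σ → On Ω (w, σ) →
    Acy M r {S | G.IsClique S ∧ On Ω (w, S) ∧ Disjoint S σ}
  clq : G.IsClique τ
  card : τ.card = n
  on : On Ω (1, τ)
  fac : Acy M r ({S | G.IsClique S ∧ On Ω (1, S)} \ {τ})
  dim : ∀ w : RACG G, ∀ S : Finset V, G.IsClique S → On Ω (w, S) → S.card ≤ n

/-- coordinates for a subgroup which acts freely on the cells of the subcomplex -/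
structure OFrame (Ω : Set (RACG G)) (H : Subgroup (RACG G)) where
  /-- the orbits of cells of type `S` -/
  O : Finset V → Type u
  [fin : ∀ S, Fintype (O S)]
  /-- representatives -/
  t : ∀ S, O S → RACG G
  /-- coordinates -/
  e : ∀ S : Finset V, G.IsClique S → (H × O S × Racg.sub (G := G) (S : Set V)) ≃ {w : RACG G // On Ω (w, S)}
  e_apply : ∀ (S : Finset V) (hS : G.IsClique S) (h : H) (o : O S) (u : Racg.sub (G := G) (S : Set V)),
    (e S hS (h, o, u) : RACG G) = h * t S o * u

attribute [instance] OFrame.fin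

end

end Om
end Singer
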