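import Pool.Agent.Singer.Cube.OmConv
import Pool.Agent.Singer.DavisEx

/-!
# Singer: exactness of the chain complex of a convex subcomplex of the Davis complex

`oD_mem`, `oc_exact_succ`, `oc_exact_zero`, for coefficients in an arbitrary abelian group.

Filtration by the length of the top vertex of a cell: all cells of the Davis complex with a top vertex `w ∈ Ω` are in the
subcomplex.
-/

set_option autoImplicit false
set_option linter.unusedSectionVars false
set_option linter.unusedVariables false

namespace Singer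
namespace Om

universe u

open Racg Singer.Hc

section ex
variable {V : Type u} [Fintype V] [DecidableEq V] {M : Type*} [AddCommGroup M] {G : SimpleGraph V} {r : V → ℕ}
  {Ω : Set (RACG G)}

theorem oD_mem {A : Finset V} {i : ℕ} {f : RACG G × Finset V → M} (hf : f ∈ OC M Ω A (i + 1)) :
    AD r f ∈ OC M Ω A i := by
  refine ⟨AD_mem hf.1, ?_⟩
  rintro ⟨x, T⟩ hx
  obtain ⟨v, hv, hne⟩ := Finset.exists_ne_zero_of_sum_ne_zero hx
  have h1 : f (x, insert v T) ≠ 0 := by
    intro h1
    apply hne
    dsimp only
    rw [h1, smul_zero]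
  obtain ⟨h2, h3⟩ := hf.2 _ h1
  exact ⟨h2, fun t ht => h3 t (Finset.mem_insert_of_mem ht)⟩

/-- one step of the filtration -/
lemma ex_step (hΩ : LC Ω) (hr : Function.Injective r) {A : Finset V} {i N : ℕ} {f : RACG G × Finset V → M}
    (hf : f ∈ OC M Ω A i) (h0 : AD r f = 0) (hN : Tl (N + 1) f)
    (ha : ∀ x T, f (x, T) ≠ 0 → (∀ s ∈ T, Rd s x) → ln x = N + 1 → ∃ a ∈ A, Rd a x) :
    ∃ h ∈ OC M Ω A (i + 1), Tl N (f - AD r h) := by
  classical
  let B : Finset (RACG G) := (hf.1.1.image Prod.fst).toFinset.filter fun g => ln g = N + 1 ∧ ∃ a ∈ A, Rd a g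
  have hB : ∀ g T, f (g, T) ≠ 0 → ln g = N + 1 → (∃ a ∈ A, Rd a g) → g ∈ B := fun g T h1 h2 h3 =>
    Finset.mem_filter.2 ⟨(Set.Finite.mem_toFinset _).2 ⟨(g, T), h1, rfl⟩, h2, h3⟩
  have hB' : ∀ g ∈ B, ln g = N + 1 := fun g hg => (Finset.mem_filter.1 hg).2.1
  have key : ∀ g : RACG G, ∃ e : Finset V → M, g ∈ B → (∀ S, e S ≠ 0 → G.IsClique S ∧ ∀ s ∈ S, Rd s g) ∧
      (∀ S, e S ≠ 0 → S ⊆ A ∧ S.card = i + 1) ∧ ∀ T : Finset V, (∀ s ∈ T, Rd s g) →
        ∑ v ∈ Tᶜ, sgz r v T • e (insert v T) = f (g, T) := by
    intro g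
    by_cases hg : g ∈ B
    swap
    · exact ⟨0, fun h => absurd h hg⟩
    have hlg := hB' g hg
    obtain ⟨a, haA, hag⟩ := (Finset.mem_filter.1 hg).2.2
    let e : Finset V → M := fun S => if a ∈ S ∧ ∀ s ∈ S, Rd s g then sgz r a (S.erase a) • f (g, S.erase a) else 0
    have he1 : ∀ S, e S ≠ 0 → (a ∈ S ∧ ∀ s ∈ S, Rd s g) ∧ f (g, S.erase a) ≠ 0 := by
      intro S hS
      by_cases h : a ∈ S ∧ ∀ s ∈ S, Rd s g
      · refine ⟨h, fun h1 => hS ?_⟩
        show (if a ∈ S ∧ ∀ s ∈ S, Rd s g then sgz r a (S.erase a) • f (g, S.erase a) else 0) = 0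
        rw [h1, smul_zero, ite_self]
      · exact absurd (if_neg h) hS
    refine ⟨e, fun _ => ⟨fun S hS => ?_, fun S hS => ?_, fun T hT => ?_⟩⟩
    · obtain ⟨⟨h1, h2⟩, h3⟩ := he1 S hS
      refine ⟨fun s hs t ht hst => rd_clique hst (h2 s (Finset.mem_coe.1 hs)) (h2 t (Finset.mem_coe.1 ht)), h2⟩
    · obtain ⟨⟨h1, h2⟩, h3⟩ := he1 S hS
      obtain ⟨h4, h5, -⟩ := hf.1.2.1 _ h3
      constructor
      · intro s hs
        by_cases hsa : s = a
        · rw [hsa]
          exact haA
        · exact h4 (Finset.mem_erase.2 ⟨hsa, hs⟩)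
      · have h5' : (S.erase a).card = i := h5
        rw [← Finset.card_erase_add_one h1, h5']
    · by_cases haT : a ∈ T
      · have hins : insert a (T.erase a) = T := Finset.insert_erase haT
        have hcomp : (T.erase a)ᶜ = insert a Tᶜ := by
          ext v
          simp only [Finset.mem_compl, Finset.mem_erase, Finset.mem_insert]
          tauto
        have hcyc : ∑ w ∈ (T.erase a)ᶜ, sgz r w (T.erase a) • f (g, insert w (T.erase a)) = 0 := by
          have := congrFun h0 (g, T.erase a)
          exact this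
        rw [hcomp, Finset.sum_insert (by simpa using haT), hins] at hcyc
        have hterm : ∀ w ∈ Tᶜ, sgz r w T • e (insert w T) =
            -(sgz r a (T.erase a) • (sgz r w (T.erase a) • f (g, insert w (T.erase a)))) := by
          intro w hw
          have hwT : w ∉ T := by simpa using hw
          have hwa : w ≠ a := fun h => hwT (h ▸ haT)
          have her : (insert w T).erase a = insert w (T.erase a) := by
            rw [Finset.erase_insert_of_ne hwa]
          by_cases hwg : Rd w g
          · have h1 : e (insert w T) = sgz r a (insert w (T.erase a)) • f (g, insert w (T.erase a)) := by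
              show (if a ∈ insert w T ∧ ∀ s ∈ insert w T, Rd s g then
                sgz r a ((insert w T).erase a) • f (g, (insert w T).erase a) else 0) = _
              rw [if_pos, her]
              refine ⟨Finset.mem_insert_of_mem haT, fun s hs => ?_⟩
              rcases Finset.mem_insert.1 hs with rfl | hs
              · exact hwg
              · exact hT s hs
            have h2 := sgz_anti hr (u := a) (v := w) (T := T.erase a) (by simp) (by simp [hwT]) (Ne.symm hwa)
            rw [hins] at h2
            have h3 := sgz_sq (r := r) a (T.erase a)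
            have h4 := sgz_sq (r := r) a (insert w (T.erase a))
            have h5 : sgz r w T * sgz r a (insert w (T.erase a)) = -(sgz r a (T.erase a) * sgz r w (T.erase a)) := by
              calc sgz r w T * sgz r a (insert w (T.erase a))
                  = (sgz r a (T.erase a) * sgz r a (T.erase a)) * (sgz r w T * sgz r a (insert w (T.erase a))) := by
                    rw [h3, one_mul]
                _ = sgz r a (T.erase a) * (sgz r a (T.erase a) * sgz r w T) * sgz r a (insert w (T.erase a)) := by ring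
                _ = -(sgz r a (T.erase a) * sgz r w (T.erase a)) *
                    (sgz r a (insert w (T.erase a)) * sgz r a (insert w (T.erase a))) := by
                    rw [h2]
                    ring
                _ = _ := by rw [h4, mul_one]
            rw [h1, smul_smul, h5, neg_smul, mul_smul]
          · have h1 : e (insert w T) = 0 := by
              refine if_neg fun h => hwg (h.2 w (Finset.mem_insert_self w T))
            have h2 : f (g, insert w (T.erase a)) = 0 := by
              by_contra h3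
              have hcl : G.IsClique ((insert w (T.erase a) : Finset V) : Set V) := (hf.1.2.1 _ h3).2.2
              have h4 : f (g * gen G w, insert w (T.erase a)) ≠ 0 := by
                rw [hf.1.2.2 g _ w (Finset.mem_insert_self w _)]
                exact neg_ne_zero.2 h3
              have h5 := hN _ _ h4 (by
                intro s hs
                rcases Finset.mem_insert.1 hs with rfl | hs'
                · rw [rd_self]
                  exact hwg
                · have hsT := Finset.mem_of_mem_erase hs'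
                  have hsw : s ≠ w := fun h => hwT (h ▸ hsT)
                  rw [rd_adj (hcl (Finset.mem_coe.2 hs) (by simp) hsw)]
                  exact hT s hsT)
              have h6 := ln_mul hwg
              omega
            rw [h1, h2, smul_zero, smul_zero, smul_zero, neg_zero]
        rw [Finset.sum_congr rfl hterm, Finset.sum_neg_distrib, ← Finset.smul_sum]
        have h6 : ∑ w ∈ Tᶜ, sgz r w (T.erase a) • f (g, insert w (T.erase a)) = -(sgz r a (T.erase a) • f (g, T)) :=
          (neg_eq_of_add_eq_zero_right hcyc).symm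
        rw [h6, smul_neg, neg_neg, smul_smul, sgz_sq, one_smul]
      · rw [Finset.sum_eq_single a]
        · have h1 : e (insert a T) = sgz r a T • f (g, T) := by
            show (if a ∈ insert a T ∧ ∀ s ∈ insert a T, Rd s g then
                sgz r a ((insert a T).erase a) • f (g, (insert a T).erase a) else 0) = _
            rw [if_pos, Finset.erase_insert haT]
            refine ⟨Finset.mem_insert_self a T, fun s hs => ?_⟩
            rcases Finset.mem_insert.1 hs with rfl | hs
            · exact hag
            · exact hT s hs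
          rw [h1, smul_smul, sgz_sq, one_smul]
        · intro v _ hva
          have h1 : e (insert v T) = 0 := by
            refine if_neg fun h => ?_
            rcases Finset.mem_insert.1 h.1 with h2 | h2
            · exact hva h2.symm
            · exact haT h2
          rw [h1, smul_zero]
        · intro h
          exact absurd (Finset.mem_compl.2 haT) h
  choose e he using key
  have hBΩ : ∀ g ∈ B, g ∈ Ω := by
    intro g hg
    have h1 := (Finset.mem_filter.1 hg).1
    rw [Set.Finite.mem_toFinset] at h1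
    obtain ⟨x, hx, rfl⟩ := h1
    exact (hf.2 x hx).1
  have hmem : ∀ g ∈ B, ext g (e g) ∈ OC M Ω A (i + 1) := by
    intro g hg
    have h1 : ext g (e g) ∈ AC M G Finset.univ (i + 1) :=
      ext_mem fun S hS => ⟨((he g hg).1 S hS).1, ((he g hg).2.1 S hS).2⟩
    have h0 : ∀ y T, ext g (e g) (y, T) ≠ 0 → e g T ≠ 0 ∧ g⁻¹ * y ∈ Racg.sub (G := G) (T : Set V) := by
      intro y T hx
      rw [ext_apply] at hx
      constructor
      · intro h3
        apply hx
        rw [h3, cel_zero]
        rfl
      · by_contra h3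
        exact hx (cel_neg _ h3)
    refine ⟨⟨h1.1, fun x hx => ⟨?_, (h1.2.1 x hx).2⟩, h1.2.2⟩, fun x hx => ?_⟩
    · obtain ⟨y, T⟩ := x
      exact ((he g hg).2.1 T (h0 y T hx).1).1
    · obtain ⟨y, T⟩ := x
      obtain ⟨h2, h3⟩ := h0 y T hx
      obtain ⟨h4, h5⟩ := (he g hg).1 T h2
      have h6 := (hΩ.on_mul h4 h3).2 (hΩ.on_rd (hBΩ g hg) h5)
      rwa [mul_inv_cancel_left] at h6
  refine ⟨∑ g ∈ B, ext g (e g), AddSubgroup.sum_mem _ hmem, ?_⟩
  intro x T hx hT
  by_contra hlt
  have hlt : N + 1 ≤ ln x := by omega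
  refine hx ?_
  rw [Pi.sub_apply, map_sum, Finset.sum_apply]
  have h1 : ∀ g ∈ B, AD r (ext g (e g)) (x, T) = if x = g then ∑ v ∈ Tᶜ, sgz r v T • e g (insert v T) else 0 :=
    fun g hg => AD_ext_top (he g hg).1 (by rw [hB' g hg]; exact hlt) inferInstance
  rw [Finset.sum_congr rfl h1, Finset.sum_ite_eq]
  by_cases hxB : x ∈ B
  · rw [if_pos hxB, (he x hxB).2.2 T hT, sub_self]
  · rw [if_neg hxB, sub_zero]
    by_contra h2
    have h3 := hN x T h2 hT
    exact hxB (hB x T h2 (by omega) (ha x T h2 hT (by omega)))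

/-- the filtration -/
lemma ex_reduce (hΩ : LC Ω) (hr : Function.Injective r) {A : Finset V} {i : ℕ} {f : RACG G × Finset V → M}
    (hf : f ∈ OC M Ω A i) (h0 : AD r f = 0)
    (ha : ∀ x : RACG G, ∀ T : Finset V, T ⊆ A → T.card = i → (∀ s ∈ T, Rd s x) → x ≠ 1 → ∃ a ∈ A, Rd a x) :
    ∃ h ∈ OC M Ω A (i + 1), Tl 0 (f - AD r h) := by
  obtain ⟨N, hN⟩ := exists_Tl hf.1
  induction N generalizing f with
  | zero => exact ⟨0, zero_mem _, by rwa [map_zero, sub_zero]⟩
  | succ N ih =>
    obtain ⟨h, hh, h1⟩ := ex_step hΩ hr hf h0 hN fun x T hx hT hl => by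
      obtain ⟨c1, c2, -⟩ := hf.1.2.1 _ hx
      refine ha x T c1 c2 hT ?_
      rintro rfl
      rw [Hc.ln_one] at hl
      omega
    obtain ⟨h', hh', h2⟩ := ih (sub_mem hf (oD_mem hh)) (by rw [_root_.map_sub, h0, AD_AD hr, sub_zero]) h1
    refine ⟨h + h', add_mem hh hh', ?_⟩
    rwa [map_add, ← sub_sub]

theorem oc_exact_succ (hΩ : LC Ω) (hr : Function.Injective r) {A : Finset V} {i : ℕ} {f : RACG G × Finset V → M}
    (hf : f ∈ OC M Ω A (i + 1)) (h0 : AD r f = 0) : ∃ h ∈ OC M Ω A (i + 2), AD r h = f := by
  obtain ⟨h, hh, h1⟩ := ex_reduce hΩ hr hf h0 fun x T hTA hTc hT _ => by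
    obtain ⟨a, haT⟩ := Finset.card_pos.1 (by rw [hTc]; omega : 0 < T.card)
    exact ⟨a, hTA haT, hT a haT⟩
  refine ⟨h, hh, ?_⟩
  have h2 : f - AD r h = 0 := by
    refine ac_ext_top (sub_mem hf (oD_mem hh)).1 fun w S hS => ?_
    by_contra h3
    have h4 := h1 w S h3 hS
    have hw : w = 1 := by
      by_contra h5
      have := ln_pos h5
      omega
    have h5 := ((sub_mem hf (oD_mem hh)).1.2.1 _ h3).2.1
    obtain ⟨a, haS⟩ := Finset.card_pos.1 (by rw [h5]; omega : 0 < S.card)
    have h6 := hS a haS
    rw [hw] at h6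
    exact not_rd_one a h6
  exact (sub_eq_zero.1 h2).symm

theorem oc_exact_zero (hΩ : LC Ω) (hr : Function.Injective r) {f : RACG G × Finset V → M}
    (hf : f ∈ OC M Ω Finset.univ 0) : ∑ᶠ g, f (g, ∅) = 0 ↔ ∃ h ∈ OC M Ω Finset.univ 1, AD r h = f := by
  constructor
  · intro hs
    have h0 : AD r f = 0 := by
      funext ⟨x, T⟩
      refine Finset.sum_eq_zero fun v hv => ?_
      have h1 : f (x, insert v T) = 0 := by
        by_contra h2
        exact absurd (Finset.card_eq_zero.1 (hf.1.2.1 _ h2).2.1) (Finset.insert_ne_empty _ _)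
      dsimp only
      rw [h1, smul_zero]
    obtain ⟨h, hh, h1⟩ := ex_reduce hΩ hr hf h0 fun x T _ _ _ hx => by
      obtain ⟨a, ha⟩ := exists_rd hx
      exact ⟨a, Finset.mem_univ a, ha⟩
    refine ⟨h, hh, ?_⟩
    have hmem := (sub_mem hf (oD_mem (r := r) hh)).1
    have h2 : ∀ x, x ≠ 1 → (f - AD r h) (x, ∅) = 0 := by
      intro x hx
      by_contra h3
      have := h1 x ∅ h3 (by simp)
      have := ln_pos hx
      omega
    have hfin : ∀ {k : RACG G × Finset V → M}, k ∈ AC M G Finset.univ 0 →
        (Function.support fun g => k (g, ∅)).Finite := fun {k} hk =>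
      hk.1.preimage (f := fun g : RACG G => (g, (∅ : Finset V))) (fun a _ b _ hab => congrArg Prod.fst hab)
    have h3 : (f - AD r h) (1, ∅) = 0 := by
      have h4 : ∑ᶠ g, (f - AD r h) (g, ∅) = (f - AD r h) (1, ∅) := finsum_eq_single _ 1 fun g hg => h2 g hg
      rw [← h4]
      have h5 : ∑ᶠ g, (f - AD r h) (g, ∅) = ∑ᶠ g, f (g, ∅) - ∑ᶠ g, AD r h (g, ∅) :=
        finsum_sub_distrib (hfin hf.1) (hfin (AD_mem hh.1))
      rw [h5, hs, finsum_AD hh.1, sub_zero]
    have h4 : f - AD r h = 0 := by
      funext ⟨x, T⟩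
      by_contra h5
      have h6 : T = ∅ := Finset.card_eq_zero.1 (hmem.2.1 _ h5).2.1
      subst h6
      by_cases hx : x = 1
      · subst hx
        exact h5 h3
      · exact h5 (h2 x hx)
    exact (sub_eq_zero.1 h4).symm
  · rintro ⟨h, hh, rfl⟩
    exact finsum_AD hh.1

end ex

end Om
end Singer
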