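import Pool.Agent.Singer.Cube.OmDefs
import Pool.Agent.Singer.Cube.Main

/-!
# Singer: convex subcomplexes of the Davis complex, the orbits of the vertices and the moves
-/

set_option autoImplicit false
set_option linter.unusedSectionVars false
set_option linter.unusedVariables false

namespace Singer
namespace Om

universe u

open Racg Singer.Cube

/-! ### section orb -/

section orb
variable {V : Type u} {G : SimpleGraph V} {Ω : Set (RACG G)} {H : Subgroup (RACG G)}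

/-- the orbits of the vertices of `Ω` -/
def orbS (Ω : Set (RACG G)) (H : Subgroup (RACG G)) : Setoid Ω where
  r x y := ∃ h ∈ H, (y : RACG G) = h * x
  iseqv := by
    refine ⟨fun x => ⟨1, H.one_mem, by simp⟩, ?_, ?_⟩
    · rintro x y ⟨h, hh, hy⟩
      exact ⟨h⁻¹, H.inv_mem hh, by rw [hy]; group⟩
    · rintro x y z ⟨h, hh, hy⟩ ⟨h', hh', hz⟩
      exact ⟨h' * h, H.mul_mem hh' hh, by rw [hz, hy]; group⟩

/-- the set of orbits -/
abbrev K (Ω : Set (RACG G)) (H : Subgroup (RACG G)) : Type u := Quotient (orbS Ω H)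

/-- representatives -/
noncomputable def rep (k : K Ω H) : RACG G := (k.out : RACG G)

lemma rep_mem (k : K Ω H) : rep k ∈ Ω := k.out.2

/-- the orbit of a vertex -/
def ocl (H : Subgroup (RACG G)) (w : RACG G) (hw : w ∈ Ω) : K Ω H := Quotient.mk (orbS Ω H) ⟨w, hw⟩

lemma ocl_eq_iff {w w' : RACG G} {hw : w ∈ Ω} {hw' : w' ∈ Ω} :
    ocl H w hw = ocl H w' hw' ↔ ∃ h ∈ H, w' = h * w := Quotient.eq (r := orbS Ω H)

lemma ocl_rep (k : K Ω H) : ocl H (rep k) (rep_mem k) = k := Quotient.out_eq k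

lemma ocl_congr {w w' : RACG G} {hw : w ∈ Ω} {hw' : w' ∈ Ω} (h : w = w') : ocl H w hw = ocl H w' hw' := by
  subst h
  rfl

lemma exists_rep_ocl {w : RACG G} (hw : w ∈ Ω) : ∃ h ∈ H, h * rep (ocl H w hw) = w := by
  have h1 : ocl H (rep (ocl H w hw)) (rep_mem _) = ocl H w hw := ocl_rep _
  obtain ⟨h, hh, he⟩ := ocl_eq_iff.1 h1
  exact ⟨h, hh, he.symm⟩

/-- there are finitely many orbits -/
theorem finite_K (hC : Coc Ω H) : Finite (K Ω H) := by
  classical
  obtain ⟨F, hF, hw⟩ := hC.fin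
  choose g hg f hf he using fun k : K Ω H => hw (rep k) (rep_mem k)
  have := hF.to_subtype
  refine Finite.of_injective (fun k => (⟨f k, hf k⟩ : F)) fun k k' h => ?_
  have h1 : f k = f k' := congrArg Subtype.val h
  rw [← ocl_rep k, ← ocl_rep k']
  refine ocl_eq_iff.2 ⟨g k' * (g k)⁻¹, H.mul_mem (hg k') (H.inv_mem (hg k)), ?_⟩
  rw [he k', he k, h1]
  group

/-- every vertex of `Ω` is `h * rep k` for exactly one pair -/
theorem exists_rep {w : RACG G} (hw : w ∈ Ω) : ∃! x : H × K Ω H, (x.1 : RACG G) * rep x.2 = w := by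
  obtain ⟨h, hh, he⟩ := exists_rep_ocl (H := H) hw
  refine ⟨(⟨h, hh⟩, ocl H w hw), he, ?_⟩
  rintro ⟨h', k'⟩ he'
  have hk : k' = ocl H w hw := by
    rw [← ocl_rep k']
    exact ocl_eq_iff.2 ⟨h', h'.2, he'.symm⟩
  subst hk
  have h1 : (h' : RACG G) = h := by
    have h2 : (h' : RACG G) * rep (ocl H w hw) = h * rep (ocl H w hw) := he'.trans he.symm
    exact mul_right_cancel h2
  exact Prod.ext (Subtype.ext h1) rfl

/-- the vertices at which there is an edge of colour `v` -/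
def dmK (Ω : Set (RACG G)) (H : Subgroup (RACG G)) (v : V) : Set (K Ω H) := {k | rep k * gen G v ∈ Ω}

lemma mem_dmK {v : V} {k : K Ω H} : k ∈ dmK Ω H v ↔ rep k * gen G v ∈ Ω := Iff.rfl

lemma ocl_mem_dmK (hC : Coc Ω H) {w : RACG G} {hw : w ∈ Ω} {v : V} :
    ocl H w hw ∈ dmK Ω H v ↔ w * gen G v ∈ Ω := by
  obtain ⟨h, hh, he⟩ := exists_rep_ocl (H := H) hw
  rw [mem_dmK]
  constructor
  · intro h1
    have h2 := hC.act h hh _ h1
    rwa [← mul_assoc, he] at h2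
  · intro h1
    have h2 := hC.act h⁻¹ (H.inv_mem hh) _ h1
    rwa [← mul_assoc, show h⁻¹ * w = rep (ocl H w hw) by rw [eq_comm, eq_inv_mul_iff_mul_eq, he]] at h2

open Classical in
/-- the moves -/
noncomputable def mvF (v : V) (k : K Ω H) : K Ω H :=
  if h : rep k * gen G v ∈ Ω then ocl H (rep k * gen G v) h else k

lemma mvF_ocl (hC : Coc Ω H) {w : RACG G} {hw : w ∈ Ω} {v : V} (hv : w * gen G v ∈ Ω) :
    mvF v (ocl H w hw) = ocl H (w * gen G v) hv := by
  have h1 : rep (ocl H w hw) * gen G v ∈ Ω := (ocl_mem_dmK hC).2 hv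
  unfold mvF
  rw [dif_pos h1]
  obtain ⟨h, hh, he⟩ := exists_rep_ocl (H := H) hw
  exact ocl_eq_iff.2 ⟨h, hh, by rw [← mul_assoc, he]⟩

lemma mvF_ocl_of_notMem (hC : Coc Ω H) {w : RACG G} {hw : w ∈ Ω} {v : V} (hv : w * gen G v ∉ Ω) :
    mvF v (ocl H w hw) = ocl H w hw := by
  have h1 : ¬ rep (ocl H w hw) * gen G v ∈ Ω := fun h => hv ((ocl_mem_dmK hC).1 h)
  unfold mvF
  rw [dif_neg h1]

lemma mvF_invol (hC : Coc Ω H) (v : V) : Function.Involutive (mvF (Ω := Ω) (H := H) v) := by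
  intro k
  rw [← ocl_rep k]
  by_cases hv : rep k * gen G v ∈ Ω
  · have h2 : rep k * gen G v * gen G v ∈ Ω := by
      rw [mul_assoc, gen_mul_gen, mul_one]
      exact rep_mem k
    rw [mvF_ocl hC hv, mvF_ocl hC h2]
    exact ocl_congr (by rw [mul_assoc, gen_mul_gen, mul_one])
  · rw [mvF_ocl_of_notMem hC hv, mvF_ocl_of_notMem hC hv]

lemma orb_adj (hΩ : LC Ω) {w : RACG G} (hw : w ∈ Ω) {u v : V} (huv : G.Adj u v) (hv : w * gen G v ∈ Ω) :
    w * gen G v * gen G u ∈ Ω ↔ w * gen G u ∈ Ω := by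
  constructor
  · intro h
    have h2 : w * gen G v * gen G v ∈ Ω := by
      rw [mul_assoc, gen_mul_gen, mul_one]
      exact hw
    have h1 := hΩ.sq _ hv u v huv h h2
    rwa [mul_assoc w, ← gen_comm huv, ← mul_assoc, mul_assoc, gen_mul_gen, mul_one] at h1
  · intro h
    exact hΩ.sq w hw v u huv.symm hv h

lemma mvF_comm (hΩ : LC Ω) (hC : Coc Ω H) {u v : V} (huv : G.Adj u v) (k : K Ω H) :
    mvF u (mvF v k) = mvF v (mvF u k) := by
  rw [← ocl_rep k]
  have hw := rep_mem k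
  by_cases hu : rep k * gen G u ∈ Ω
  · by_cases hv : rep k * gen G v ∈ Ω
    · have h1 := (orb_adj hΩ hw huv hv).2 hu
      have h2 := (orb_adj hΩ hw huv.symm hu).2 hv
      rw [mvF_ocl hC hv, mvF_ocl hC hu, mvF_ocl hC h1, mvF_ocl hC h2]
      exact ocl_congr (by rw [mul_assoc, ← gen_comm huv, ← mul_assoc])
    · have h2 : ¬ rep k * gen G u * gen G v ∈ Ω := fun h => hv ((orb_adj hΩ hw huv.symm hu).1 h)
      rw [mvF_ocl_of_notMem hC hv, mvF_ocl hC hu, mvF_ocl_of_notMem hC h2]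
  · by_cases hv : rep k * gen G v ∈ Ω
    · have h1 : ¬ rep k * gen G v * gen G u ∈ Ω := fun h => hu ((orb_adj hΩ hw huv hv).1 h)
      rw [mvF_ocl hC hv, mvF_ocl_of_notMem hC hu, mvF_ocl_of_notMem hC h1, mvF_ocl hC hv]
    · rw [mvF_ocl_of_notMem hC hv, mvF_ocl_of_notMem hC hu, mvF_ocl_of_notMem hC hv]

/-- the moves -/
theorem exists_mv (hΩ : LC Ω) (hC : Coc Ω H) : ∃ σ : V → Equiv.Perm (K Ω H), IsSys G σ ∧ IsDm G σ (dmK Ω H) ∧
    (∀ v, ∀ k ∉ dmK Ω H v, σ v k = k) ∧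
    ∀ v, ∀ k ∈ dmK Ω H v, ∃ h : H, (h : RACG G) * rep (σ v k) = rep k * gen G v := by
  refine ⟨fun v => (mvF_invol hC v).toPerm, ⟨fun v => ?_, fun u v huv => ?_⟩, ⟨fun v k hk => ?_,
    fun u v huv k hk => ?_⟩, fun v k hk => ?_, fun v k hk => ?_⟩
  · ext1 k
    exact mvF_invol hC v k
  · ext1 k
    exact mvF_comm hΩ hC huv k
  · show mvF v k ∈ dmK Ω H v
    rw [← ocl_rep k] at hk ⊢
    have hv := (ocl_mem_dmK hC).1 hk
    rw [mvF_ocl hC hv, ocl_mem_dmK hC, mul_assoc, gen_mul_gen, mul_one]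
    exact rep_mem k
  · show mvF u k ∈ dmK Ω H v
    rw [← ocl_rep k] at hk ⊢
    have hv := (ocl_mem_dmK hC).1 hk
    by_cases hu : rep k * gen G u ∈ Ω
    · rw [mvF_ocl hC hu, ocl_mem_dmK hC]
      exact (orb_adj hΩ (rep_mem k) huv.symm hu).2 hv
    · rwa [mvF_ocl_of_notMem hC hu]
  · show mvF v k = k
    unfold mvF
    exact dif_neg hk
  · show ∃ h : H, (h : RACG G) * rep (mvF v k) = rep k * gen G v
    obtain ⟨h, hh, he⟩ := exists_rep_ocl (H := H) (show rep k * gen G v ∈ Ω from hk)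
    refine ⟨⟨h, hh⟩, ?_⟩
    have h1 : mvF v k = ocl H (rep k * gen G v) hk := by
      unfold mvF
      exact dif_pos hk
    rw [h1]
    exact he

theorem lkK_dmK [Fintype V] [DecidableEq V] (k : K Ω H) : lkK (dmK Ω H) k = dir Ω (rep k) := by
  ext v
  rw [mem_lkK, mem_dir, mem_dmK]

end orb

end Om
end Singer
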