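import Pool.Agent.Singer.Cube.OmK
import Pool.Agent.Singer.Cube.OmEx
import Pool.Agent.Singer.DavisRes
import Pool.Agent.Singer.Davis

/-!
# Singer: convex subcomplexes of the Davis complex, the resolution

* `pp`, `up`: the coordinates `(h, (k, T)) ↦ (h * rep k, T)` of the cells, functions on the cells from coordinates;
* `OP`: the square-summable chains; `exists_oprj`: an idempotent matrix with the range `OP`;
* `oRes`: the resolution.
-/

set_option autoImplicit false
set_option linter.unusedSectionVars false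
set_option linter.unusedVariables false

open scoped ComplexConjugate InnerProductSpace
open Filter Topology

namespace Singer
namespace Om

universe u

open Racg Singer.Cube

/-! ### coordinates -/

section pts
variable {V : Type u} {G : SimpleGraph V} {Ω : Set (RACG G)} {H : Subgroup (RACG G)}

/-- the vertex and the type of a cell in coordinates -/
noncomputable def pp (Ω : Set (RACG G)) (H : Subgroup (RACG G)) (x : H × (K Ω H × Finset V)) : RACG G × Finset V :=
  ((x.1 : RACG G) * rep x.2.1, x.2.2)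

lemma pt_mem (hC : Coc Ω H) (h : H) (k : K Ω H) : (h : RACG G) * rep k ∈ Ω := hC.act h h.2 _ (rep_mem k)

lemma pt_inj (hC : Coc Ω H) {h h' : H} {k k' : K Ω H} (e : (h : RACG G) * rep k = h' * rep k') : h = h' ∧ k = k' := by
  obtain ⟨x, _, hx⟩ := exists_rep (H := H) (pt_mem hC h k)
  have h1 : ((h, k) : H × K Ω H) = x := hx (h, k) rfl
  have h2 : ((h', k') : H × K Ω H) = x := hx (h', k') e.symm
  have h3 := h1.trans h2.symm
  exact ⟨congrArg Prod.fst h3, congrArg Prod.snd h3⟩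

lemma pp_inj (hC : Coc Ω H) : Function.Injective (pp Ω H) := by
  rintro ⟨h, k, T⟩ ⟨h', k', T'⟩ e
  have e0 : (h : RACG G) * rep k = h' * rep k' := congrArg Prod.fst e
  obtain ⟨e1, e2⟩ := pt_inj hC e0
  have e3 : T = T' := congrArg Prod.snd e
  rw [e1, e2, e3]

lemma mem_range_pp (hC : Coc Ω H) {w : RACG G} {T : Finset V} : (w, T) ∈ Set.range (pp Ω H) ↔ w ∈ Ω := by
  constructor
  · rintro ⟨⟨h, k, S⟩, e⟩
    have e1 : (h : RACG G) * rep k = w := congrArg Prod.fst e
    rw [← e1]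
    exact pt_mem hC h k
  · intro hw
    obtain ⟨x, hx, _⟩ := exists_rep (H := H) hw
    refine ⟨(x.1, (x.2, T)), ?_⟩
    unfold pp
    rw [hx]

lemma act_iff (hC : Coc Ω H) (h : H) {w : RACG G} : (h : RACG G) * w ∈ Ω ↔ w ∈ Ω := by
  refine ⟨fun hw => ?_, fun hw => hC.act h h.2 w hw⟩
  have := hC.act _ (H.inv_mem h.2) _ hw
  rwa [inv_mul_cancel_left] at this

lemma on_pt (hC : Coc Ω H) (h : H) (k : K Ω H) (T : Finset V) :
    On Ω ((h : RACG G) * rep k, T) ↔ ∀ t ∈ T, k ∈ dmK Ω H t := by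
  constructor
  · rintro ⟨_, h2⟩ t ht
    have := h2 t ht
    rw [mul_assoc, act_iff hC] at this
    exact this
  · intro hk
    refine ⟨pt_mem hC h k, fun t ht => ?_⟩
    rw [mul_assoc, act_iff hC]
    exact hk t ht

/-- the function on the cells of the Davis complex -/
noncomputable def up (f : E H (K Ω H × Finset V)) : RACG G × Finset V → ℂ := extFun (pp Ω H) f

lemma up_pt (hC : Coc Ω H) (f : E H (K Ω H × Finset V)) (h : H) (k : K Ω H) (T : Finset V) :
    up f ((h : RACG G) * rep k, T) = f (h, (k, T)) := extFun_apply (pp_inj hC) f (h, (k, T))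

lemma up_of_notMem (hC : Coc Ω H) (f : E H (K Ω H × Finset V)) {w : RACG G} (hw : w ∉ Ω) (T : Finset V) :
    up f (w, T) = 0 := extFun_of_notMem _ fun h => hw ((mem_range_pp hC).1 h)

lemma up_ext (hC : Coc Ω H) {f : E H (K Ω H × Finset V)} {F : RACG G × Finset V → ℂ}
    (h1 : ∀ (h : H) k T, F ((h : RACG G) * rep k, T) = f (h, (k, T))) (h2 : ∀ w ∉ Ω, ∀ T, F (w, T) = 0) : up f = F := by
  funext x
  obtain ⟨w, T⟩ := x
  by_cases hw : w ∈ Ω
  · obtain ⟨⟨h, k⟩, hx, _⟩ := exists_rep (H := H) hw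
    have hx' : (h : RACG G) * rep k = w := hx
    rw [← hx', up_pt hC, h1]
  · rw [up_of_notMem hC f hw, h2 w hw]

lemma up_inj (hC : Coc Ω H) {f g : E H (K Ω H × Finset V)} (h : up f = up g) : f = g := by
  ext ⟨a, k, T⟩
  rw [← up_pt hC f, h, up_pt hC g]

lemma up_zero (hC : Coc Ω H) : up (0 : E H (K Ω H × Finset V)) = 0 := up_ext hC (fun _ _ _ => rfl) fun _ _ _ => rfl

lemma fs_iff (hC : Coc Ω H) {f : E H (K Ω H × Finset V)} : FS f ↔ (Function.support (up f)).Finite := by
  have h1 : {x | f x ≠ 0} = pp Ω H ⁻¹' Function.support (up f) := by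
    ext ⟨h, k, T⟩
    show f (h, (k, T)) ≠ 0 ↔ up f ((h : RACG G) * rep k, T) ≠ 0
    rw [up_pt hC]
  have h2 : Function.support (up f) = pp Ω H '' {x | f x ≠ 0} := by
    ext ⟨w, T⟩
    constructor
    · intro hx
      have hw : w ∈ Ω := by
        by_contra hw
        exact hx (up_of_notMem hC f hw T)
      obtain ⟨⟨h, k⟩, hk, _⟩ := exists_rep (H := H) hw
      have hk' : (h : RACG G) * rep k = w := hk
      refine ⟨(h, (k, T)), ?_, by unfold pp; rw [← hk']⟩
      show f (h, (k, T)) ≠ 0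
      rw [← up_pt hC, hk']
      exact hx
    · rintro ⟨⟨h, k, S⟩, hx, e⟩
      rw [← e]
      show up f ((h : RACG G) * rep k, S) ≠ 0
      rw [up_pt hC]
      exact hx
  constructor
  · intro h
    rw [h2]
    exact h.image _
  · intro h
    unfold FS
    rw [h1]
    exact h.preimage (pp_inj hC).injOn

end pts

/-! ### the resolution -/

section ores
variable {V : Type u} [Fintype V] [DecidableEq V] {G : SimpleGraph V} {Ω : Set (RACG G)} {H : Subgroup (RACG G)}
  {r : V → ℕ}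

/-- the square-summable chains of the subcomplex, in coordinates: `f (h, (k, T))` is the value at the cell
`h * rep k * W_T` -/
def OP (Ω : Set (RACG G)) (H : Subgroup (RACG G)) (i : ℕ) : Submodule ℂ (E H (K Ω H × Finset V)) where
  carrier := {f | (∀ h k T, f (h, (k, T)) ≠ 0 → G.IsClique T ∧ T.card = i ∧ ∀ t ∈ T, k ∈ dmK Ω H t) ∧
    ∀ (h : H) (k : K Ω H) (T : Finset V), ∀ v ∈ T, ∀ (h' : H) (k' : K Ω H),
      (h' : RACG G) * rep k' = h * rep k * gen G v → f (h', (k', T)) = -f (h, (k, T))}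
  zero_mem' := by
    refine ⟨fun h k T hx => absurd rfl hx, fun h k T v hv h' k' _ => ?_⟩
    simp
  add_mem' := by
    rintro f g ⟨hf1, hf2⟩ ⟨hh1, hh2⟩
    refine ⟨fun h k T hx => ?_, fun h k T v hv h' k' he => ?_⟩
    · rw [lp.coeFn_add, Pi.add_apply] at hx
      by_cases h1 : f (h, (k, T)) = 0
      · rw [h1, zero_add] at hx
        exact hh1 h k T hx
      · exact hf1 h k T h1
    · rw [lp.coeFn_add, Pi.add_apply, Pi.add_apply, hf2 h k T v hv h' k' he, hh2 h k T v hv h' k' he]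
      ring
  smul_mem' := by
    rintro c f ⟨hf1, hf2⟩
    refine ⟨fun h k T hx => hf1 h k T fun h0 => hx ?_, fun h k T v hv h' k' he => ?_⟩
    · rw [lp.coeFn_smul, Pi.smul_apply, h0, smul_zero]
    · rw [lp.coeFn_smul, Pi.smul_apply, Pi.smul_apply, hf2 h k T v hv h' k' he, smul_neg]

lemma up_supp (hC : Coc Ω H) {i : ℕ} {f : E H (K Ω H × Finset V)} (hf : f ∈ OP Ω H i) {w : RACG G} {T : Finset V}
    (h : up f (w, T) ≠ 0) : (G.IsClique (T : Set V) ∧ T.card = i) ∧ On Ω (w, T) := by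
  have hw : w ∈ Ω := by
    by_contra hw
    exact h (up_of_notMem hC f hw T)
  obtain ⟨⟨a, k⟩, hk, _⟩ := exists_rep (H := H) hw
  have hk' : (a : RACG G) * rep k = w := hk
  rw [← hk', up_pt hC] at h
  obtain ⟨h1, h2, h3⟩ := hf.1 a k T h
  refine ⟨⟨h1, h2⟩, ?_⟩
  rw [← hk']
  exact (on_pt hC a k T).2 h3

lemma up_anti (hC : Coc Ω H) {i : ℕ} {f : E H (K Ω H × Finset V)} (hf : f ∈ OP Ω H i) (w : RACG G) (T : Finset V)
    (v : V) (hv : v ∈ T) : up f (w * gen G v, T) = -up f (w, T) := by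
  by_cases hw : w ∈ Ω
  · by_cases hw' : w * gen G v ∈ Ω
    · obtain ⟨⟨a, k⟩, hk, _⟩ := exists_rep (H := H) hw
      obtain ⟨⟨a', k'⟩, hk', _⟩ := exists_rep (H := H) hw'
      have e1 : (a : RACG G) * rep k = w := hk
      have e2 : (a' : RACG G) * rep k' = w * gen G v := hk'
      rw [← e2, up_pt hC]
      rw [← e1] at e2 ⊢
      rw [up_pt hC]
      exact hf.2 a k T v hv a' k' e2
    · rw [up_of_notMem hC f hw']
      by_contra h
      have h1 : up f (w, T) ≠ 0 := fun h0 => h (by rw [h0, neg_zero])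
      exact hw' ((up_supp hC hf h1).2.2 v hv)
  · rw [up_of_notMem hC f hw, neg_zero]
    by_contra h
    have h2 := (up_supp hC hf h).2.2 v hv
    rw [mul_assoc, gen_mul_gen, mul_one] at h2
    exact hw h2

lemma up_mul (hC : Coc Ω H) {i : ℕ} {f : E H (K Ω H × Finset V)} (hf : f ∈ OP Ω H i) {T : Finset V} {u : RACG G}
    (hu : u ∈ Racg.sub (G := G) (T : Set V)) (w : RACG G) :
    up f (w * u, T) = (((sgW G u : ℤˣ) : ℤ) : ℂ) * up f (w, T) := by
  induction hu using Subgroup.closure_induction generalizing w with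
  | mem u hu =>
    obtain ⟨v, hv, rfl⟩ := hu
    rw [up_anti hC hf w T v hv, sgW_gen]
    simp
  | one => simp
  | mul u u' _ _ ihu ihu' =>
    rw [← mul_assoc, ihu', ihu, map_mul, Units.val_mul]
    push_cast
    ring
  | inv u _ ih =>
    have h := ih (w * u⁻¹)
    rw [inv_mul_cancel_right] at h
    rw [h, ← mul_assoc, ← Int.cast_mul, map_inv, ← Units.val_mul, inv_mul_cancel, Units.val_one, Int.cast_one,
      one_mul]

lemma op_oc (hC : Coc Ω H) {i : ℕ} {f : E H (K Ω H × Finset V)} (hf : f ∈ OP Ω H i) (hfs : FS f) :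
    up f ∈ OC ℂ Ω Finset.univ i := by
  refine ⟨⟨(fs_iff hC).1 hfs, fun x hx => ?_, fun g T v hv => up_anti hC hf g T v hv⟩, fun x hx => ?_⟩
  · obtain ⟨h1, h2⟩ := (up_supp hC hf (w := x.1) (T := x.2) hx).1
    exact ⟨Finset.subset_univ _, h2, h1⟩
  · exact (up_supp hC hf (w := x.1) (T := x.2) hx).2

lemma exists_of_oc (hC : Coc Ω H) {i : ℕ} {F : RACG G × Finset V → ℂ} (hF : F ∈ OC ℂ Ω Finset.univ i) :
    ∃ f ∈ OP Ω H i, FS f ∧ up f = F := by
  have h1 : (Function.support fun x : H × (K Ω H × Finset V) => F (pp Ω H x)).Finite :=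
    hF.1.1.preimage (pp_inj hC).injOn
  have h2 : up (ofFin _ h1) = F := up_ext hC (fun h k T => rfl) fun w hw T => by
    by_contra h
    exact hw (hF.2 (w, T) h).1
  refine ⟨ofFin _ h1, ⟨fun h k T hx => ?_, fun h k T v hv h' k' he => ?_⟩, ?_, h2⟩
  · have hx' : F ((h : RACG G) * rep k, T) ≠ 0 := hx
    exact ⟨(hF.1.2.1 _ hx').2.2, (hF.1.2.1 _ hx').2.1, (on_pt hC h k T).1 (hF.2 _ hx')⟩
  · show F ((h' : RACG G) * rep k', T) = -F ((h : RACG G) * rep k, T)
    rw [he]
    exact hF.1.2.2 _ T v hv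
  · rw [fs_iff hC, h2]
    exact hF.1.1

variable [Fintype (K Ω H)]

lemma up_DK (hC : Coc Ω H) (r : V → ℕ) (f : E H (K Ω H × Finset V)) : up (DK r f) = AD r (up f) := by
  refine up_ext hC (fun h k T => ?_) fun w hw T => ?_
  · rw [DK_apply]
    refine Finset.sum_congr rfl fun v _ => ?_
    dsimp only
    rw [up_pt hC, sg_eq, zsmul_eq_mul]
  · refine Finset.sum_eq_zero fun v _ => ?_
    dsimp only
    rw [up_of_notMem hC f hw, smul_zero]

lemma finsum_pair {X Y : Type*} (F : X × Y → ℂ) (y : Y) (h : ∀ x, F x ≠ 0 → x.2 = y) :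
    ∑ᶠ x, F x = ∑ᶠ a, F (a, y) := by
  have h1 : Function.Injective fun a : X => (a, y) := fun a b e => congrArg Prod.fst e
  rw [← finsum_mem_range h1, finsum_mem_def]
  refine finsum_congr fun x => ?_
  by_cases hx : x ∈ Set.range fun a : X => (a, y)
  · rw [Set.indicator_of_mem hx]
  · rw [Set.indicator_of_notMem hx]
    by_contra h0
    exact hx ⟨x.1, by rw [← h x h0]⟩

lemma eps_op (hC : Coc Ω H) {f : E H (K Ω H × Finset V)} (hf : f ∈ OP Ω H 0) :
    eps (fun _ => 1) f = ∑ᶠ g, up f (g, ∅) := by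
  unfold eps
  rw [← finsum_pair (up f) ∅ fun x hx => Finset.card_eq_zero.1 (up_supp hC hf (w := x.1) (T := x.2) hx).1.2]
  have h1 : ∑ᶠ x : H × (K Ω H × Finset V), (1 : ℂ) * f x = ∑ᶠ x, up f (pp Ω H x) :=
    finsum_congr fun x => by rw [one_mul]; exact (up_pt hC f x.1 x.2.1 x.2.2).symm
  rw [h1, ← finsum_mem_range (pp_inj hC), finsum_mem_def]
  refine finsum_congr fun x => ?_
  by_cases hx : x ∈ Set.range (pp Ω H)
  · rw [Set.indicator_of_mem hx]
  · rw [Set.indicator_of_notMem hx]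
    obtain ⟨w, T⟩ := x
    rw [mem_range_pp hC] at hx
    exact (up_of_notMem hC f hx T).symm

/-! ### the idempotent -/

open Classical in
/-- the coordinates of `rep k * u` -/
noncomputable def cz (k : K Ω H) (u : RACG G) : H × K Ω H :=
  if h : rep k * u ∈ Ω then (exists_rep (H := H) h).choose else (1, k)

omit [Fintype V] [DecidableEq V] [Fintype (K Ω H)] in
lemma cz_spec {k : K Ω H} {u : RACG G} (h : rep k * u ∈ Ω) : ((cz k u).1 : RACG G) * rep (cz k u).2 = rep k * u := by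
  unfold cz
  rw [dif_pos h]
  exact (exists_rep (H := H) h).choose_spec.1

open Classical in
/-- the average over the subgroup of a clique -/
lemma exists_av (hΩ : LC Ω) (hC : Coc Ω H) (k : K Ω H) (T : Finset V) :
    ∃ A : E H (K Ω H × Finset V) →L[ℂ] E H (K Ω H × Finset V), Mat A ∧
      (G.IsClique (T : Set V) → (∀ t ∈ T, k ∈ dmK Ω H t) → ∀ (f : E H (K Ω H × Finset V)) (h : H) (k' : K Ω H)
        (S : Finset V), A f (h, (k', S)) = if (k', S) = (k, T) then
          (Nat.card (Racg.sub (G := G) (T : Set V)) : ℂ)⁻¹ * ∑ᶠ u : Racg.sub (G := G) (T : Set V),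
            (((sgW G (u : RACG G) : ℤˣ) : ℤ) : ℂ) * up f ((h : RACG G) * rep k * u, T) else 0) := by
  by_cases hT : G.IsClique (T : Set V)
  · have := finite_sub hT
    let _ := Fintype.ofFinite (Racg.sub (G := G) (T : Set V))
    refine ⟨(Nat.card (Racg.sub (G := G) (T : Set V)) : ℂ)⁻¹ • ∑ u : Racg.sub (G := G) (T : Set V),
      (((sgW G (u : RACG G) : ℤˣ) : ℤ) : ℂ) •
        (col ((cz k (u : RACG G)).2, T) (k, T)).comp (rt (cz k (u : RACG G)).1), ?_, ?_⟩
    · exact (Mat.sum fun u _ => ((mat_col _ _).comp (mat_rt _)).smul _).smul _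
    · intro _ hk f h k' S
      rw [smul_apply, lp.coeFn_smul, Pi.smul_apply, smul_eq_mul, sum_apply, lp.coeFn_sum, Finset.sum_apply]
      by_cases hS : (k', S) = (k, T)
      · rw [if_pos hS, finsum_eq_sum_of_fintype]
        congr 1
        refine Finset.sum_congr rfl fun u _ => ?_
        rw [smul_apply, lp.coeFn_smul, Pi.smul_apply, smul_eq_mul, ContinuousLinearMap.comp_apply, hS, col_apply_self,
          rt_apply]
        congr 1
        have h1 : On Ω (rep k * (u : RACG G), T) := by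
          rw [hΩ.on_mul hT u.2]
          exact ⟨rep_mem k, hk⟩
        rw [← up_pt hC]
        congr 2
        show ((h : RACG G) * ((cz k (u : RACG G)).1 : RACG G)) * rep (cz k (u : RACG G)).2 = _
        rw [mul_assoc, cz_spec h1.1, mul_assoc]
      · rw [if_neg hS]
        refine mul_eq_zero_of_right _ (Finset.sum_eq_zero fun u _ => ?_)
        rw [smul_apply, lp.coeFn_smul, Pi.smul_apply, ContinuousLinearMap.comp_apply, col_apply_ne _ hS, smul_zero]
  · exact ⟨1, Mat.one, fun h => absurd h hT⟩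

/-- an idempotent matrix with the range `OP Ω H i` -/
theorem exists_oprj (hΩ : LC Ω) (hC : Coc Ω H) (i : ℕ) :
    ∃ e : E H (K Ω H × Finset V) →L[ℂ] E H (K Ω H × Finset V), Mat e ∧ (∀ f, e f ∈ OP Ω H i) ∧
      ∀ f ∈ OP Ω H i, e f = f := by
  classical
  choose A hA hAf using fun (x : K Ω H × Finset V) => exists_av (Ω := Ω) (H := H) hΩ hC x.1 x.2
  set P : K Ω H × Finset V → Prop := fun x =>
    G.IsClique (x.2 : Set V) ∧ x.2.card = i ∧ ∀ t ∈ x.2, x.1 ∈ dmK Ω H t with hP
  have key : ∀ (f : E H (K Ω H × Finset V)) (h : H) (k : K Ω H) (S : Finset V),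
      (∑ x ∈ Finset.univ.filter P, A x) f (h, (k, S)) = if P (k, S) then
        (Nat.card (Racg.sub (G := G) (S : Set V)) : ℂ)⁻¹ * ∑ᶠ u : Racg.sub (G := G) (S : Set V),
            (((sgW G (u : RACG G) : ℤˣ) : ℤ) : ℂ) * up f ((h : RACG G) * rep k * u, S) else 0 := by
    intro f h k S
    rw [sum_apply, lp.coeFn_sum, Finset.sum_apply]
    by_cases hS : P (k, S)
    · rw [if_pos hS, Finset.sum_eq_single_of_mem (k, S) (by simpa using hS)]
      · rw [hAf (k, S) hS.1 hS.2.2, if_pos rfl]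
      · intro x hx hne
        have hx' : P x := by simpa using hx
        rw [hAf x hx'.1 hx'.2.2, if_neg fun e => hne e.symm]
    · rw [if_neg hS]
      refine Finset.sum_eq_zero fun x hx => ?_
      have hx' : P x := by simpa using hx
      rw [hAf x hx'.1 hx'.2.2, if_neg]
      intro e
      rw [e] at hS
      exact hS hx'
  refine ⟨∑ x ∈ Finset.univ.filter P, A x, Mat.sum fun x _ => hA x, fun f => ⟨fun h k T hx => ?_, ?_⟩, fun f hf => ?_⟩
  · rw [key] at hx
    by_cases hS : P (k, T)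
    · exact hS
    · exact absurd (if_neg hS) hx
  · intro h k T v hv h' k' he
    have hP' : ∀ (a : H) (l : K Ω H), P (l, T) ↔ (G.IsClique (T : Set V) ∧ T.card = i) ∧
        On Ω ((a : RACG G) * rep l, T) := fun a l => by
      rw [on_pt hC, hP]
      exact ⟨fun h => ⟨⟨h.1, h.2.1⟩, h.2.2⟩, fun h => ⟨h.1.1, h.1.2, h.2⟩⟩
    have hPP : P (k', T) ↔ P (k, T) := by
      rw [hP' h' k', hP' h k, he]
      refine and_congr_right fun hT => ?_
      exact hΩ.on_mul hT.1 (gen_mem_sub (by exact_mod_cast hv))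
    rw [key, key]
    by_cases hS : P (k, T)
    · rw [if_pos hS, if_pos (hPP.2 hS), ← mul_neg]
      congr 1
      have hv' : gen G v ∈ Racg.sub (G := G) (T : Set V) := gen_mem_sub (by exact_mod_cast hv)
      have := finite_sub hS.1
      rw [← finsum_neg_distrib, ← finsum_comp_equiv (Equiv.mulLeft (⟨gen G v, hv'⟩ : Racg.sub (G := G) (T : Set V)))
        (f := fun u : Racg.sub (G := G) (T : Set V) =>
          -((((sgW G (u : RACG G) : ℤˣ) : ℤ) : ℂ) * up f ((h : RACG G) * rep k * u, T)))]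
      refine finsum_congr fun u => ?_
      have h1 : ((Equiv.mulLeft (⟨gen G v, hv'⟩ : Racg.sub (G := G) (T : Set V)) u :
          Racg.sub (G := G) (T : Set V)) : RACG G) = gen G v * (u : RACG G) := rfl
      rw [h1, map_mul, Units.val_mul, sgW_gen, he]
      simp only [mul_assoc]
      push_cast
      ring
    · rw [if_neg hS, if_neg fun h0 => hS (hPP.1 h0), neg_zero]
  · ext ⟨h, k, S⟩
    rw [key]
    by_cases hS : P (k, S)
    · rw [if_pos hS]
      have := finite_sub hS.1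
      let _ := Fintype.ofFinite (Racg.sub (G := G) (S : Set V))
      have h1 : ∀ u : Racg.sub (G := G) (S : Set V),
          (((sgW G (u : RACG G) : ℤˣ) : ℤ) : ℂ) * up f ((h : RACG G) * rep k * u, S) = f (h, (k, S)) := by
        intro u
        rw [up_mul hC hf u.2, up_pt hC, ← mul_assoc, ← Int.cast_mul, sgW_mul_self, Int.cast_one, one_mul]
      rw [finsum_congr h1, finsum_eq_sum_of_fintype, Finset.sum_const, nsmul_eq_mul, Finset.card_univ,
        ← Nat.card_eq_fintype_card, ← mul_assoc, inv_mul_cancel₀, one_mul]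
      exact Nat.cast_ne_zero.2 Nat.card_pos.ne'
    · rw [if_neg hS]
      by_contra h0
      exact hS (hf.1 h k S (Ne.symm h0))

omit [DecidableEq V] [Fintype V] in
lemma mat_sl {Γ : Type*} [Group Γ] {κ ι : Type*} (k : κ) : Mat (sl k : E Γ (κ × ι) →L[ℂ] E Γ ι) :=
  ⟨equi_sl k, fun j => (fs_del 1 j).preimage (slice_inj k).injOn⟩

omit [DecidableEq V] [Fintype V] in
lemma mat_ic {Γ : Type*} [Group Γ] {κ ι : Type*} (k : κ) : Mat (ic k : E Γ ι →L[ℂ] E Γ (κ × ι)) := by
  refine ⟨equi_ic k, fun j => ((fs_del 1 j).image fun x : Γ × ι => (x.1, (k, x.2))).subset ?_⟩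
  rintro ⟨g, k', i⟩ hx
  by_cases h : k' = k
  · subst h
    refine ⟨(g, i), ?_, rfl⟩
    intro h0
    apply hx
    rw [ic_apply_self]
    exact h0
  · exact absurd (ic_apply_ne h _ g i) hx

omit [DecidableEq V] [Fintype V] in
lemma mat_lf {Γ : Type*} [Group Γ] {κ ι μ : Type*} [Fintype κ] {T : E Γ ι →L[ℂ] E Γ μ} (hT : Mat T) :
    Mat (lf T : E Γ (κ × ι) →L[ℂ] E Γ (κ × μ)) :=
  Mat.sum fun k _ => (mat_ic k).comp (hT.comp (mat_sl k))

lemma mat_DK {Γ : Type*} [Group Γ] {κ : Type*} [Fintype κ] (r : V → ℕ) :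
    Mat (DK r : E Γ (κ × Finset V) →L[ℂ] E Γ (κ × Finset V)) := mat_lf mat_D

lemma DK_mem_OP {i : ℕ} {f : E H (K Ω H × Finset V)} (hf : f ∈ OP Ω H (i + 1)) : DK r f ∈ OP Ω H i := by
  obtain ⟨h1, h2⟩ := hf
  constructor
  · intro g k T hx
    rw [DK_apply] at hx
    obtain ⟨v, hv, hne⟩ := Finset.exists_ne_zero_of_sum_ne_zero hx
    have hv' : v ∉ T := by simpa using hv
    obtain ⟨c1, c2, c3⟩ := h1 g k (insert v T) (right_ne_zero_of_mul hne)
    rw [Finset.card_insert_of_notMem hv'] at c2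
    refine ⟨c1.subset ?_, by simpa using c2, fun t ht => c3 t (Finset.mem_insert_of_mem ht)⟩
    simp
  · intro h k T v hv h' k' he
    rw [DK_apply, DK_apply, ← Finset.sum_neg_distrib]
    refine Finset.sum_congr rfl fun w _ => ?_
    rw [h2 h k (insert w T) v (Finset.mem_insert_of_mem hv) h' k' he]
    ring

lemma exists_surj (hΩ : LC Ω) : ∃ f ∈ OP Ω H 0, FS f ∧ eps (fun _ => 1) f = 1 := by
  set k : K Ω H := ⟦⟨1, hΩ.one⟩⟧
  have h1 : ∀ x : H × (K Ω H × Finset V), (del 1 (k, ∅) : E H (K Ω H × Finset V)) x ≠ 0 → x = (1, (k, ∅)) :=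
    fun x hx => by
      by_contra h
      exact hx (del_apply_ne h)
  refine ⟨del 1 (k, ∅), ⟨fun h l T hx => ?_, fun h l T v hv h' l' _ => ?_⟩, fs_del _ _, ?_⟩
  · have h2 : T = ∅ := congrArg (fun x : H × (K Ω H × Finset V) => x.2.2) (h1 _ hx)
    rw [h2]
    exact ⟨by simp, rfl, by simp⟩
  · have h2 : T ≠ ∅ := Finset.ne_empty_of_mem hv
    rw [del_apply_ne fun h => h2 (congrArg (fun x : H × (K Ω H × Finset V) => x.2.2) h),
      del_apply_ne fun h => h2 (congrArg (fun x : H × (K Ω H × Finset V) => x.2.2) h), neg_zero]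
  · unfold eps
    rw [finsum_eq_single _ ((1, (k, ∅)) : H × (K Ω H × Finset V)), del_apply_self, one_mul]
    intro x hx
    rw [del_apply_ne hx, mul_zero]

/-- the resolution given by the subcomplex -/
noncomputable def oRes (hΩ : LC Ω) (hC : Coc Ω H) (hr : Function.Injective r) : Res.{u} H where
  ι _ := K Ω H × Finset V
  ft _ := inferInstance
  P i := OP Ω H i
  e i := (exists_oprj hΩ hC i).choose
  d _ := DK r
  w _ := 1
  mat_e i := (exists_oprj hΩ hC i).choose_spec.1
  mat_d _ := mat_DK r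
  e_mem i f := (exists_oprj hΩ hC i).choose_spec.2.1 f
  e_eq i f hf := (exists_oprj hΩ hC i).choose_spec.2.2 f hf
  d_mem _ _ hf := DK_mem_OP hf
  d_d _ f _ := DK_DK hr f
  eps_d f hf hfs := by
    rw [eps_op hC (DK_mem_OP hf), up_DK hC]
    exact (oc_exact_zero hΩ hr (oD_mem (op_oc hC hf hfs))).2 ⟨up f, op_oc hC hf hfs, rfl⟩
  surj := exists_surj hΩ
  ex_zero f hf hfs h0 := by
    rw [eps_op hC hf] at h0
    obtain ⟨F, hF, hFf⟩ := (oc_exact_zero hΩ hr (op_oc hC hf hfs)).1 h0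
    obtain ⟨g, hg, hgs, hgF⟩ := exists_of_oc hC hF
    refine ⟨g, hg, hgs, up_inj hC ?_⟩
    rw [up_DK hC, hgF, hFf]
  ex_succ i f hf hfs h0 := by
    have h1 : AD r (up f) = 0 := by rw [← up_DK hC, h0, up_zero hC]
    obtain ⟨F, hF, hFf⟩ := oc_exact_succ hΩ hr (op_oc hC hf hfs) h1
    obtain ⟨g, hg, hgs, hgF⟩ := exists_of_oc hC hF
    refine ⟨g, hg, hgs, up_inj hC ?_⟩
    rw [up_DK hC, hgF, hFf]

end ores

end Om
end Singer
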