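import Pool.Agent.Singer.Cube.OmRes
import Pool.Agent.Singer.Cube.Main
import Pool.Agent.Singer.IndG
import Pool.Agent.Singer.Ind

/-!
# Singer, convex subcomplexes of the Davis complex: unfolding

The square-summable chains of the subcomplex with the action of `H`, induced to the right-angled Coxeter group, are the
chains of the chessboard complex: `f (g, (k, T))` corresponds to `f (g * (rep k)⁻¹, (k, T))`.
-/

set_option autoImplicit false
set_option linter.unusedSectionVars false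
set_option linter.unusedVariables false

namespace Singer
namespace Om

universe u

open Racg Singer.Cube

section twist
variable {Γ : Type*} [Group Γ] {K ι : Type*}

lemma tw_inj (ρ : K → Γ) : Function.Injective fun x : Γ × (K × ι) => (x.1 * ρ x.2.1, x.2) := by
  rintro ⟨g, k, i⟩ ⟨g', k', i'⟩ h
  simp only [Prod.mk.injEq] at h ⊢
  obtain ⟨h1, h2, h3⟩ := h
  subst h2
  exact ⟨mul_right_cancel h1, rfl, h3⟩

/-- `twk ρ f (g, (k, T)) = f (g * ρ k, (k, T))` -/
noncomputable def twk (ρ : K → Γ) : E Γ (K × ι) →L[ℂ] E Γ (K × ι) := pull _ (tw_inj ρ)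

lemma twk_apply (ρ : K → Γ) (f : E Γ (K × ι)) (g : Γ) (k : K) (i : ι) :
    twk ρ f (g, (k, i)) = f (g * ρ k, (k, i)) := rfl

lemma twk_twk {ρ ρ' : K → Γ} (h : ∀ k, ρ k * ρ' k = 1) (f : E Γ (K × ι)) : twk ρ (twk ρ' f) = f := by
  ext ⟨g, k, i⟩
  rw [twk_apply, twk_apply, mul_assoc, h, mul_one]

lemma equi_twk (ρ : K → Γ) : Equi (twk ρ : E Γ (K × ι) →L[ℂ] E Γ (K × ι)) := fun g f => by
  ext ⟨g', k, i⟩
  rw [twk_apply, lam_apply, lam_apply]
  show f (g⁻¹ * (g' * ρ k), (k, i)) = f (g⁻¹ * g' * ρ k, (k, i))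
  rw [mul_assoc]

/-- `twk ρ⁻¹` -/
noncomputable abbrev tk (ρ : K → Γ) : E Γ (K × ι) →L[ℂ] E Γ (K × ι) := twk fun k => (ρ k)⁻¹

lemma tk_twk (ρ : K → Γ) (f : E Γ (K × ι)) : tk ρ (twk ρ f) = f := twk_twk (fun k => inv_mul_cancel (ρ k)) f

lemma twk_tk (ρ : K → Γ) (f : E Γ (K × ι)) : twk ρ (tk ρ f) = f := twk_twk (fun k => mul_inv_cancel (ρ k)) f

lemma tk_injective (ρ : K → Γ) : Function.Injective (tk ρ : E Γ (K × ι) →L[ℂ] E Γ (K × ι)) := fun f f' h => by
  rw [← twk_tk ρ f, h, twk_tk]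

/-- transport of modules -/
lemma map_tk {ρ : K → Γ} {X Y : Submodule ℂ (E Γ (K × ι))} (h : ∀ f, f ∈ X ↔ tk ρ f ∈ Y) :
    X.map ((tk ρ : E Γ (K × ι) →L[ℂ] E Γ (K × ι)) : E Γ (K × ι) →ₗ[ℂ] E Γ (K × ι)) = Y := by
  ext f
  constructor
  · rintro ⟨g, hg, rfl⟩
    exact (h g).1 hg
  · intro hf
    refine ⟨twk ρ f, (h _).2 ?_, tk_twk ρ f⟩
    rw [tk_twk]
    exact hf

lemma vdim_tk [Fintype K] [Fintype ι] {ρ : K → Γ} {X Y : Submodule ℂ (E Γ (K × ι))} (hX : Mdl X)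
    (h : ∀ f, f ∈ X ↔ tk ρ f ∈ Y) : vdim X = vdim Y := by
  rw [← map_tk h]
  exact (vdim_map_of_injective (equi_twk _) (tk_injective ρ) hX).symm

variable {V : Type*} [Fintype V] [DecidableEq V] [Fintype K]

lemma tk_DK (ρ : K → Γ) (r : V → ℕ) (f : E Γ (K × Finset V)) : tk ρ (DK r f) = DK r (tk ρ f) := by
  ext ⟨g, k, T⟩
  rw [twk_apply, DK_apply, DK_apply]
  rfl

lemma twk_DK (ρ : K → Γ) (r : V → ℕ) (f : E Γ (K × Finset V)) : twk ρ (DK r f) = DK r (twk ρ f) := by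
  ext ⟨g, k, T⟩
  rw [twk_apply, DK_apply, DK_apply]
  rfl

/-- transport of closures of boundaries -/
lemma mem_closure_tk {ρ : K → Γ} (r : V → ℕ) {X Y : Submodule ℂ (E Γ (K × Finset V))} (h : ∀ f, f ∈ X ↔ tk ρ f ∈ Y)
    (f : E Γ (K × Finset V)) :
    f ∈ (X.map ((DK r : E Γ (K × Finset V) →L[ℂ] E Γ (K × Finset V)) :
      E Γ (K × Finset V) →ₗ[ℂ] E Γ (K × Finset V))).topologicalClosure ↔
    tk ρ f ∈ (Y.map ((DK r : E Γ (K × Finset V) →L[ℂ] E Γ (K × Finset V)) :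
      E Γ (K × Finset V) →ₗ[ℂ] E Γ (K × Finset V))).topologicalClosure := by
  have h1 : ∀ f, f ∈ (X.map ((DK r : E Γ (K × Finset V) →L[ℂ] E Γ (K × Finset V)) :
      E Γ (K × Finset V) →ₗ[ℂ] E Γ (K × Finset V))).topologicalClosure →
      tk ρ f ∈ (Y.map ((DK r : E Γ (K × Finset V) →L[ℂ] E Γ (K × Finset V)) :
      E Γ (K × Finset V) →ₗ[ℂ] E Γ (K × Finset V))).topologicalClosure := by
    intro f hf
    refine map_mem_closure (tk ρ : E Γ (K × Finset V) →L[ℂ] E Γ (K × Finset V)).continuous hf ?_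
    rintro _ ⟨g, hg, rfl⟩
    refine ⟨tk ρ g, (h g).1 hg, ?_⟩
    exact (tk_DK ρ r g).symm
  refine ⟨h1 f, fun hf => ?_⟩
  have h2 : twk ρ (tk ρ f) ∈ (X.map ((DK r : E Γ (K × Finset V) →L[ℂ] E Γ (K × Finset V)) :
      E Γ (K × Finset V) →ₗ[ℂ] E Γ (K × Finset V))).topologicalClosure := by
    refine map_mem_closure (twk ρ : E Γ (K × Finset V) →L[ℂ] E Γ (K × Finset V)).continuous hf ?_
    rintro _ ⟨g, hg, rfl⟩
    refine ⟨twk ρ g, (h _).2 (by rw [tk_twk]; exact hg), ?_⟩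
    exact (twk_DK ρ r g).symm
  rwa [twk_tk] at h2

end twist

section indrel
variable {H Γ : Type*} [Group H] [Group Γ] {j : H →* Γ} {hj : Function.Injective j} {K : Type*} [Fintype K]
  {V : Type*} [Fintype V] [DecidableEq V]

/-- the boundary operators correspond to each other -/
lemma indRel_DK (r : V → ℕ) : IndRel j hj (DK r : E H (K × Finset V) →L[ℂ] E H (K × Finset V)) (DK r) where
  equi := equi_DK r
  equi' := equi_DK r
  icj u := by
    ext ⟨g, k, T⟩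
    rw [DK_apply]
    by_cases hg : g ∈ j.range
    · obtain ⟨h, rfl⟩ := hg
      rw [icj_apply, DK_apply]
      simp only [icj_apply]
    · rw [icj_apply_notMem j hj _ hg]
      refine Finset.sum_eq_zero fun v _ => ?_
      rw [icj_apply_notMem j hj _ hg, mul_zero]
  rsj f := by
    ext ⟨g, k, T⟩
    rw [rsj_apply, DK_apply, DK_apply]
    rfl

end indrel

section unf
variable {V : Type u} [Fintype V] [DecidableEq V] {G : SimpleGraph V} {Ω : Set (RACG G)} {H : Subgroup (RACG G)}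
  {r : V → ℕ} [Fintype (K Ω H)] {σ : V → Equiv.Perm (K Ω H)}

/-- the moves respect the domains -/
lemma notMem_of_mv (hC : Coc Ω H)
    (hσ : ∀ v, ∀ k ∈ dmK Ω H v, ∃ h : H, (h : RACG G) * rep (σ v k) = rep k * gen G v) {v : V} {k : K Ω H}
    (hk : k ∉ dmK Ω H v) : σ v k ∉ dmK Ω H v := by
  have h1 : ∀ k ∈ dmK Ω H v, σ v k ∈ dmK Ω H v := by
    intro k hk
    obtain ⟨h, hh⟩ := hσ v k hk
    have h2 : rep (σ v k) * gen G v = ((h⁻¹ : H) : RACG G) * rep k := by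
      have h3 : rep (σ v k) = ((h⁻¹ : H) : RACG G) * (rep k * gen G v) := by
        rw [Subgroup.coe_inv, eq_inv_mul_iff_mul_eq]
        exact hh
      rw [h3, mul_assoc, mul_assoc, gen_mul_gen, mul_one]
    rw [mem_dmK, h2]
    exact hC.act _ (h⁻¹).2 _ (rep_mem k)
  have h2 : Set.MapsTo (σ v) (dmK Ω H v) (dmK Ω H v) := h1
  intro h4
  obtain ⟨k', hk', he⟩ := Set.surj_on_of_inj_on_of_ncard_le (s := dmK Ω H v) (t := dmK Ω H v)
    (fun k _ => σ v k) (fun k hk => h2 hk) (fun _ _ _ _ h => (σ v).injective h) le_rfl (Set.toFinite _) _ h4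
  exact hk ((σ v).injective he ▸ hk')

/-- **unfolding** of the chains -/
theorem mem_ind_OP (hC : Coc Ω H)
    (hσ : ∀ v, ∀ k ∈ dmK Ω H v, ∃ h : H, (h : RACG G) * rep (σ v k) = rep k * gen G v) (i : ℕ)
    (f : E (RACG G) (K Ω H × Finset V)) :
    f ∈ ind H.subtype H.subtype_injective (OP Ω H i) ↔
      tk rep f ∈ ChK G (gen G) σ (dmK Ω H) Finset.univ Set.univ i := by
  rw [mem_ind]
  have hv : ∀ (g : RACG G) (h : H) (k : K Ω H) (T : Finset V),
      rsj H.subtype H.subtype_injective (lam g f) (h, (k, T)) = f (g⁻¹ * h, (k, T)) := fun g h k T => rfl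
  constructor
  · intro hf
    refine ⟨fun w k T hne => ?_, fun w k T v hvT => ?_⟩
    · rw [twk_apply] at hne
      have h1 := (hf (w * (rep k)⁻¹)⁻¹).1 1 k T
      rw [hv, inv_inv, Subgroup.coe_one, mul_one] at h1
      obtain ⟨c1, c2, c3⟩ := h1 hne
      exact ⟨⟨Finset.subset_univ _, c2, c1⟩, c3, Set.mem_univ _⟩
    · rw [twk_apply, twk_apply]
      by_cases hk : k ∈ dmK Ω H v
      · obtain ⟨h, hh⟩ := hσ v k hk
        have h1 := (hf (w * (rep k)⁻¹)⁻¹).2 1 k T v hvT h (σ v k) (by rw [hh, Subgroup.coe_one, one_mul])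
        rw [hv, hv, inv_inv, Subgroup.coe_one, mul_one] at h1
        rw [← h1]
        have h2 : (h : RACG G) = rep k * gen G v * (rep (σ v k))⁻¹ := by rw [eq_mul_inv_iff_mul_eq, hh]
        rw [h2]
        group
      · have h0 : ∀ (w : RACG G) (k : K Ω H), k ∉ dmK Ω H v → f (w, (k, T)) = 0 := by
          intro w k hk
          by_contra hne
          have h1 := (hf w⁻¹).1 1 k T
          rw [hv, inv_inv, Subgroup.coe_one, mul_one] at h1
          exact hk ((h1 hne).2.2 v hvT)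
        rw [h0 _ _ hk, h0 _ _ (notMem_of_mv hC hσ hk), neg_zero]
  · rintro ⟨h1, h2⟩ g
    have hf : ∀ (w : RACG G) (k : K Ω H) (T : Finset V), f (w, (k, T)) = tk rep f (w * rep k, (k, T)) := by
      intro w k T
      rw [twk_apply, mul_inv_cancel_right]
    refine ⟨fun h k T hne => ?_, fun h k T v hvT h' k' he => ?_⟩
    · rw [hv, hf] at hne
      obtain ⟨⟨-, c2, c3⟩, c4, -⟩ := h1 _ k T hne
      exact ⟨c3, c2, c4⟩
    · rw [hv, hv, hf, hf, ← h2 _ k T v hvT]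
      have hk : k ∈ dmK Ω H v := by
        have h3 : rep k * gen G v = ((h⁻¹ * h' : H) : RACG G) * rep k' := by
          rw [Subgroup.coe_mul, Subgroup.coe_inv, mul_assoc, he]
          group
        rw [mem_dmK, h3]
        exact hC.act _ (h⁻¹ * h').2 _ (rep_mem k')
      obtain ⟨h'', hh⟩ := hσ v k hk
      have h3 : ((h * h'' : H) : RACG G) * rep (σ v k) = h' * rep k' := by
        rw [he, Subgroup.coe_mul, mul_assoc, hh, mul_assoc]
      have hmem : (h' : RACG G) * rep k' ∈ Ω := hC.act _ h'.2 _ (rep_mem k')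
      obtain ⟨x, hx, hu⟩ := exists_rep (H := H) hmem
      have h4 := hu (h * h'', σ v k) h3
      have h5 := hu (h', k') rfl
      have h6 : (h * h'', σ v k) = (h', k') := h4.trans h5.symm
      have h7 : σ v k = k' := congrArg Prod.snd h6
      rw [h7]
      have h8 : g⁻¹ * (h' : RACG G) * rep k' = g⁻¹ * h * rep k * gen G v := by
        rw [mul_assoc, he]
        group
      rw [h8]

theorem mdl_OP (hΩ : LC Ω) (hC : Coc Ω H) (i : ℕ) : Mdl (OP Ω H i) := by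
  have hr : Function.Injective (fun v : V => (Fintype.equivFin V v : ℕ)) := fun a b h =>
    (Fintype.equivFin V).injective (Fin.ext h)
  exact ⟨(oRes hΩ hC hr).inv_P i, (oRes hΩ hC hr).isClosed_P i⟩

/-- **unfolding** of the cycles -/
theorem mem_ind_oZ (hΩ : LC Ω) (hC : Coc Ω H) (hr : Function.Injective r)
    (hσ : ∀ v, ∀ k ∈ dmK Ω H v, ∃ h : H, (h : RACG G) * rep (σ v k) = rep k * gen G v) (i : ℕ)
    (f : E (RACG G) (K Ω H × Finset V)) :
    f ∈ ind H.subtype H.subtype_injective ((oRes hΩ hC hr).Z i) ↔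
      tk rep f ∈ CyK r G (gen G) σ (dmK Ω H) Finset.univ Set.univ i := by
  cases i with
  | zero =>
    rw [CyK_zero]
    exact mem_ind_OP hC hσ 0 f
  | succ i =>
    show f ∈ ind H.subtype H.subtype_injective (OP Ω H (i + 1) ⊓ LinearMap.ker
      ((DK r : E H (K Ω H × Finset V) →L[ℂ] E H (K Ω H × Finset V)) :
        E H (K Ω H × Finset V) →ₗ[ℂ] E H (K Ω H × Finset V))) ↔ _
    rw [ind_inf, (indRel_DK r).ker]
    unfold CyK
    rw [Submodule.mem_inf, Submodule.mem_inf, mem_ind_OP hC hσ]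
    refine and_congr_right fun _ => ?_
    show DK r f = 0 ↔ DK r (tk rep f) = 0
    rw [← tk_DK]
    constructor
    · intro h
      rw [h, map_zero]
    · intro h
      exact tk_injective rep (by rw [h, map_zero])

/-- **unfolding** of the boundaries -/
theorem mem_ind_oB (hΩ : LC Ω) (hC : Coc Ω H) (hr : Function.Injective r)
    (hσ : ∀ v, ∀ k ∈ dmK Ω H v, ∃ h : H, (h : RACG G) * rep (σ v k) = rep k * gen G v) (i : ℕ)
    (f : E (RACG G) (K Ω H × Finset V)) :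
    f ∈ ind H.subtype H.subtype_injective ((oRes hΩ hC hr).B i) ↔
      tk rep f ∈ BdK r G (gen G) σ (dmK Ω H) Finset.univ Set.univ i := by
  show f ∈ ind H.subtype H.subtype_injective ((OP Ω H (i + 1)).map
      ((DK r : E H (K Ω H × Finset V) →L[ℂ] E H (K Ω H × Finset V)) :
        E H (K Ω H × Finset V) →ₗ[ℂ] E H (K Ω H × Finset V))).topologicalClosure ↔ _
  rw [(indRel_DK r).map (mdl_OP hΩ hC (i + 1)).inv]
  exact mem_closure_tk r (mem_ind_OP hC hσ (i + 1)) f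

lemma mdl_oZ (hΩ : LC Ω) (hC : Coc Ω H) (hr : Function.Injective r) (i : ℕ) : Mdl ((oRes hΩ hC hr).Z i) := by
  cases i with
  | zero => exact mdl_OP hΩ hC 0
  | succ i => exact (mdl_OP hΩ hC (i + 1)).inf (mdl_ker (equi_DK r))

lemma mdl_oB (hΩ : LC Ω) (hC : Coc Ω H) (hr : Function.Injective r) (i : ℕ) : Mdl ((oRes hΩ hC hr).B i) :=
  Mdl.closure ((mdl_OP hΩ hC (i + 1)).inv.map (equi_DK r))

theorem vdim_oZ (hΩ : LC Ω) (hC : Coc Ω H) (hr : Function.Injective r)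
    (hσ : ∀ v, ∀ k ∈ dmK Ω H v, ∃ h : H, (h : RACG G) * rep (σ v k) = rep k * gen G v) (i : ℕ) :
    vdim ((oRes hΩ hC hr).Z i) = vdim (CyK r G (gen G) σ (dmK Ω H) Finset.univ Set.univ i) := by
  have hm := mdl_oZ hΩ hC hr i
  rw [← vdim_ind (j := H.subtype) (hj := H.subtype_injective) hm.inv hm.cl]
  exact vdim_tk ⟨inv_ind _, isClosed_ind hm.cl⟩ (mem_ind_oZ hΩ hC hr hσ i)

theorem vdim_oB (hΩ : LC Ω) (hC : Coc Ω H) (hr : Function.Injective r)
    (hσ : ∀ v, ∀ k ∈ dmK Ω H v, ∃ h : H, (h : RACG G) * rep (σ v k) = rep k * gen G v) (i : ℕ) :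
    vdim ((oRes hΩ hC hr).B i) = vdim (BdK r G (gen G) σ (dmK Ω H) Finset.univ Set.univ i) := by
  have hm := mdl_oB hΩ hC hr i
  rw [← vdim_ind (j := H.subtype) (hj := H.subtype_injective) hm.inv hm.cl]
  exact vdim_tk ⟨inv_ind _, isClosed_ind hm.cl⟩ (mem_ind_oB hΩ hC hr hσ i)

/-- **the chessboard inequality**, first form -/
theorem ob_le_sum (hΩ : LC Ω) (hC : Coc Ω H) (hr : Function.Injective r) (i : ℕ) :
    vdim ((oRes hΩ hC hr).Z i) - vdim ((oRes hΩ hC hr).B i) ≤ ∑ k : K Ω H, bet (res G (dir Ω (rep k))) i := by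
  obtain ⟨σ, h1, h2, -, h4⟩ := exists_mv hΩ hC
  rw [vdim_oZ hΩ hC hr h4, vdim_oB hΩ hC hr h4]
  refine (bk_le_sum hr h1 h2 i).trans_eq (Finset.sum_congr rfl fun k _ => ?_)
  rw [lkK_dmK]

/-- vanishing, first form -/
theorem oZ_le_oB (hΩ : LC Ω) (hC : Coc Ω H) (hr : Function.Injective r) {i : ℕ}
    (h : ∀ w ∈ Ω, bet (res G (dir Ω w)) i = 0) : (oRes hΩ hC hr).Z i ≤ (oRes hΩ hC hr).B i := by
  obtain ⟨σ, h1, h2, -, h4⟩ := exists_mv hΩ hC
  have h5 := CyK_le_BdK_of_links (i := i) hr h1 h2 fun k => by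
    rw [lkK_dmK]
    exact h _ (rep_mem k)
  rw [← ind_le_ind (j := H.subtype) (hj := H.subtype_injective) (mdl_oZ hΩ hC hr i).inv (mdl_oB hΩ hC hr i).inv]
  intro f hf
  exact (mem_ind_oB hΩ hC hr h4 i f).2 (h5 ((mem_ind_oZ hΩ hC hr h4 i f).1 hf))

end unf

end Om
end Singer
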