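import Pool.Agent.Singer.Cube.OmUnf
import Pool.Agent.Singer.FinElem

/-!
# Singer: convex subcomplexes of the Davis complex, the vanishing theorem for all resolutions
-/

set_option autoImplicit false
set_option linter.unusedSectionVars false
set_option linter.unusedVariables false

namespace Singer
namespace Om

universe u

open Racg Singer.Cube

/-! ### section van -/

section van
variable {V : Type u} [Fintype V] [DecidableEq V] {G : SimpleGraph V} {Ω : Set (RACG G)} {H : Subgroup (RACG G)}

/-- vanishing for all resolutions -/
theorem ovan (hΩ : LC Ω) (hC : Coc Ω H) {i : ℕ} (h : ∀ w ∈ Ω, bet (res G (dir Ω w)) i = 0) (R : FinRes H) :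
    R.VanE i := by
  have := finite_K hC
  have := Fintype.ofFinite (K Ω H)
  have hr : Function.Injective (rk : V → ℕ) := fun a b hab => (Fintype.equivFin V).injective (Fin.ext hab)
  rw [← FinRes.van_iff_vanE, FinRes.van_iff_le]
  exact Res.vanish _ _ i (oZ_le_oB hΩ hC hr h)

end van

end Om
end Singer
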